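import Pool.Agent.H98.KfCons

/-!
# Change of the list
-/

open Finset BigOperators
open scoped Cardinal

namespace Pool.Agent.H98.KF

open Pool.Agent.H17.Kz

universe u v w

variable {K : Type u} [Field K] {m : ℕ} {S : Type w} [CommRing S] [Algebra K S]
variable {M : Type v} [AddCommGroup M] [Module K M] [Module S M] [IsScalarTower K S M]

theorem kdiff_pull (T : (Fin m → K) →ₗ[K] (Fin m → K)) (η ξ : Fin m → S)
    (hT : ∀ c : (Fin m → K) →ₗ[K] M, ∑ k, η k • c (Pi.single k 1) = ∑ j, ξ j • c (T (Pi.single j 1)))
    (i : ℕ) (c : KC K m M (i + 1)) :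
    kdiff K ξ M i (pull (i + 1) T c) = pull i T (kdiff K η M i c) := by
  ext v
  rw [kdiff_apply, pull_apply, kdiff_apply]
  let L : (Fin m → K) →ₗ[K] M :=
    { toFun := fun w => c (Matrix.vecCons w (fun a => T (v a)))
      map_add' := fun a b => by
        have := congrArg (fun f => f (fun a => T (v a))) (c.curryLeft.map_add a b)
        exact this
      map_smul' := fun a b => by
        have := congrArg (fun f => f (fun a => T (v a))) (c.curryLeft.map_smul a b)
        exact this }
  have h := hT L
  have h1 : ∀ j, pull (i + 1) T c (Matrix.vecCons (Pi.single j 1) v) = L (T (Pi.single j 1)) := by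
    intro j
    rw [pull_apply, vec_comp]
    rfl
  rw [Finset.sum_congr rfl (fun j _ => by rw [h1 j])]
  exact h.symm

theorem hrk_base (T : (Fin m → K) ≃ₗ[K] (Fin m → K)) (η ξ : Fin m → S)
    (hT : ∀ c : (Fin m → K) →ₗ[K] M, ∑ k, η k • c (Pi.single k 1) = ∑ j, ξ j • c (T (Pi.single j 1)))
    (i : ℕ) : hrk K ξ M i ≤ hrk K η M i := by
  have hk := kdiff_pull T.toLinearMap η ξ hT
  have hinv : ∀ (j : ℕ) (c : KC K m M j), pull j T.toLinearMap (pull j T.symm.toLinearMap c) = c := by
    intro j c
    ext v
    rw [pull_apply, pull_apply]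
    congr 1
    funext a
    exact T.symm_apply_apply _
  have hinj : ∀ (j : ℕ) (c : KC K m M j), pull j T.toLinearMap c = 0 → c = 0 := by
    intro j c hc
    ext v
    have := congrArg (fun f => f (fun a => T.symm (v a))) hc
    rw [AlternatingMap.zero_apply]
    simp only [pull_apply, AlternatingMap.zero_apply] at this
    rw [← this]
    congr 1
    funext a
    exact (T.apply_symm_apply _).symm
  refine rk_le_surj (pull i T.toLinearMap) _ _ _ _ ?_ ?_ ?_
  · intro z hz
    cases i with
    | zero => trivial
    | succ i =>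
      rw [mem_zc_succ] at hz ⊢
      rw [hk, hz, map_zero]
  · rintro z _ ⟨c, rfl⟩
    exact ⟨pull (i + 1) T.toLinearMap c, hk i c⟩
  · intro z hz
    refine ⟨pull i T.symm.toLinearMap z, ?_, ?_⟩
    · cases i with
      | zero => trivial
      | succ i =>
        rw [mem_zc_succ] at hz ⊢
        apply hinj
        rw [← hk, hinv, hz]
    · rw [hinv, sub_self]
      exact Submodule.zero_mem _

/-- Replace one element of the list by a linear combination. -/
theorem hrk_comb (ξ : Fin (m + 1) → S) (a : Fin (m + 1) → K) (j0 : Fin (m + 1)) (ha : a j0 ≠ 0)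
    (x : S) (hx : ∀ u : M, x • u = ∑ j, a j • ξ j • u) (i : ℕ) :
    hrk K ξ M i ≤ hrk K (Fin.cons x (fun k => ξ (j0.succAbove k)) : Fin (m + 1) → S) M i := by
  let T0 : (Fin (m + 1) → K) →ₗ[K] (Fin (m + 1) → K) :=
    { toFun := fun v => Fin.cons (∑ j, a j * v j) (fun k => v (j0.succAbove k))
      map_add' := fun v w => by
        funext k
        refine Fin.cases ?_ (fun k => ?_) k
        · simp [mul_add, Finset.sum_add_distrib]
        · simp
      map_smul' := fun c v => by
        funext k
        refine Fin.cases ?_ (fun k => ?_) k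
        · simp only [Fin.cons_zero, Pi.smul_apply, smul_eq_mul, RingHom.id_apply, Finset.mul_sum]
          exact Finset.sum_congr rfl (fun j _ => by ring)
        · simp }
  have hT0 : ∀ v, T0 v = Fin.cons (∑ j, a j * v j) (fun k => v (j0.succAbove k)) := fun v => rfl
  have hinj : Function.Injective T0 := by
    rw [← LinearMap.ker_eq_bot, LinearMap.ker_eq_bot']
    intro v hv
    rw [hT0] at hv
    have h1 : ∀ k, v (j0.succAbove k) = 0 := by
      intro k
      have := congrFun hv k.succ
      simpa using this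
    have h2 : ∑ j, a j * v j = 0 := by
      have := congrFun hv 0
      simpa using this
    rw [Fin.sum_univ_succAbove _ j0] at h2
    simp only [h1, mul_zero, Finset.sum_const_zero, add_zero] at h2
    have h3 : v j0 = 0 := (mul_eq_zero.mp h2).resolve_left ha
    funext j
    rcases Fin.eq_self_or_eq_succAbove j0 j with h | ⟨k, h⟩
    · rw [h, h3]; rfl
    · rw [h, h1]; rfl
  let T := LinearEquiv.ofInjectiveEndo T0 hinj
  refine hrk_base T _ ξ ?_ i
  intro c
  have hTj : ∀ j, T (Pi.single j 1) = a j • Pi.single 0 1 +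
      Fin.cons 0 (fun k => (Pi.single j 1 : Fin (m + 1) → K) (j0.succAbove k)) := by
    intro j
    show T0 (Pi.single j 1) = _
    rw [hT0]
    funext k
    refine Fin.cases ?_ (fun k => ?_) k
    · simp [Pi.single_apply]
    · simp
  rw [Fin.sum_univ_succ, Fin.cons_zero, hx]
  have h1 : ∀ j, ξ j • c (T (Pi.single j 1)) = a j • ξ j • c (Pi.single 0 1) +
      ξ j • c (Fin.cons 0 (fun k => (Pi.single j 1 : Fin (m + 1) → K) (j0.succAbove k))) := by
    intro j
    rw [hTj, map_add, map_smul, smul_add, smul_comm]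
  rw [Finset.sum_congr rfl (fun j _ => h1 j), Finset.sum_add_distrib]
  congr 1
  rw [Fin.sum_univ_succAbove _ j0]
  have h2 : (Fin.cons 0 (fun k => (Pi.single j0 1 : Fin (m + 1) → K) (j0.succAbove k)) :
      Fin (m + 1) → K) = 0 := by
    funext k
    refine Fin.cases ?_ (fun k => ?_) k
    · simp
    · simp [Pi.single_apply, Fin.succAbove_ne]
  rw [h2, map_zero, smul_zero, zero_add]
  apply Finset.sum_congr rfl
  intro k _
  rw [Fin.cons_succ]
  congr 2
  funext l
  refine Fin.cases ?_ (fun l => ?_) l
  · simp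
  · simp only [Fin.cons_succ, Pi.single_apply, Fin.succ_inj]
    by_cases h : l = k
    · subst h; simp
    · rw [if_neg h, if_neg (fun h2 => h (Fin.succAbove_right_injective h2))]

/-- adding an element which acts as zero -/
theorem hrk_cons_zero_act (x : S) (hx : ∀ u : M, x • u = 0) (ξ : Fin m → S) (N : ℕ)
    (h : ∀ i, hrk K ξ M i ≤ (N.choose i : Cardinal)) (i : ℕ) :
    hrk K (Fin.cons x ξ : Fin (m + 1) → S) M i ≤ ((N + 1).choose i : Cardinal) := by
  have hker : ∀ u, (LinearMap.id : M →ₗ[S] M) u = 0 ↔ ∃ v, u = x • v := by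
    intro u
    constructor
    · intro hu
      exact ⟨0, by rw [hx]; exact hu⟩
    · rintro ⟨v, rfl⟩
      exact hx v
  cases i with
  | zero =>
    refine (hrk_cons_zero x ξ (LinearMap.id : M →ₗ[S] M) Function.surjective_id hker).trans ?_
    refine (h 0).trans ?_
    simp
  | succ i =>
    refine (hrk_cons_succ x ξ (LinearMap.id : M →ₗ[S] M) (LinearMap.id : M →ₗ[S] M)
      Function.injective_id Function.surjective_id hker
      (fun u => ⟨fun _ => ⟨u, rfl⟩, fun _ => hx u⟩) i).trans ?_
    refine (add_le_add (h i) (h (i + 1))).trans ?_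
    rw [Nat.choose_succ_succ]
    push_cast
    exact le_rfl

end Pool.Agent.H98.KF
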