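import Pool.Agent.H98.KfRank

/-!
# Koszul homology with respect to a longer list

`H_{i-1}(ξ; 0 :_M x) → H_i(x, ξ; M) → H_i(ξ; M/xM)` is exact.
-/

open Finset BigOperators
open scoped Cardinal

namespace Pool.Agent.H98.KF

open Pool.Agent.H17.Kz

universe u v w

section pull
variable {K : Type u} [Field K] {m n : ℕ} {S : Type w} [CommRing S] [Algebra K S]
variable {M : Type v} [AddCommGroup M] [Module K M] [Module S M] [IsScalarTower K S M]

/-- pull back of alternating maps -/
noncomputable def pull (i : ℕ) (T : (Fin m → K) →ₗ[K] (Fin n → K)) : KC K n M i →ₗ[K] KC K m M i where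
  toFun c := c.compLinearMap T
  map_add' c c' := by ext v; rfl
  map_smul' a c := by ext v; rfl

theorem pull_apply (i : ℕ) (T : (Fin m → K) →ₗ[K] (Fin n → K)) (c : KC K n M i)
    (v : Fin i → Fin m → K) : pull i T c v = c (fun a => T (v a)) := rfl

theorem pull_smul (i : ℕ) (T : (Fin m → K) →ₗ[K] (Fin n → K)) (x : S) (c : KC K n M i) :
    pull i T (x • c) = x • pull i T c := by
  ext v; rfl

/-- forget the first coordinate -/
def tl (K : Type u) [Field K] (m : ℕ) : (Fin (m + 1) → K) →ₗ[K] (Fin m → K) where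
  toFun v j := v j.succ
  map_add' _ _ := rfl
  map_smul' _ _ := rfl

/-- prepend a zero coordinate -/
def cn (K : Type u) [Field K] (m : ℕ) : (Fin m → K) →ₗ[K] (Fin (m + 1) → K) where
  toFun v := Fin.cons 0 v
  map_add' v w := by
    funext j
    refine Fin.cases ?_ (fun j => ?_) j <;> simp
  map_smul' a v := by
    funext j
    refine Fin.cases ?_ (fun j => ?_) j <;> simp

theorem tl_apply (v : Fin (m + 1) → K) (j : Fin m) : tl K m v j = v j.succ := rfl
theorem cn_zero (v : Fin m → K) : cn K m v 0 = 0 := rfl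
theorem cn_succ (v : Fin m → K) (j : Fin m) : cn K m v j.succ = v j := rfl
theorem tl_cn (v : Fin m → K) : tl K m (cn K m v) = v := rfl
theorem tl_single_zero (a : K) : tl K m (Pi.single 0 a) = 0 := by
  funext j
  rw [tl_apply]
  simp
theorem tl_single_succ (k : Fin m) (a : K) : tl K m (Pi.single k.succ a) = Pi.single k a := by
  funext j
  rw [tl_apply]
  by_cases h : j = k
  · subst h; simp
  · rw [Pi.single_eq_of_ne h, Pi.single_eq_of_ne (fun h2 => h (Fin.succ_injective _ h2))]
theorem cn_single (k : Fin m) (a : K) : cn K m (Pi.single k a) = Pi.single k.succ a := by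
  funext j
  refine Fin.cases ?_ (fun j => ?_) j
  · rw [cn_zero]; simp
  · rw [cn_succ]
    by_cases h : j = k
    · subst h; simp
    · rw [Pi.single_eq_of_ne h, Pi.single_eq_of_ne (fun h2 => h (Fin.succ_injective _ h2))]

theorem pull_cn_tl (i : ℕ) (c : KC K m M i) : pull i (cn K m) (pull i (tl K m) c) = c := by
  ext v; rfl

theorem vec_comp (T : (Fin m → K) →ₗ[K] (Fin n → K)) (i : ℕ) (x : Fin m → K)
    (v : Fin i → Fin m → K) : (fun a => T (Matrix.vecCons x v a)) =
      Matrix.vecCons (T x) (fun a => T (v a)) := by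
  funext a
  refine Fin.cases ?_ (fun a => ?_) a <;> simp

theorem io_zero_pull_tl (i : ℕ) (c : KC K m M (i + 1)) :
    io 0 (pull (i + 1) (tl K m) c) = 0 := by
  ext v
  rw [io_apply, pull_apply, vec_comp, tl_single_zero]
  rw [AlternatingMap.zero_apply]
  exact c.map_coord_zero (0 : Fin (i + 1)) rfl

theorem pull_cn_we (i : ℕ) (c : KC K (m + 1) M i) : pull (i + 1) (cn K m) (we 0 c) = 0 := by
  ext v
  rw [pull_apply, we_apply, AlternatingMap.zero_apply]
  apply Finset.sum_eq_zero
  intro a _
  rw [cn_zero, zero_smul, smul_zero]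

/-- the differential and `tl` -/
theorem kdiff_pull_tl (x : S) (ξ : Fin m → S) (i : ℕ) (c : KC K m M (i + 1)) :
    kdiff K (Fin.cons x ξ : Fin (m + 1) → S) M i (pull (i + 1) (tl K m) c) =
      pull i (tl K m) (kdiff K ξ M i c) := by
  ext v
  rw [kdiff_apply, pull_apply, kdiff_apply, Fin.sum_univ_succ]
  have h0 : pull (i + 1) (tl K m) c (Matrix.vecCons (Pi.single 0 1) v) = 0 := by
    rw [pull_apply, vec_comp, tl_single_zero]
    exact c.map_coord_zero (0 : Fin (i + 1)) rfl
  rw [h0, smul_zero, zero_add]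
  apply Finset.sum_congr rfl
  intro k _
  rw [pull_apply, vec_comp, tl_single_succ]
  rfl

/-- the differential and `cn` -/
theorem pull_cn_kdiff (x : S) (ξ : Fin m → S) (i : ℕ) (c : KC K (m + 1) M (i + 1)) :
    pull i (cn K m) (kdiff K (Fin.cons x ξ : Fin (m + 1) → S) M i c) =
      x • pull i (cn K m) (io 0 c) + kdiff K ξ M i (pull (i + 1) (cn K m) c) := by
  ext v
  rw [pull_apply, kdiff_apply, Fin.sum_univ_succ, AlternatingMap.add_apply, kdiff_apply]
  congr 1
  apply Finset.sum_congr rfl
  intro k _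
  rw [pull_apply, vec_comp, cn_single]
  rfl

/-- an alternating map which vanishes when one entry is `e_0` and on tuples without zeroth
coordinate is zero -/
theorem eq_zero_of_io (i : ℕ) (c : KC K (m + 1) M (i + 1)) (h0 : io 0 c = 0)
    (h1 : pull (i + 1) (cn K m) c = 0) : c = 0 := by
  apply Module.Basis.ext_alternating (Pi.basisFun K (Fin (m + 1)))
  intro t ht
  rw [AlternatingMap.zero_apply]
  by_cases hz : ∃ a, t a = 0
  · obtain ⟨a, ha⟩ := hz
    have h2 : c (Matrix.vecCons (Pi.single 0 1)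
        (fun b : Fin i => Pi.basisFun K (Fin (m + 1)) (t (Equiv.swap 0 a b.succ)))) = 0 := by
      have := congrArg (fun f => f (fun b : Fin i => Pi.basisFun K (Fin (m + 1))
        (t (Equiv.swap 0 a b.succ)))) h0
      simpa [io_apply] using this
    have h3 : (fun b => Pi.basisFun K (Fin (m + 1)) (t (Equiv.swap 0 a b))) =
        Matrix.vecCons (Pi.single 0 1)
        (fun b : Fin i => Pi.basisFun K (Fin (m + 1)) (t (Equiv.swap 0 a b.succ))) := by
      funext b
      refine Fin.cases ?_ (fun b => ?_) b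
      · simp [ha]
      · simp
    rw [← h3] at h2
    by_cases haz : a = 0
    · subst haz
      simpa using h2
    · have h4 := c.map_swap (fun b => Pi.basisFun K (Fin (m + 1)) (t b)) (Ne.symm haz)
      have h5 : ((fun b => Pi.basisFun K (Fin (m + 1)) (t b)) ∘ (Equiv.swap 0 a)) =
        (fun b => Pi.basisFun K (Fin (m + 1)) (t (Equiv.swap 0 a b))) := rfl
      rw [h5, h2] at h4
      exact neg_eq_zero.mp h4.symm
  · have hz' : ∀ a, ∃ s : Fin m, t a = s.succ := by
      intro a
      have : t a ≠ 0 := fun h => hz ⟨a, h⟩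
      exact ⟨(t a).pred this, (Fin.succ_pred _ this).symm⟩
    choose s hs using hz'
    have h2 := congrArg (fun f => f (fun b => Pi.single (s b) (1 : K))) h1
    simp only [pull_apply, cn_single, AlternatingMap.zero_apply] at h2
    rw [← h2]
    congr 1
    funext b
    rw [hs b, Pi.basisFun_apply]

theorem eq_we_of_pull (i : ℕ) (c : KC K (m + 1) M (i + 1)) (h1 : pull (i + 1) (cn K m) c = 0) :
    c = we 0 (pull i (tl K m) (pull i (cn K m) (io 0 c))) := by
  rw [← sub_eq_zero]
  have hsub : ∀ (j : ℕ) (T : (Fin m → K) →ₗ[K] (Fin (m + 1) → K)) (a b : KC K (m + 1) M j),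
      pull j T (a - b) = pull j T a - pull j T b := fun j T a b => map_sub _ _ _
  apply eq_zero_of_io
  · rw [io_sub]
    cases i with
    | zero =>
      rw [io_we0, if_pos rfl]
      rw [sub_eq_zero]
      ext v
      rw [pull_apply, pull_apply]
      congr 1
      funext a
      exact a.elim0
    | succ i =>
      rw [io_we, if_pos rfl, io_zero_pull_tl, we_zero, sub_zero, sub_eq_zero]
      rw [← sub_eq_zero]
      apply eq_zero_of_io
      · rw [io_sub, io_io, io_zero_pull_tl, sub_zero]
      · rw [hsub, pull_cn_tl, sub_self]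
  · rw [hsub, h1, pull_cn_we, sub_zero]

end pull

section cons
variable {K : Type u} [Field K] {m : ℕ} {S : Type w} [CommRing S] [Algebra K S]
variable {M N C : Type v} [AddCommGroup M] [Module K M] [Module S M] [IsScalarTower K S M]
  [AddCommGroup N] [Module K N] [Module S N] [IsScalarTower K S N]
  [AddCommGroup C] [Module K C] [Module S C] [IsScalarTower K S C]

/-- division by `x` -/
theorem exists_div (x : S) : ∃ t : M →ₗ[K] M, ∀ v : M, x • t (x • v) = x • v := by
  let μ : M →ₗ[K] M := (LinearMap.lsmul S M x).restrictScalars K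
  obtain ⟨s, hs⟩ := LinearMap.exists_rightInverse_of_surjective μ.rangeRestrict
    (LinearMap.range_eq_top.mpr μ.surjective_rangeRestrict)
  obtain ⟨t, ht⟩ := LinearMap.exists_extend s
  refine ⟨t, fun v => ?_⟩
  have h1 : t (x • v) = s (μ.rangeRestrict v) := by
    rw [← ht]
    rfl
  rw [h1]
  have h2 := congrArg (fun f => ((f (μ.rangeRestrict v) : LinearMap.range μ) : M)) hs
  exact h2

theorem smul_kc_eq_zero (x : S) (hx : ∀ c : C, x • c = 0) (i : ℕ) (c : KC K m C i) : x • c = 0 := by
  ext v
  rw [AlternatingMap.smul_apply, hx]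
  rfl

theorem kdiff_we_zero (x : S) (ξ : Fin m → S) (c : KC K (m + 1) M 0) :
    kdiff K (Fin.cons x ξ : Fin (m + 1) → S) M 0 (we 0 c) = x • c := by
  rw [kdiff_io, Fin.sum_univ_succ, io_we0, if_pos rfl]
  have h4 : ∑ l : Fin m, (Fin.cons x ξ : Fin (m + 1) → S) l.succ • io l.succ (we 0 c) = 0 := by
    apply Finset.sum_eq_zero
    intro l _
    rw [io_we0, if_neg (Fin.succ_ne_zero l), smul_zero]
  rw [h4, add_zero, Fin.cons_zero]

theorem hrk_cons_zero (x : S) (ξ : Fin m → S) (π : M →ₗ[S] N) (hπ : Function.Surjective π)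
    (hker : ∀ u, π u = 0 ↔ ∃ v, u = x • v) :
    hrk K (Fin.cons x ξ : Fin (m + 1) → S) M 0 ≤ hrk K ξ N 0 := by
  have hπK : Function.Surjective (π.restrictScalars K) := hπ
  refine rk_le_inj ((cmp 0 (π.restrictScalars K)) ∘ₗ pull 0 (cn K m)) _ _ _ _
    (fun z _ => trivial) ?_ ?_
  · rintro z _ ⟨c, rfl⟩
    have h0 : cmp 0 (π.restrictScalars K) (x • pull 0 (cn K m) (io 0 c)) = 0 := by
      ext v
      rw [cmp_apply, AlternatingMap.smul_apply, AlternatingMap.zero_apply]
      exact (hker _).mpr ⟨_, rfl⟩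
    refine ⟨cmp 1 (π.restrictScalars K) (pull 1 (cn K m) c), ?_⟩
    rw [← cmp_kdiff, LinearMap.comp_apply, pull_cn_kdiff, map_add, h0]
    exact (zero_add _).symm
  · rintro z _ ⟨b', hb'⟩
    obtain ⟨b, rfl⟩ := cmp_surj (n := m) 1 _ hπK b'
    obtain ⟨t, ht⟩ := exists_div (K := K) (M := M) x
    set w := pull 0 (cn K m) z - kdiff K ξ M 0 b with hw
    have h1 : cmp 0 (π.restrictScalars K) w = 0 := by
      rw [hw, map_sub, cmp_kdiff, hb', LinearMap.comp_apply, sub_self]
    have h2 : x • cmp 0 t w = w := by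
      ext v
      have h3 : π (w v) = 0 := congrArg (fun f => f v) h1
      obtain ⟨y, hy⟩ := (hker _).mp h3
      rw [AlternatingMap.smul_apply, cmp_apply, hy, ht]
    refine ⟨pull 1 (tl K m) b + we 0 (pull 0 (tl K m) (cmp 0 t w)), ?_⟩
    rw [map_add, kdiff_pull_tl, kdiff_we_zero, ← pull_smul, h2, ← map_add, hw, add_sub_cancel]
    ext v
    rw [pull_apply, pull_apply]
    congr 1
    funext a
    exact a.elim0

theorem hrk_cons_succ (x : S) (ξ : Fin m → S) (ι : C →ₗ[S] M) (π : M →ₗ[S] N)
    (hι : Function.Injective ι) (hπ : Function.Surjective π)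
    (hker : ∀ u, π u = 0 ↔ ∃ v, u = x • v) (hC : ∀ u, x • u = 0 ↔ ∃ c, ι c = u) (i : ℕ) :
    hrk K (Fin.cons x ξ : Fin (m + 1) → S) M (i + 1) ≤ hrk K ξ C i + hrk K ξ N (i + 1) := by
  have hιK : Function.Injective (ι.restrictScalars K) := hι
  have hπK : Function.Surjective (π.restrictScalars K) := hπ
  have hxC : ∀ c : C, x • ι c = 0 := fun c => (hC _).mpr ⟨c, rfl⟩
  have hxI : ∀ (j : ℕ) (a : KC K m C j), x • cmp j (ι.restrictScalars K) a = 0 := by
    intro j a
    ext v
    rw [AlternatingMap.smul_apply, cmp_apply]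
    exact hxC _
  have hπx : ∀ (j : ℕ) (a : KC K m M j), cmp j (π.restrictScalars K) (x • a) = 0 := by
    intro j a
    ext v
    rw [cmp_apply, AlternatingMap.smul_apply, AlternatingMap.zero_apply]
    exact (hker _).mpr ⟨_, rfl⟩
  let W : ∀ j, KC K (m + 1) M j →ₗ[K] KC K (m + 1) M (j + 1) := fun j =>
    { toFun := we 0
      map_add' := we_add 0
      map_smul' := fun a c => by
        ext v
        rw [we_apply, RingHom.id_apply, AlternatingMap.smul_apply, we_apply, Finset.smul_sum]
        apply Finset.sum_congr rfl; intro b _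
        rw [AlternatingMap.smul_apply, smul_comm (v b 0) a, smul_comm a ((-1 : ℤ) ^ (b : ℕ))] }
  have hW : ∀ j c, W j c = we 0 c := fun j c => rfl
  refine rk_exact ((W i) ∘ₗ (pull i (tl K m)) ∘ₗ (cmp i (ι.restrictScalars K)))
    ((cmp (i + 1) (π.restrictScalars K)) ∘ₗ pull (i + 1) (cn K m)) _ _ _ _ _ _ ?_ ?_ ?_ ?_ ?_
  · intro z hz
    simp only [LinearMap.comp_apply, hW]
    rw [mem_zc_succ]
    cases i with
    | zero =>
      rw [kdiff_we_zero, ← pull_smul, hxI, map_zero]
    | succ i =>
      rw [mem_zc_succ] at hz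
      rw [kdiff_we, Fin.cons_zero, ← pull_smul, hxI, map_zero, zero_sub, kdiff_pull_tl,
        ← cmp_kdiff, hz, map_zero, map_zero, we_zero, neg_zero]
  · rintro z _ ⟨c, rfl⟩
    simp only [LinearMap.comp_apply, hW]
    refine ⟨- we 0 (pull (i + 1) (tl K m) (cmp (i + 1) (ι.restrictScalars K) c)), ?_⟩
    rw [map_neg, kdiff_we, Fin.cons_zero, ← pull_smul, hxI, map_zero, zero_sub, neg_neg,
      kdiff_pull_tl, ← cmp_kdiff]
  · intro z hz
    rw [mem_zc_succ] at hz ⊢
    rw [LinearMap.comp_apply, ← cmp_kdiff]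
    have h1 := pull_cn_kdiff x ξ i z
    rw [hz, map_zero] at h1
    have h2 : kdiff K ξ M i (pull (i + 1) (cn K m) z) = - (x • pull i (cn K m) (io 0 z)) :=
      eq_neg_of_add_eq_zero_right h1.symm
    rw [h2, map_neg, hπx, neg_zero]
  · rintro z _ ⟨c, rfl⟩
    rw [LinearMap.comp_apply, pull_cn_kdiff, map_add, hπx, zero_add, cmp_kdiff]
    exact ⟨_, rfl⟩
  · rintro z hz ⟨b', hb'⟩
    rw [mem_zc_succ] at hz
    obtain ⟨b, rfl⟩ := cmp_surj (n := m) (i + 2) _ hπK b'
    obtain ⟨t, ht⟩ := exists_div (K := K) (M := M) x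
    set w := pull (i + 1) (cn K m) z - kdiff K ξ M (i + 1) b with hw
    have h1 : cmp (i + 1) (π.restrictScalars K) w = 0 := by
      rw [hw, map_sub, cmp_kdiff, hb', LinearMap.comp_apply, sub_self]
    have h2 : x • cmp (i + 1) t w = w := by
      ext v
      have h3 : π (w v) = 0 := congrArg (fun f => f v) h1
      obtain ⟨y, hy⟩ := (hker _).mp h3
      rw [AlternatingMap.smul_apply, cmp_apply, hy, ht]
    set d := pull (i + 2) (tl K m) b + we 0 (pull (i + 1) (tl K m) (cmp (i + 1) t w)) with hd
    set z' := z - kdiff K (Fin.cons x ξ : Fin (m + 1) → S) M (i + 1) d with hz'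
    have h3 : pull (i + 1) (cn K m) z' = 0 := by
      rw [hz', map_sub, hd, map_add, kdiff_pull_tl, map_add, pull_cn_tl, kdiff_we, map_sub,
        pull_cn_we, sub_zero, Fin.cons_zero, pull_smul, pull_cn_tl, h2, hw]
      abel
    have h4 := eq_we_of_pull i z' h3
    set y := pull i (cn K m) (io 0 z') with hy
    have hzc : kdiff K (Fin.cons x ξ : Fin (m + 1) → S) M i z' = 0 := by
      rw [hz', map_sub, hz, kdiff_kdiff, sub_zero]
    have h5 : x • y = 0 ∧ y ∈ zc K ξ M i := by
      cases i with
      | zero =>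
        refine ⟨?_, trivial⟩
        rw [h4, kdiff_we_zero] at hzc
        have h7 := congrArg (pull 0 (cn K m)) hzc
        rw [pull_smul, pull_cn_tl, map_zero] at h7
        exact h7
      | succ i =>
        rw [h4, kdiff_we, Fin.cons_zero, kdiff_pull_tl] at hzc
        have h7 := congrArg (pull (i + 1) (cn K m)) hzc
        rw [map_sub, pull_cn_we, sub_zero, pull_smul, pull_cn_tl, map_zero] at h7
        refine ⟨h7, ?_⟩
        have h8 : x • pull (i + 1) (tl K m) y = 0 := by
          rw [← pull_smul, h7, map_zero]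
        rw [h8, zero_sub, neg_eq_zero] at hzc
        rw [mem_zc_succ]
        have h9 := congrArg (io 0) hzc
        cases i with
        | zero =>
          rw [io_we0, if_pos rfl] at h9
          have h10 : io 0 (0 : KC K (m + 1) M 1) = 0 := rfl
          rw [h10] at h9
          have h11 := congrArg (pull 0 (cn K m)) h9
          rw [pull_cn_tl, map_zero] at h11
          exact h11
        | succ i =>
          rw [io_we, if_pos rfl, io_zero_pull_tl, we_zero, sub_zero] at h9
          have h10 : io 0 (0 : KC K (m + 1) M (i + 2)) = 0 := rfl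
          rw [h10] at h9
          have h11 := congrArg (pull (i + 1) (cn K m)) h9
          rw [pull_cn_tl, map_zero] at h11
          exact h11
    obtain ⟨a, ha⟩ := cmp_exact i (ι.restrictScalars K) ((LinearMap.lsmul S M x).restrictScalars K)
      hιK (fun f hf => (hC f).mp hf) y (by
        ext v
        exact congrArg (fun f => f v) h5.1)
    refine ⟨a, ?_, d, ?_⟩
    · cases i with
      | zero => trivial
      | succ i =>
        rw [mem_zc_succ]
        apply cmp_inj i _ hιK
        rw [cmp_kdiff, ha, (mem_zc_succ ξ i y).mp h5.2, map_zero]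
    · simp only [LinearMap.comp_apply, hW]
      rw [ha, ← h4, hz']
      abel

end cons

end Pool.Agent.H98.KF
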