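import Mathlib

/-!
# The degree two part of the binomial bound: counting quadrics
-/

open MvPolynomial

namespace Pool.Agent.H98.KF

variable {K : Type*} [Field K] {n : ℕ}

/-- the linear forms in `F` -/
noncomputable def lin (F : Ideal (MvPolynomial (Fin n) K)) :
    Submodule K (MvPolynomial (Fin n) K) :=
  F.restrictScalars K ⊓ homogeneousSubmodule (Fin n) K 1

/-- the quadratic forms in `F` -/
noncomputable def quad (F : Ideal (MvPolynomial (Fin n) K)) :
    Submodule K (MvPolynomial (Fin n) K) :=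
  F.restrictScalars K ⊓ homogeneousSubmodule (Fin n) K 2

/-- `S_1 · F_1` -/
noncomputable def lq (F : Ideal (MvPolynomial (Fin n) K)) :
    Submodule K (MvPolynomial (Fin n) K) :=
  homogeneousSubmodule (Fin n) K 1 * lin F

/-- number of linear forms -/
noncomputable def dl (F : Ideal (MvPolynomial (Fin n) K)) : ℕ := Module.finrank K (lin F)

/-- number of quadrics of `S/F` -/
noncomputable def gq (F : Ideal (MvPolynomial (Fin n) K)) : ℕ :=
  Module.finrank K (quad F) - Module.finrank K (lq F)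

/-- `F` is homogeneous -/
def Hg (F : Ideal (MvPolynomial (Fin n) K)) : Prop :=
  ∀ f ∈ F, ∀ d, homogeneousComponent d f ∈ F

variable {F G H C F' : Ideal (MvPolynomial (Fin n) K)} {Y : Set (MvPolynomial (Fin n) K)}

theorem mem_lin {f : MvPolynomial (Fin n) K} :
    f ∈ lin F ↔ f ∈ F ∧ f ∈ homogeneousSubmodule (Fin n) K 1 := by
  unfold lin
  rw [Submodule.mem_inf, Submodule.restrictScalars_mem]

theorem mem_quad {f : MvPolynomial (Fin n) K} :
    f ∈ quad F ↔ f ∈ F ∧ f ∈ homogeneousSubmodule (Fin n) K 2 := by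
  unfold quad
  rw [Submodule.mem_inf, Submodule.restrictScalars_mem]

instance fin_hs (d : ℕ) : FiniteDimensional K (homogeneousSubmodule (Fin n) K d) :=
  Module.Finite.iff_fg.mpr (homogeneousSubmodule_fg (Fin n) K d)

theorem lin_le : lin F ≤ homogeneousSubmodule (Fin n) K 1 := inf_le_right

theorem quad_le : quad F ≤ homogeneousSubmodule (Fin n) K 2 := inf_le_right

theorem mul_mem_two {a b : MvPolynomial (Fin n) K} (ha : a ∈ homogeneousSubmodule (Fin n) K 1)
    (hb : b ∈ homogeneousSubmodule (Fin n) K 1) : a * b ∈ homogeneousSubmodule (Fin n) K 2 :=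
  homogeneousSubmodule_mul 1 1 (Submodule.mul_mem_mul ha hb)

theorem lq_le_quad : lq F ≤ quad F := by
  unfold lq
  rw [Submodule.mul_le]
  intro a ha b hb
  rw [mem_lin] at hb
  rw [mem_quad]
  exact ⟨Ideal.mul_mem_left _ _ hb.1, mul_mem_two ha hb.2⟩

instance fin_lin : FiniteDimensional K (lin F) :=
  Submodule.finiteDimensional_of_le lin_le

instance fin_quad : FiniteDimensional K (quad F) :=
  Submodule.finiteDimensional_of_le quad_le

instance fin_lq : FiniteDimensional K (lq F) :=
  Submodule.finiteDimensional_of_le lq_le_quad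

theorem lin_mono (h : F ≤ G) : lin F ≤ lin G := by
  intro f hf
  rw [mem_lin] at hf ⊢
  exact ⟨h hf.1, hf.2⟩

theorem quad_mono (h : F ≤ G) : quad F ≤ quad G := by
  intro f hf
  rw [mem_quad] at hf ⊢
  exact ⟨h hf.1, hf.2⟩

theorem mul_le_r {L M N : Submodule K (MvPolynomial (Fin n) K)} (h : M ≤ N) : L * M ≤ L * N :=
  Submodule.mul_le.mpr fun _ ha _ hb => Submodule.mul_mem_mul ha (h hb)

theorem lq_mono (h : F ≤ G) : lq F ≤ lq G := mul_le_r (lin_mono h)

/-! ### Homogeneous components of products with linear forms -/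

theorem hc_mul (s l : MvPolynomial (Fin n) K) (hl : l ∈ homogeneousSubmodule (Fin n) K 1)
    (d : ℕ) : homogeneousComponent (d + 1) (s * l) = homogeneousComponent d s * l := by
  conv_lhs => rw [← sum_homogeneousComponent s]
  rw [Finset.sum_mul, map_sum]
  have h1 : ∀ i, homogeneousComponent (d + 1) (homogeneousComponent i s * l) =
      if d = i then homogeneousComponent i s * l else 0 := by
    intro i
    have h2 : homogeneousComponent i s * l ∈ homogeneousSubmodule (Fin n) K (i + 1) :=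
      homogeneousSubmodule_mul i 1
        (Submodule.mul_mem_mul (homogeneousComponent_isHomogeneous i s) hl)
    rw [homogeneousComponent_of_mem h2]
    by_cases h : d = i
    · rw [if_pos (by omega), if_pos h]
    · rw [if_neg (by omega), if_neg h]
  simp only [h1]
  rw [Finset.sum_ite_eq]
  split_ifs with h
  · rfl
  · rw [Finset.mem_range, not_lt] at h
    rw [homogeneousComponent_eq_zero _ _ (by omega), zero_mul]

theorem hc_mul_zero (s l : MvPolynomial (Fin n) K) (hl : l ∈ homogeneousSubmodule (Fin n) K 1) :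
    homogeneousComponent 0 (s * l) = 0 := by
  rw [homogeneousComponent_zero]
  have h : coeff 0 l = 0 := by
    apply IsHomogeneous.coeff_eq_zero hl
    simp
  have h2 : coeff 0 (s * l) = coeff 0 s * coeff 0 l := by
    have := (constantCoeff (σ := Fin n) (R := K)).map_mul s l
    simpa [constantCoeff_eq] using this
  rw [h2, h, mul_zero, map_zero]

theorem hc_span (hY : ∀ y ∈ Y, y ∈ homogeneousSubmodule (Fin n) K 1)
    {b : MvPolynomial (Fin n) K} (hb : b ∈ Ideal.span Y) (d : ℕ) :
    homogeneousComponent (d + 1) b ∈ homogeneousSubmodule (Fin n) K d * Submodule.span K Y := by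
  obtain ⟨m, f, g, rfl⟩ := Submodule.mem_span_set'.mp hb
  rw [map_sum]
  refine Submodule.sum_mem _ fun i _ => ?_
  rw [smul_eq_mul, hc_mul _ _ (hY _ (g i).2)]
  exact Submodule.mul_mem_mul (homogeneousComponent_isHomogeneous d (f i))
    (Submodule.subset_span (g i).2)

theorem hc_span_zero (hY : ∀ y ∈ Y, y ∈ homogeneousSubmodule (Fin n) K 1)
    {b : MvPolynomial (Fin n) K} (hb : b ∈ Ideal.span Y) : homogeneousComponent 0 b = 0 := by
  obtain ⟨m, f, g, rfl⟩ := Submodule.mem_span_set'.mp hb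
  rw [map_sum]
  refine Finset.sum_eq_zero fun i _ => ?_
  rw [smul_eq_mul, hc_mul_zero _ _ (hY _ (g i).2)]

theorem span_le_ideal (Y : Set (MvPolynomial (Fin n) K)) :
    Submodule.span K Y ≤ (Ideal.span Y).restrictScalars K :=
  Submodule.span_le.mpr Ideal.subset_span

theorem mul_span_le_ideal (M : Submodule K (MvPolynomial (Fin n) K))
    (Y : Set (MvPolynomial (Fin n) K)) :
    M * Submodule.span K Y ≤ (Ideal.span Y).restrictScalars K := by
  rw [Submodule.mul_le]
  intro a _ b hb
  exact Ideal.mul_mem_left _ _ (span_le_ideal Y hb)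

theorem span_le_one (hY : ∀ y ∈ Y, y ∈ homogeneousSubmodule (Fin n) K 1) :
    Submodule.span K Y ≤ homogeneousSubmodule (Fin n) K 1 := Submodule.span_le.mpr hY

theorem Hg_sup (hF : Hg F) (hY : ∀ y ∈ Y, y ∈ homogeneousSubmodule (Fin n) K 1) :
    Hg (F ⊔ Ideal.span Y) := by
  intro f hf d
  obtain ⟨a, ha, b, hb, rfl⟩ := Submodule.mem_sup.mp hf
  rw [map_add]
  refine Ideal.add_mem _ (Ideal.mem_sup_left (hF a ha d)) (Ideal.mem_sup_right ?_)
  cases d with
  | zero => rw [hc_span_zero hY hb]; exact Ideal.zero_mem _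
  | succ d => exact mul_span_le_ideal _ Y (hc_span hY hb d)

theorem lin_sup (hF : Hg F) (hY : ∀ y ∈ Y, y ∈ homogeneousSubmodule (Fin n) K 1) :
    lin (F ⊔ Ideal.span Y) = lin F ⊔ Submodule.span K Y := by
  apply le_antisymm
  · intro f hf
    obtain ⟨hf1, hf2⟩ := mem_lin.mp hf
    obtain ⟨a, ha, b, hb, rfl⟩ := Submodule.mem_sup.mp hf1
    have h1 : homogeneousComponent 1 (a + b) = a + b := by
      rw [homogeneousComponent_of_mem hf2, if_pos rfl]
    rw [← h1, map_add]
    refine Submodule.add_mem_sup ?_ ?_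
    · exact mem_lin.mpr ⟨hF a ha 1, homogeneousComponent_isHomogeneous 1 a⟩
    · have h2 := hc_span hY hb 0
      rwa [homogeneousSubmodule_zero, one_mul] at h2
  · refine sup_le (lin_mono le_sup_left) ?_
    intro f hf
    exact mem_lin.mpr ⟨Ideal.mem_sup_right (span_le_ideal Y hf), span_le_one hY hf⟩

theorem quad_sup (hF : Hg F) (hY : ∀ y ∈ Y, y ∈ homogeneousSubmodule (Fin n) K 1) :
    quad (F ⊔ Ideal.span Y) = quad F ⊔ homogeneousSubmodule (Fin n) K 1 * Submodule.span K Y := by
  apply le_antisymm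
  · intro f hf
    obtain ⟨hf1, hf2⟩ := mem_quad.mp hf
    obtain ⟨a, ha, b, hb, rfl⟩ := Submodule.mem_sup.mp hf1
    have h1 : homogeneousComponent 2 (a + b) = a + b := by
      rw [homogeneousComponent_of_mem hf2, if_pos rfl]
    rw [← h1, map_add]
    refine Submodule.add_mem_sup ?_ (hc_span hY hb 1)
    exact mem_quad.mpr ⟨hF a ha 2, homogeneousComponent_isHomogeneous 2 a⟩
  · refine sup_le (quad_mono le_sup_left) ?_
    intro f hf
    refine mem_quad.mpr ⟨Ideal.mem_sup_right (mul_span_le_ideal _ Y hf), ?_⟩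
    exact homogeneousSubmodule_mul 1 1 (mul_le_r (span_le_one hY) hf)

theorem dl_succ (hF : Hg F) (y : MvPolynomial (Fin n) K)
    (hy : y ∈ homogeneousSubmodule (Fin n) K 1) (hyF : y ∉ F) :
    dl (F ⊔ Ideal.span {y}) = dl F + 1 := by
  have hY : ∀ z ∈ ({y} : Set (MvPolynomial (Fin n) K)), z ∈ homogeneousSubmodule (Fin n) K 1 := by
    intro z hz
    rw [Set.mem_singleton_iff] at hz
    rw [hz]; exact hy
  have hy0 : y ≠ 0 := fun h => hyF (by rw [h]; exact Ideal.zero_mem _)
  have hd : Disjoint (lin F) (Submodule.span K {y}) := by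
    rw [Submodule.disjoint_span_singleton' hy0]
    exact fun h => hyF (mem_lin.mp h).1
  unfold dl
  rw [lin_sup hF hY]
  have h1 := Submodule.finrank_sup_add_finrank_inf_eq (lin F) (Submodule.span K {y})
  rw [hd.eq_bot, finrank_bot, finrank_span_singleton hy0, add_zero] at h1
  exact h1

/-! ### Ideals generated by linear forms are prime, in degree two -/

theorem exists_functional (A : Submodule K (MvPolynomial (Fin n) K))
    (y : MvPolynomial (Fin n) K) (hy : y ∉ A) :
    ∃ f : MvPolynomial (Fin n) K →ₗ[K] K, (∀ a ∈ A, f a = 0) ∧ f y ≠ 0 := by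
  obtain ⟨f, hf, hf'⟩ := Submodule.exists_le_ker_of_notMem hy
  exact ⟨f, fun a ha => hf' ha, hf⟩

/-- the ideal generated by linear forms is prime (degree two) -/
theorem prime_two (A : Submodule K (MvPolynomial (Fin n) K))
    (hA : A ≤ homogeneousSubmodule (Fin n) K 1) (y z : MvPolynomial (Fin n) K)
    (hy : y ∈ homogeneousSubmodule (Fin n) K 1) (hz : z ∈ homogeneousSubmodule (Fin n) K 1)
    (hyA : y ∉ A) (h : z * y ∈ homogeneousSubmodule (Fin n) K 1 * A) : z ∈ A := by
  by_contra hzA
  obtain ⟨f, hf, hfy⟩ := exists_functional A y hyA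
  obtain ⟨g, hg, hgz⟩ := exists_functional A z hzA
  obtain ⟨φ, hφ, hφy, hφz⟩ : ∃ φ : MvPolynomial (Fin n) K →ₗ[K] K, (∀ a ∈ A, φ a = 0) ∧
      φ y ≠ 0 ∧ φ z ≠ 0 := by
    by_cases h1 : f z = 0
    · by_cases h2 : g y = 0
      · refine ⟨f + g, fun a ha => ?_, ?_, ?_⟩
        · rw [LinearMap.add_apply, hf a ha, hg a ha, add_zero]
        · rw [LinearMap.add_apply, h2, add_zero]; exact hfy
        · rw [LinearMap.add_apply, h1, zero_add]; exact hgz
      · exact ⟨g, hg, h2, hgz⟩
    · exact ⟨f, hf, hfy, h1⟩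
  have hev : ∀ l ∈ homogeneousSubmodule (Fin n) K 1, eval (fun i => φ (X i)) l = φ l := by
    intro l hl
    rw [homogeneousSubmodule_one_eq_span_X] at hl
    induction hl using Submodule.span_induction with
    | mem x hx => obtain ⟨i, rfl⟩ := hx; rw [eval_X]
    | zero => rw [map_zero, map_zero]
    | add x y _ _ hx hy => rw [map_add, map_add, hx, hy]
    | smul a x _ hx => rw [smul_eval, map_smul, hx, smul_eq_mul]
  have h0 : eval (fun i => φ (X i)) (z * y) = 0 := by
    refine Submodule.mul_induction_on h ?_ ?_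
    · intro m _ a ha
      rw [map_mul, hev a (hA ha), hφ a ha, mul_zero]
    · intro a b ha hb
      rw [map_add, ha, hb, add_zero]
  rw [map_mul, hev z hz, hev y hy] at h0
  exact (mul_ne_zero hφz hφy) h0

/-! ### Counting -/

/-- Lemma C -/
theorem count (hG : Hg G) (hY : ∀ y ∈ Y, y ∈ homogeneousSubmodule (Fin n) K 1)
    (hF' : F' = G ⊔ Ideal.span Y) (s : ℕ) (q : Fin s → MvPolynomial (Fin n) K)
    (hq1 : ∀ j, q j ∈ quad G) (hq2 : ∀ j, q j ∈ lq F')
    (hind : ∀ c : Fin s → K, ∑ j, c j • q j ∈ lq G → c = 0) : gq F' + s ≤ gq G := by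
  have hGF : G ≤ F' := by rw [hF']; exact le_sup_left
  have h1 : quad F' = quad G ⊔ lq F' := by
    apply le_antisymm
    · have h3 : lq F' = homogeneousSubmodule (Fin n) K 1 * (lin G ⊔ Submodule.span K Y) := by
        unfold lq
        rw [hF', lin_sup hG hY]
      rw [h3, hF', quad_sup hG hY]
      exact sup_le le_sup_left (le_trans (mul_le_r le_sup_right) le_sup_right)
    · exact sup_le (quad_mono hGF) lq_le_quad
  have h2 := Submodule.finrank_sup_add_finrank_inf_eq (quad G) (lq F')
  rw [← h1] at h2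
  let Φ : (Fin s → K) × lq G →ₗ[K] MvPolynomial (Fin n) K :=
    (Fintype.linearCombination K q).coprod (lq G).subtype
  have hΦ : ∀ x, Φ x = ∑ j, x.1 j • q j + (x.2 : MvPolynomial (Fin n) K) := by
    intro x
    simp [Φ, LinearMap.coprod_apply, Fintype.linearCombination_apply]
  have hinj : Function.Injective Φ := by
    rw [← LinearMap.ker_eq_bot, LinearMap.ker_eq_bot']
    intro x hx
    rw [hΦ] at hx
    have h3 : ∑ j, x.1 j • q j ∈ lq G := by
      rw [eq_neg_of_add_eq_zero_left hx]
      exact (lq G).neg_mem x.2.2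
    have h4 : x.1 = 0 := hind x.1 h3
    have h5 : x.2 = 0 := by
      apply Subtype.ext
      rw [h4] at hx
      simpa using hx
    exact Prod.ext h4 h5
  have hmem : ∀ x, Φ x ∈ quad G ⊓ lq F' := by
    intro x
    rw [hΦ]
    refine ⟨?_, ?_⟩
    · exact Submodule.add_mem _ (Submodule.sum_mem _ fun j _ => Submodule.smul_mem _ _ (hq1 j))
        (lq_le_quad x.2.2)
    · exact Submodule.add_mem _ (Submodule.sum_mem _ fun j _ => Submodule.smul_mem _ _ (hq2 j))
        (lq_mono hGF x.2.2)
  have : FiniteDimensional K (quad G ⊓ lq F' : Submodule K _) :=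
    Submodule.finiteDimensional_of_le (inf_le_left (b := lq F') (a := quad G))
  have h6 := LinearMap.finrank_le_finrank_of_injective
    (f := Φ.codRestrict (quad G ⊓ lq F') hmem) (by
      intro x y hxy
      exact hinj (congrArg Subtype.val hxy))
  rw [Module.finrank_prod, Module.finrank_fin_fun] at h6
  have h7 := Submodule.finrank_mono (lq_le_quad (F := G))
  have h8 := Submodule.finrank_mono (lq_le_quad (F := F'))
  unfold gq
  omega

/-- a basis of a complement -/
theorem exists_compl (W A : Submodule K (MvPolynomial (Fin n) K)) [FiniteDimensional K W]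
    (h : A ≤ W) : ∃ (s : ℕ) (z : Fin s → MvPolynomial (Fin n) K),
      s + Module.finrank K A = Module.finrank K W ∧ (∀ j, z j ∈ W) ∧
      ∀ c : Fin s → K, ∑ j, c j • z j ∈ A → c = 0 := by
  let b := Module.finBasis K (W ⧸ A.submoduleOf W)
  choose z hz using fun j => Submodule.mkQ_surjective (A.submoduleOf W) (b j)
  refine ⟨Module.finrank K (W ⧸ A.submoduleOf W), fun j => z j, ?_, fun j => (z j).2, ?_⟩
  · rw [← Submodule.finrank_quotient_add_finrank (A.submoduleOf W),
      (Submodule.submoduleOfEquivOfLe h).finrank_eq]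
  · intro c hc
    have h1 : (∑ j, c j • z j : W) ∈ A.submoduleOf W := by
      have h2 : ((∑ j, c j • z j : W) : MvPolynomial (Fin n) K) =
          ∑ j, c j • (z j : MvPolynomial (Fin n) K) := by
        simp
      show ((∑ j, c j • z j : W) : MvPolynomial (Fin n) K) ∈ A
      rw [h2]; exact hc
    have h2 : ∑ j, c j • b j = 0 := by
      have h3 := (Submodule.Quotient.mk_eq_zero (A.submoduleOf W)).mpr h1
      rw [← Submodule.mkQ_apply, map_sum] at h3
      simpa only [map_smul, hz] using h3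
    funext j
    exact Fintype.linearIndependent_iff.mp b.linearIndependent c h2 j

/-- (a) -/
theorem count_a (hF : Hg F) (x : MvPolynomial (Fin n) K)
    (hx : x ∈ homogeneousSubmodule (Fin n) K 1) (hxF : x ∉ F)
    (hC : ∀ f, f ∈ C ↔ f * x ∈ F) :
    gq (F ⊔ Ideal.span {x}) + dl C ≤ gq F + dl F := by
  have hY : ∀ z ∈ ({x} : Set (MvPolynomial (Fin n) K)), z ∈ homogeneousSubmodule (Fin n) K 1 := by
    intro z hz
    rw [Set.mem_singleton_iff] at hz
    rw [hz]; exact hx
  have hFC : F ≤ C := fun f hf => (hC f).mpr (Ideal.mul_mem_right _ _ hf)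
  obtain ⟨s, z, hs, hz, hind⟩ := exists_compl (lin C) (lin F) (lin_mono hFC)
  have h := count hF hY rfl s (fun j => z j * x)
    (fun j => mem_quad.mpr ⟨(hC _).mp (mem_lin.mp (hz j)).1, mul_mem_two (mem_lin.mp (hz j)).2 hx⟩)
    (fun j => Submodule.mul_mem_mul (mem_lin.mp (hz j)).2
      (mem_lin.mpr ⟨Ideal.mem_sup_right (Ideal.subset_span rfl), hx⟩))
    (by
      intro c hc
      apply hind c
      refine prime_two (lin F) lin_le x _ hx ?_ (fun h => hxF (mem_lin.mp h).1) ?_
      · exact Submodule.sum_mem _ fun j _ => Submodule.smul_mem _ _ (mem_lin.mp (hz j)).2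
      · rw [Finset.sum_mul]
        have h3 : ∑ j, c j • z j * x = ∑ j, c j • (z j * x) :=
          Finset.sum_congr rfl fun j _ => smul_mul_assoc _ _ _
        rw [h3]
        exact hc)
  unfold dl
  omega

/-- (b): `F' = H : y`, `y ∉ H + (x)`, `x y ∈ F`. -/
theorem count_b (hF : Hg F) (x y : MvPolynomial (Fin n) K)
    (hx : x ∈ homogeneousSubmodule (Fin n) K 1)
    (hy : y ∈ homogeneousSubmodule (Fin n) K 1)
    (hY : ∀ y ∈ Y, y ∈ homogeneousSubmodule (Fin n) K 1) (hH : H = F ⊔ Ideal.span Y)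
    (hxy : x * y ∈ F) (hF' : ∀ f, f ∈ F' ↔ f * y ∈ H)
    (Y' : Set (MvPolynomial (Fin n) K)) (hY' : ∀ y ∈ Y', y ∈ homogeneousSubmodule (Fin n) K 1)
    (hF'2 : F' = (F ⊔ Ideal.span {x}) ⊔ Ideal.span Y')
    (hyx : y ∉ H ⊔ Ideal.span {x}) :
    gq F' + dl F' ≤ gq (F ⊔ Ideal.span {x}) + dl (H ⊔ Ideal.span {x}) := by
  have hYx : ∀ z ∈ ({x} : Set (MvPolynomial (Fin n) K)),
      z ∈ homogeneousSubmodule (Fin n) K 1 := by
    intro z hz
    rw [Set.mem_singleton_iff] at hz
    rw [hz]; exact hx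
  have hFH : F ≤ H := by rw [hH]; exact le_sup_left
  have hYH : Ideal.span Y ≤ H := by rw [hH]; exact le_sup_right
  have hHF' : H ≤ F' := fun f hf => (hF' f).mpr (Ideal.mul_mem_right _ _ hf)
  have hxF' : x ∈ F' := (hF' x).mpr (hFH hxy)
  have hA : H ⊔ Ideal.span {x} ≤ F' :=
    sup_le hHF' ((Ideal.span_singleton_le_iff_mem _).mpr hxF')
  obtain ⟨s, z, hs, hz, hind⟩ := exists_compl (lin F') (lin (H ⊔ Ideal.span {x})) (lin_mono hA)
  have hzy : ∀ j, ∃ q ∈ quad F, ∃ p ∈ homogeneousSubmodule (Fin n) K 1 * Submodule.span K Y,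
      q + p = z j * y := by
    intro j
    have h1 : z j * y ∈ quad H :=
      mem_quad.mpr ⟨(hF' _).mp (mem_lin.mp (hz j)).1, mul_mem_two (mem_lin.mp (hz j)).2 hy⟩
    rw [hH, quad_sup hF hY] at h1
    exact Submodule.mem_sup.mp h1
  choose q hq p hp hqp using hzy
  have hYlin : Submodule.span K Y ≤ lin H := by
    intro f hf
    exact mem_lin.mpr ⟨hYH (span_le_ideal Y hf), span_le_one hY hf⟩
  have h := count (Hg_sup hF hYx) hY' hF'2 s q
    (fun j => quad_mono le_sup_left (hq j))
    (fun j => by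
      have h1 : q j = y * z j - p j := by rw [mul_comm y, ← hqp]; ring
      rw [h1]
      refine Submodule.sub_mem _ (Submodule.mul_mem_mul hy (hz j)) ?_
      exact mul_le_r (hYlin.trans (lin_mono hHF')) (hp j))
    (by
      intro c hc
      apply hind c
      refine prime_two (lin (H ⊔ Ideal.span {x})) lin_le y _ hy ?_
        (fun h => hyx (mem_lin.mp h).1) ?_
      · exact Submodule.sum_mem _ fun j _ => Submodule.smul_mem _ _ (mem_lin.mp (hz j)).2
      · have h2 : (∑ j, c j • z j) * y = ∑ j, c j • q j + ∑ j, c j • p j := by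
          rw [Finset.sum_mul, ← Finset.sum_add_distrib]
          refine Finset.sum_congr rfl fun j _ => ?_
          rw [smul_mul_assoc, ← hqp, smul_add]
        rw [h2]
        refine Submodule.add_mem _ ?_ ?_
        · exact lq_mono (sup_le_sup_right hFH _) hc
        · refine Submodule.sum_mem _ fun j _ => Submodule.smul_mem _ _ ?_
          exact mul_le_r (hYlin.trans (lin_mono le_sup_left)) (hp j))
  unfold dl
  omega

/-- (c): `F' = H : x`, `x ∉ H`, `H ≤ C = F : x`. -/
theorem count_c (hF : Hg F) (x : MvPolynomial (Fin n) K)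
    (hx : x ∈ homogeneousSubmodule (Fin n) K 1)
    (hY : ∀ y ∈ Y, y ∈ homogeneousSubmodule (Fin n) K 1) (hH : H = F ⊔ Ideal.span Y)
    (hC : ∀ f, f ∈ C ↔ f * x ∈ F) (hHC : H ≤ C) (hF' : ∀ f, f ∈ F' ↔ f * x ∈ H) (hxH : x ∉ H)
    (Y' : Set (MvPolynomial (Fin n) K)) (hY' : ∀ y ∈ Y', y ∈ homogeneousSubmodule (Fin n) K 1)
    (hF'2 : F' = (F ⊔ Ideal.span {x}) ⊔ Ideal.span Y') :
    gq F' + dl F' ≤ gq (F ⊔ Ideal.span {x}) + dl C := by
  have hYx : ∀ z ∈ ({x} : Set (MvPolynomial (Fin n) K)),
      z ∈ homogeneousSubmodule (Fin n) K 1 := by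
    intro z hz
    rw [Set.mem_singleton_iff] at hz
    rw [hz]; exact hx
  have hFH : F ≤ H := by rw [hH]; exact le_sup_left
  have hYH : Ideal.span Y ≤ H := by rw [hH]; exact le_sup_right
  have hHF' : H ≤ F' := fun f hf => (hF' f).mpr (Ideal.mul_mem_right _ _ hf)
  have hCF' : C ≤ F' := fun f hf => (hF' f).mpr (hFH ((hC f).mp hf))
  obtain ⟨s, z, hs, hz, hind⟩ := exists_compl (lin F') (lin C) (lin_mono hCF')
  have hzx : ∀ j, ∃ q ∈ quad F, ∃ p ∈ homogeneousSubmodule (Fin n) K 1 * Submodule.span K Y,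
      q + p = z j * x := by
    intro j
    have h1 : z j * x ∈ quad H :=
      mem_quad.mpr ⟨(hF' _).mp (mem_lin.mp (hz j)).1, mul_mem_two (mem_lin.mp (hz j)).2 hx⟩
    rw [hH, quad_sup hF hY] at h1
    exact Submodule.mem_sup.mp h1
  choose q hq p hp hqp using hzx
  have hYlin : Submodule.span K Y ≤ lin H := by
    intro f hf
    exact mem_lin.mpr ⟨hYH (span_le_ideal Y hf), span_le_one hY hf⟩
  have hxG : x ∈ F ⊔ Ideal.span {x} := Ideal.mem_sup_right (Ideal.subset_span rfl)
  have h := count (Hg_sup hF hYx) hY' hF'2 s p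
    (fun j => by
      have h1 : p j = z j * x - q j := by rw [← hqp]; ring
      rw [h1]
      refine Submodule.sub_mem _ ?_ (quad_mono le_sup_left (hq j))
      exact mem_quad.mpr ⟨Ideal.mul_mem_left _ _ hxG, mul_mem_two (mem_lin.mp (hz j)).2 hx⟩)
    (fun j => mul_le_r (hYlin.trans (lin_mono hHF')) (hp j))
    (by
      intro c hc
      apply hind c
      unfold lq at hc
      rw [lin_sup hF hYx, Submodule.mul_sup] at hc
      obtain ⟨φ, hφ, ψ, hψ, hsum⟩ := Submodule.mem_sup.mp hc
      obtain ⟨m, hm, rfl⟩ := Submodule.mem_mul_span_singleton.mp hψ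
      have hmH : m ∈ lin H := by
        refine prime_two (lin H) lin_le x m hx hm (fun h => hxH (mem_lin.mp h).1) ?_
        have h1 : m * x = ∑ j, c j • p j - φ := by rw [← hsum]; ring
        rw [h1]
        refine Submodule.sub_mem _ ?_ (mul_le_r (lin_mono hFH) hφ)
        refine Submodule.sum_mem _ fun j _ => Submodule.smul_mem _ _ ?_
        exact mul_le_r hYlin (hp j)
      have h2 : (∑ j, c j • z j - m) * x = ∑ j, c j • q j + φ := by
        have h3 : (∑ j, c j • z j) * x = ∑ j, c j • q j + ∑ j, c j • p j := by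
          rw [Finset.sum_mul, ← Finset.sum_add_distrib]
          refine Finset.sum_congr rfl fun j _ => ?_
          rw [smul_mul_assoc, ← hqp, smul_add]
        rw [sub_mul, h3, ← hsum]
        ring
      have h4 : (∑ j, c j • z j - m) * x ∈ F := by
        rw [h2]
        refine Ideal.add_mem _ ?_ ?_
        · refine Ideal.sum_mem _ fun j _ => ?_
          exact (F.restrictScalars K).smul_mem _ (mem_quad.mp (hq j)).1
        · exact (mem_quad.mp (lq_le_quad hφ)).1
      have h5 : ∑ j, c j • z j - m ∈ C := (hC _).mpr h4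
      refine mem_lin.mpr ⟨?_, ?_⟩
      · have h6 := Ideal.add_mem _ h5 (hHC (mem_lin.mp hmH).1)
        rwa [sub_add_cancel] at h6
      · exact Submodule.sum_mem _ fun j _ => Submodule.smul_mem _ _ (mem_lin.mp (hz j)).2)
  unfold dl
  omega

end Pool.Agent.H98.KF
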