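import Pool.Agent.H98.KfDef
import Pool.Agent.H98.KfDeg

/-!
# Strongly Koszul and universally Koszul algebras, hereditary Koszul filtrations
-/

open MvPolynomial

namespace Pool.Agent.H98.KF

variable {K : Type*} [Field K] {n : ℕ} {I : Ideal (MvPolynomial (Fin n) K)}

namespace Cor

/-- `C` is reached from `F` by adding linear forms, with colon ideals in `FF`. -/
def Ch (FF : Set (Ideal (MvPolynomial (Fin n) K))) (F C : Ideal (MvPolynomial (Fin n) K)) : Prop :=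
  ∃ (r : ℕ) (H : ℕ → Ideal (MvPolynomial (Fin n) K)),
    H 0 = F ∧ H r = C ∧ ∀ k < r, ∃ y ∈ homogeneousSubmodule (Fin n) K 1,
      H (k + 1) = H k ⊔ Ideal.span {y} ∧ (H k).colon {y} ∈ FF

variable {FF : Set (Ideal (MvPolynomial (Fin n) K))} {F G C : Ideal (MvPolynomial (Fin n) K)}

theorem Ch.refl : Ch FF F F := ⟨0, fun _ => F, rfl, rfl, fun k hk => absurd hk (Nat.not_lt_zero k)⟩

theorem Ch.cons {y : MvPolynomial (Fin n) K} (hy : y ∈ homogeneousSubmodule (Fin n) K 1)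
    (hc : F.colon {y} ∈ FF) (h : Ch FF (F ⊔ Ideal.span {y}) C) : Ch FF F C := by
  obtain ⟨r, H, h0, hr, hs⟩ := h
  refine ⟨r + 1, fun k => Nat.casesOn k F H, rfl, hr, ?_⟩
  intro k hk
  cases k with
  | zero => exact ⟨y, hy, h0, hc⟩
  | succ k => exact hs k (by omega)

theorem Ch.snoc {y : MvPolynomial (Fin n) K} (hy : y ∈ homogeneousSubmodule (Fin n) K 1)
    (hc : G.colon {y} ∈ FF) (h : Ch FF F G) : Ch FF F (G ⊔ Ideal.span {y}) := by
  obtain ⟨r, H, h0, hr, hs⟩ := h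
  refine ⟨r + 1, fun k => if k ≤ r then H k else G ⊔ Ideal.span {y}, ?_, ?_, ?_⟩
  · simp [h0]
  · simp
  · intro k hk
    rcases Nat.lt_or_ge k r with hkr | hkr
    · obtain ⟨z, hz, h1, h2⟩ := hs k hkr
      refine ⟨z, hz, ?_, ?_⟩
      · simp only [if_pos hkr.le, if_pos (show k + 1 ≤ r by omega)]
        exact h1
      · simp only [if_pos hkr.le]
        exact h2
    · have hk' : k = r := by omega
      subst hk'
      refine ⟨y, hy, ?_, ?_⟩
      · simp [hr]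
      · simpa [hr] using hc

/-- An ideal generated over `I` by linear forms is generated over `I` by its linear forms. -/
theorem le_of_lin_le (hIF : I ≤ F) (hG : ∃ Y ⊆ (homogeneousSubmodule (Fin n) K 1 :
    Set (MvPolynomial (Fin n) K)), G = I ⊔ Ideal.span Y) (h : lin G ≤ lin F) : G ≤ F := by
  obtain ⟨Y, hY, rfl⟩ := hG
  refine sup_le hIF (Ideal.span_le.mpr fun y hy => ?_)
  exact (mem_lin.mp (h (mem_lin.mpr ⟨Ideal.mem_sup_right (Ideal.subset_span hy), hY hy⟩))).1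

theorem le_vars_of (h2 : I ≤ idealOfVars (Fin n) K ^ 2) (hG : ∃ Y ⊆ (homogeneousSubmodule (Fin n) K 1 :
    Set (MvPolynomial (Fin n) K)), G = I ⊔ Ideal.span Y) : G ≤ idealOfVars (Fin n) K := by
  obtain ⟨Y, hY, rfl⟩ := hG
  refine sup_le (h2.trans (Ideal.pow_le_self two_ne_zero)) (Ideal.span_le.mpr fun y hy => ?_)
  have h := hY hy
  rw [SetLike.mem_coe, homogeneousSubmodule_one_eq_span_X] at h
  have h1 : Submodule.span K (Set.range (X : Fin n → MvPolynomial (Fin n) K)) ≤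
      (idealOfVars (Fin n) K).restrictScalars K :=
    Submodule.span_le.mpr Ideal.subset_span
  exact h1 h

theorem exists_lin_not_mem (hF : idealOfVars (Fin n) K ≠ F) (hle : F ≤ idealOfVars (Fin n) K)
    (ℓ : Fin n → MvPolynomial (Fin n) K)
    (hℓ : Submodule.span K (Set.range ℓ) = homogeneousSubmodule (Fin n) K 1) :
    ∃ j, ℓ j ∉ F := by
  by_contra hcon
  push Not at hcon
  refine hF (le_antisymm (Ideal.span_le.mpr ?_) hle)
  rintro _ ⟨i, rfl⟩
  have h1 : Submodule.span K (Set.range ℓ) ≤ F.restrictScalars K :=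
    Submodule.span_le.mpr (by rintro _ ⟨j, rfl⟩; exact hcon j)
  have h2 : (X i : MvPolynomial (Fin n) K) ∈ Submodule.span K (Set.range ℓ) := by
    rw [hℓ]; exact isHomogeneous_X K i
  exact h1 h2

/-- Chains in a family that is closed under adding suitable linear forms. -/
theorem chain_up (hI : Hg I) {Q : Set (Ideal (MvPolynomial (Fin n) K))}
    (hQ : ∀ H ∈ Q, ∃ Y ⊆ (homogeneousSubmodule (Fin n) K 1 : Set (MvPolynomial (Fin n) K)),
      H = I ⊔ Ideal.span Y)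
    (hstep : ∀ H ∈ Q, H ≤ C → H ≠ C → ∃ y ∈ homogeneousSubmodule (Fin n) K 1, y ∈ C ∧ y ∉ H ∧
      H ⊔ Ideal.span {y} ∈ Q ∧ H.colon {y} ∈ FF) :
    ∀ (m : ℕ) (H : Ideal (MvPolynomial (Fin n) K)), H ∈ Q → H ≤ C → dl C - dl H ≤ m → Ch FF H C := by
  intro m
  induction m with
  | zero =>
    intro H hH hHC hm
    by_cases he : H = C
    · rw [he]; exact Ch.refl
    · exfalso
      obtain ⟨y, hy, hyC, hyH, hyQ, hyc⟩ := hstep H hH hHC he
      obtain ⟨Y, hY, hHY⟩ := hQ H hH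
      have hg : Hg H := by rw [hHY]; exact Hg_sup hI hY
      have h1 := dl_succ hg y hy hyH
      have h2 : H ⊔ Ideal.span {y} ≤ C :=
        sup_le hHC ((Ideal.span_singleton_le_iff_mem _).mpr hyC)
      have h3 : dl (H ⊔ Ideal.span {y}) ≤ dl C := Submodule.finrank_mono (lin_mono h2)
      omega
  | succ m ih =>
    intro H hH hHC hm
    by_cases he : H = C
    · rw [he]; exact Ch.refl
    · obtain ⟨y, hy, hyC, hyH, hyQ, hyc⟩ := hstep H hH hHC he
      obtain ⟨Y, hY, hHY⟩ := hQ H hH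
      have hg : Hg H := by rw [hHY]; exact Hg_sup hI hY
      have h1 := dl_succ hg y hy hyH
      have h2 : H ⊔ Ideal.span {y} ≤ C :=
        sup_le hHC ((Ideal.span_singleton_le_iff_mem _).mpr hyC)
      exact Ch.cons hy hyc (ih _ hyQ h2 (by omega))

theorem le_colon (F : Ideal (MvPolynomial (Fin n) K)) (x : MvPolynomial (Fin n) K) :
    F ≤ F.colon {x} := by
  intro f hf
  rw [Submodule.mem_colon_singleton, smul_eq_mul]
  exact Ideal.mul_mem_right _ _ hf

end Cor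

open Cor

theorem IsHereditaryFiltration.colonFamily {FF : Set (Ideal (MvPolynomial (Fin n) K))}
    (h2 : I ≤ idealOfVars (Fin n) K ^ 2) (h : IsHereditaryFiltration I FF) :
    IsColonFamily I FF := by
  have hIF : ∀ F ∈ FF, I ≤ F := by
    intro F hF
    obtain ⟨Y, -, hY⟩ := h.lin F hF
    rw [hY]; exact le_sup_left
  have hdl : ∀ F ∈ FF, ∀ G ∈ FF, F < G → dl F < dl G := by
    intro F hF G hG hlt
    have h1 : KF.lin F ≤ KF.lin G := lin_mono hlt.le
    refine lt_of_le_of_ne (Submodule.finrank_mono h1) fun he => ?_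
    have h3 := Submodule.eq_of_le_of_finrank_eq h1 he
    exact hlt.not_ge (le_of_lin_le (hIF F hF) (h.lin G hG) h3.ge)
  -- chains
  have hch : ∀ F ∈ FF, ∀ (m : ℕ), ∀ G ∈ FF, F ≤ G → dl G ≤ m → Ch FF F G := by
    intro F hF m
    induction m with
    | zero =>
      intro G hG hFG hm
      rcases hFG.eq_or_lt with he | hlt
      · rw [he]; exact Ch.refl
      · have := hdl F hF G hG hlt
        omega
    | succ m ih =>
      intro G hG hFG hm
      rcases hFG.eq_or_lt with he | hlt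
      · rw [he]; exact Ch.refl
      · obtain ⟨G', hG', hFG', hlt', y, hy, hGy, hc⟩ := h.step F hF G hG hlt
        have := hdl G' hG' G hG hlt'
        rw [hGy]
        exact Ch.snoc hy hc (ih G' hG' hFG' (by omega))
  refine ⟨h.mem, h.lin, ?_⟩
  intro F hF hne
  -- a smallest member above `F`
  have hex : ∃ m, ∃ G ∈ FF, F < G ∧ dl G = m :=
    ⟨_, _, h.top, lt_of_le_of_ne (le_vars_of h2 (h.lin F hF)) hne, rfl⟩
  classical
  obtain ⟨G, hG, hFG, hdG⟩ := Nat.find_spec hex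
  obtain ⟨G', hG', hFG', hlt', y, hy, hGy, hc⟩ := h.step F hF G hG hFG
  have hG'F : F = G' := by
    rcases hFG'.eq_or_lt with he | hlt
    · exact he
    · exfalso
      have h3 := hdl G' hG' G hG hlt'
      exact Nat.find_min hex (by rw [← hdG]; exact h3) ⟨G', hG', hlt, rfl⟩
  subst hG'F
  have hyF : y ∉ F := by
    intro hyF
    refine hFG.ne ?_
    rw [hGy]
    exact (sup_eq_left.mpr ((Ideal.span_singleton_le_iff_mem _).mpr hyF)).symm
  refine ⟨y, hy, hyF, by rw [← hGy]; exact hG, ?_⟩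
  exact hch F hF _ _ hc (le_colon F y) le_rfl

theorem IsStronglyKoszul.colonFamily (hI : Hg I) (h2 : I ≤ idealOfVars (Fin n) K ^ 2)
    (h : IsStronglyKoszul I) : ∃ FF, IsColonFamily I FF := by
  obtain ⟨ℓ, hℓ, hind, hcol⟩ := h
  have hspan : Submodule.span K (Set.range ℓ) = homogeneousSubmodule (Fin n) K 1 := by
    refine Submodule.eq_of_le_of_finrank_le (Submodule.span_le.mpr ?_) ?_
    · rintro _ ⟨j, rfl⟩; exact hℓ j
    · rw [finrank_span_eq_card hind, Fintype.card_fin, homogeneousSubmodule_one_eq_span_X]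
      have h1 := finrank_range_le_card (R := K) (X : Fin n → MvPolynomial (Fin n) K)
      rwa [Fintype.card_fin] at h1
  have himg : ∀ A : Set (Fin n), ℓ '' A ⊆
      (homogeneousSubmodule (Fin n) K 1 : Set (MvPolynomial (Fin n) K)) := by
    rintro A _ ⟨j, -, rfl⟩; exact hℓ j
  let FF : Set (Ideal (MvPolynomial (Fin n) K)) :=
    Set.range fun A : Set (Fin n) => I ⊔ Ideal.span (ℓ '' A)
  have hlin : ∀ F ∈ FF, ∃ Y ⊆ (homogeneousSubmodule (Fin n) K 1 : Set (MvPolynomial (Fin n) K)),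
      F = I ⊔ Ideal.span Y := by
    rintro _ ⟨A, rfl⟩
    exact ⟨_, himg A, rfl⟩
  have hadd : ∀ (A : Set (Fin n)) (j : Fin n), I ⊔ Ideal.span (ℓ '' A) ⊔ Ideal.span {ℓ j} =
      I ⊔ Ideal.span (ℓ '' (insert j A)) := by
    intro A j
    rw [Set.image_insert_eq, Ideal.span_insert, sup_comm (Ideal.span {ℓ j}), sup_assoc]
  have hnot : ∀ (A : Set (Fin n)) (j : Fin n), ℓ j ∉ I ⊔ Ideal.span (ℓ '' A) → j ∉ A :=
    fun A j hj hjA => hj (Ideal.mem_sup_right (Ideal.subset_span ⟨j, hjA, rfl⟩))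
  refine ⟨FF, ⟨⟨∅, by simp⟩, hlin, ?_⟩⟩
  rintro _ ⟨A, rfl⟩ hne
  obtain ⟨j, hj⟩ := exists_lin_not_mem hne.symm (le_vars_of h2 ⟨_, himg A, rfl⟩) ℓ hspan
  obtain ⟨B, hB⟩ := hcol A j (hnot A j hj)
  refine ⟨ℓ j, hℓ j, hj, ⟨insert j A, (hadd A j).symm⟩, ?_⟩
  refine chain_up (FF := FF) (Q := FF) hI hlin ?_ _ _ ⟨A, rfl⟩ (le_colon _ _) le_rfl
  rintro _ ⟨A', rfl⟩ hle hneq
  obtain ⟨b, hbB, hb⟩ : ∃ b ∈ B, ℓ b ∉ I ⊔ Ideal.span (ℓ '' A') := by
    by_contra hcon
    push Not at hcon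
    refine hneq (le_antisymm hle ?_)
    show Submodule.colon (I ⊔ Ideal.span (ℓ '' A)) {ℓ j} ≤ _
    rw [hB]
    refine sup_le le_sup_left (Ideal.span_le.mpr ?_)
    rintro _ ⟨b, hb, rfl⟩
    exact hcon b hb
  refine ⟨ℓ b, hℓ b, ?_, hb, ⟨insert b A', (hadd A' b).symm⟩, ?_⟩
  · show ℓ b ∈ Submodule.colon (I ⊔ Ideal.span (ℓ '' A)) {ℓ j}
    rw [hB]
    exact Ideal.mem_sup_right (Ideal.subset_span ⟨b, hbB, rfl⟩)
  · obtain ⟨B', hB'⟩ := hcol A' b (hnot A' b hb)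
    exact ⟨B', hB'.symm⟩

theorem IsUniversallyKoszul.colonFamily (hI : Hg I) (h2 : I ≤ idealOfVars (Fin n) K ^ 2)
    (h : IsUniversallyKoszul I) : ∃ FF, IsColonFamily I FF := by
  let FF : Set (Ideal (MvPolynomial (Fin n) K)) :=
    {F | ∃ Y ⊆ (homogeneousSubmodule (Fin n) K 1 : Set (MvPolynomial (Fin n) K)),
      F = I ⊔ Ideal.span Y}
  have hlin : ∀ F ∈ FF, ∃ Y ⊆ (homogeneousSubmodule (Fin n) K 1 : Set (MvPolynomial (Fin n) K)),
      F = I ⊔ Ideal.span Y := fun F hF => hF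
  have hadd : ∀ F ∈ FF, ∀ y ∈ homogeneousSubmodule (Fin n) K 1, F ⊔ Ideal.span {y} ∈ FF := by
    rintro _ ⟨Y, hY, rfl⟩ y hy
    refine ⟨insert y Y, Set.insert_subset hy hY, ?_⟩
    rw [Ideal.span_insert, sup_comm (Ideal.span {y}), sup_assoc]
  have hcol : ∀ F ∈ FF, ∀ y ∈ homogeneousSubmodule (Fin n) K 1, y ∉ F → F.colon {y} ∈ FF := by
    rintro _ ⟨Y, hY, rfl⟩ y hy hyF
    exact h Y hY y hy hyF
  refine ⟨FF, ⟨⟨∅, Set.empty_subset _, by simp⟩, hlin, ?_⟩⟩
  intro F hF hne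
  obtain ⟨j, hj⟩ := exists_lin_not_mem hne.symm (le_vars_of h2 hF) X
    homogeneousSubmodule_one_eq_span_X.symm
  have hX : (X j : MvPolynomial (Fin n) K) ∈ homogeneousSubmodule (Fin n) K 1 :=
    isHomogeneous_X K j
  refine ⟨X j, hX, hj, hadd F hF _ hX, ?_⟩
  refine chain_up (FF := FF) (Q := FF) hI hlin ?_ _ _ hF (le_colon _ _) le_rfl
  intro H hH hle hneq
  have hC := hcol F hF _ hX hj
  obtain ⟨y, hy, hyH⟩ : ∃ y ∈ lin (F.colon {X j}), y ∉ H := by
    by_contra hcon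
    push Not at hcon
    refine hneq (le_antisymm hle ?_)
    obtain ⟨Y, -, hHY⟩ := hH
    refine le_of_lin_le (by rw [hHY]; exact le_sup_left) hC ?_
    intro y hy
    exact mem_lin.mpr ⟨hcon y hy, (mem_lin.mp hy).2⟩
  obtain ⟨hyC, hy1⟩ := mem_lin.mp hy
  exact ⟨y, hy1, hyC, hyH, hadd H hH y hy1, hcol H hH y hy1 hyH⟩

end Pool.Agent.H98.KF
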