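import Mathlib

/-!
# Families of ideals generated by linear forms

`S = K[x_1, …, x_n]`, `I` is an ideal, `R = S/I`. All ideals of the families below contain `I`; they
stand for the ideals `F/I` of `R` that are generated by linear forms.
-/

open MvPolynomial

namespace Pool.Agent.H98.KF

variable {K : Type*} [Field K] {n : ℕ}

/-- `FF` is a family of ideals of the form `I + (linear forms)`, it contains `I`, and for each
`F ∈ FF` other than the maximal ideal `(x_1, …, x_n)` there is a linear form `x ∉ F` such that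
`F + (x) ∈ FF` and such that `F : x` is reached from `F` by adding linear forms `y` one by one, in
such a way that each of the colon ideals `H : y` (`H` the ideal before `y` is added) is in `FF`. -/
structure IsColonFamily (I : Ideal (MvPolynomial (Fin n) K))
    (FF : Set (Ideal (MvPolynomial (Fin n) K))) : Prop where
  mem : I ∈ FF
  lin : ∀ F ∈ FF, ∃ Y ⊆ (homogeneousSubmodule (Fin n) K 1 : Set (MvPolynomial (Fin n) K)),
    F = I ⊔ Ideal.span Y
  step : ∀ F ∈ FF, F ≠ idealOfVars (Fin n) K → ∃ x ∈ homogeneousSubmodule (Fin n) K 1, x ∉ F ∧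
    F ⊔ Ideal.span {x} ∈ FF ∧ ∃ (r : ℕ) (H : ℕ → Ideal (MvPolynomial (Fin n) K)),
      H 0 = F ∧ H r = F.colon {x} ∧ ∀ k < r, ∃ y ∈ homogeneousSubmodule (Fin n) K 1,
        H (k + 1) = H k ⊔ Ideal.span {y} ∧ (H k).colon {y} ∈ FF

/-- `FF` is a Koszul filtration of `R = S/I` (Conca, Trung, Valla) which restricts to a Koszul
filtration of `S/F` for all its members `F`: every member is of the form `I + (linear forms)`,
`I` and `(x_1, …, x_n)` are members, and for all members `F < G` there is a member `G'` with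
`F ≤ G' < G`, `G = G' + (y)` for a linear form `y`, such that `G' : y` is a member.
(For a Koszul filtration the last condition is only demanded for `F = I`.) -/
structure IsHereditaryFiltration (I : Ideal (MvPolynomial (Fin n) K))
    (FF : Set (Ideal (MvPolynomial (Fin n) K))) : Prop where
  mem : I ∈ FF
  top : idealOfVars (Fin n) K ∈ FF
  lin : ∀ F ∈ FF, ∃ Y ⊆ (homogeneousSubmodule (Fin n) K 1 : Set (MvPolynomial (Fin n) K)),
    F = I ⊔ Ideal.span Y
  step : ∀ F ∈ FF, ∀ G ∈ FF, F < G → ∃ G' ∈ FF, F ≤ G' ∧ G' < G ∧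
    ∃ y ∈ homogeneousSubmodule (Fin n) K 1, G = G' ⊔ Ideal.span {y} ∧ G'.colon {y} ∈ FF

/-- `R = S/I` is strongly Koszul (Herzog, Hibi, Restuccia): there is a basis `ℓ` of the space of
linear forms such that for every subset `A` of the basis and every `ℓ_j` not in `A` the ideal
`(I + (A)) : ℓ_j` is generated over `I` by a subset of the basis. -/
def IsStronglyKoszul (I : Ideal (MvPolynomial (Fin n) K)) : Prop :=
  ∃ ℓ : Fin n → MvPolynomial (Fin n) K, (∀ j, ℓ j ∈ homogeneousSubmodule (Fin n) K 1) ∧
    LinearIndependent K ℓ ∧ ∀ (A : Set (Fin n)) (j : Fin n), j ∉ A →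
      ∃ B : Set (Fin n), (I ⊔ Ideal.span (ℓ '' A)).colon {ℓ j} = I ⊔ Ideal.span (ℓ '' B)

/-- `R = S/I` is universally Koszul (Conca): for every ideal `J` of `R` generated by linear forms
and every linear form `x ∉ J` the ideal `J : x` is generated by linear forms. -/
def IsUniversallyKoszul (I : Ideal (MvPolynomial (Fin n) K)) : Prop :=
  ∀ Y ⊆ (homogeneousSubmodule (Fin n) K 1 : Set (MvPolynomial (Fin n) K)),
    ∀ x ∈ homogeneousSubmodule (Fin n) K 1, x ∉ I ⊔ Ideal.span Y →
      ∃ Z ⊆ (homogeneousSubmodule (Fin n) K 1 : Set (MvPolynomial (Fin n) K)),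
        (I ⊔ Ideal.span Y).colon {x} = I ⊔ Ideal.span Z

end Pool.Agent.H98.KF
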