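import Pool.Agent.H98.KfInd
import Pool.Agent.H98.KfDef

/-!
# The binomial bound for the Betti numbers
-/

open Finset BigOperators MvPolynomial
open scoped Cardinal

namespace Pool.Agent.H98.KF

open Pool.Agent.H17.Kz

universe u

variable {K : Type u} [Field K] {n : ℕ} {I : Ideal (MvPolynomial (Fin n) K)}
  {FF : Set (Ideal (MvPolynomial (Fin n) K))}

theorem vars_ne_top : idealOfVars (Fin n) K ≠ ⊤ := by
  intro h
  have h1 : (1 : MvPolynomial (Fin n) K) ∈ idealOfVars (Fin n) K ^ 1 := by
    rw [pow_one, h]; trivial
  have h2 := (mem_pow_idealOfVars_iff' 1 _).mp h1 0 (by simp)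
  rw [coeff_zero_one] at h2
  exact one_ne_zero h2

theorem mem_colon_one (F : Ideal (MvPolynomial (Fin n) K)) (x f : MvPolynomial (Fin n) K) :
    f ∈ F.colon {x} ↔ f * x ∈ F := by
  rw [Submodule.mem_colon_singleton, smul_eq_mul]

theorem IsColonFamily.fam (h : IsColonFamily I FF) (hI : Hg I) : Fam I FF where
  hI := hI
  proper F hF h1 := by
    have hne : F ≠ idealOfVars (Fin n) K := by
      intro h2
      apply vars_ne_top (K := K) (n := n)
      rw [← h2, Ideal.eq_top_iff_one]
      exact h1
    obtain ⟨x, _, hxF, _⟩ := h.step F hF hne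
    apply hxF
    rw [(Ideal.eq_top_iff_one F).mpr h1]
    trivial
  lin F hF := by
    obtain ⟨Y, hY, hFY⟩ := h.lin F hF
    exact ⟨Y, fun y hy => hY hy, hFY⟩
  step F hF hne := by
    obtain ⟨x, hx, hxF, hG, r, H, hH0, hHr, hstep⟩ := h.step F hF hne
    refine ⟨x, hx, hxF, hG, F.colon {x}, mem_colon_one F x, ?_⟩
    have hall : ∀ k ≤ r, Reach FF F (H k) := by
      intro k
      induction k with
      | zero => intro _; rw [hH0]; exact Reach.refl
      | succ k ih =>
        intro hk
        obtain ⟨y, hy, hHk, hcol⟩ := hstep k (by omega)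
        rw [hHk]
        exact Reach.step (H k) _ y (ih (by omega)) hy hcol (mem_colon_one _ _)
    rw [← hHr]
    exact hall r le_rfl

theorem X_hs (l : Fin n) : (X l : MvPolynomial (Fin n) K) ∈ homogeneousSubmodule (Fin n) K 1 := by
  rw [homogeneousSubmodule_one_eq_span_X]
  exact Submodule.subset_span ⟨l, rfl⟩

/-- The Betti numbers are bounded by the number of quadrics. -/
theorem hdim_le (h : IsColonFamily I FF) (hI : Hg I) (h2 : I ≤ idealOfVars (Fin n) K ^ 2) (i : ℕ) :
    hdim K (X : Fin n → MvPolynomial (Fin n) K) (MvPolynomial (Fin n) K ⧸ I) i ≤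
      (Module.finrank K (quad I)).choose i := by
  have hBd := bd_of_fam (h.fam hI) h.mem
  have hlin : lin I = ⊥ := by
    rw [eq_bot_iff]
    intro f hf
    have hf2 := (mem_pow_idealOfVars_iff' 2 _).mp (h2 hf.1)
    have hf1 : f.IsHomogeneous 1 := hf.2
    rw [Submodule.mem_bot]
    ext d
    rw [coeff_zero]
    by_contra hne
    have hd : d.degree = 1 := by
      have := hf1 hne
      rw [Finsupp.degree_eq_weight_one]
      exact this
    exact hne (hf2 d (by omega))
  have hdl : dl I = 0 := by
    unfold dl
    rw [hlin, finrank_bot]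
  have hs : Spn (X : Fin n → MvPolynomial (Fin n) K) I := by
    unfold Spn
    rw [homogeneousSubmodule_one_eq_span_X]
    exact le_sup_left
  have h1 := hBd n X X_hs hs (by omega) i
  have h3 := hdim_le_of_hrk_le X i _ h1
  refine h3.trans ?_
  apply Nat.choose_le_choose
  unfold gq
  exact Nat.sub_le _ _

/-- The number of quadrics is at most the number of generators. -/
theorem finrank_quad_le (h2 : I ≤ idealOfVars (Fin n) K ^ 2) (m : ℕ)
    (g : Fin m → MvPolynomial (Fin n) K) (hg : ∀ j, g j ∈ I)
    (hgen : ∀ f ∈ I, ∃ w : Fin m → MvPolynomial (Fin n) K, f = ∑ j, g j * w j) :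
    Module.finrank K (quad I) ≤ m := by
  have hle : quad I ≤ Submodule.span K (Set.range (fun j => homogeneousComponent 2 (g j))) := by
    intro f hf
    obtain ⟨w, hw⟩ := hgen f hf.1
    have h1 : f = homogeneousComponent 2 f := by
      have := homogeneousComponent_of_mem (n := 2) (m := 2) hf.2
      rw [this, if_pos rfl]
    have h3 : ∀ j, homogeneousComponent 2 (g j * w j) =
        coeff 0 (w j) • homogeneousComponent 2 (g j) := by
      intro j
      have hgj := (mem_pow_idealOfVars_iff' 2 _).mp (h2 (hg j))
      ext d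
      rw [coeff_smul, coeff_homogeneousComponent, coeff_homogeneousComponent, smul_eq_mul]
      by_cases hd : d.degree = 2
      · rw [if_pos hd, if_pos hd, coeff_mul, Finset.sum_eq_single (d, 0)]
        · rw [mul_comm]
        · rintro ⟨a, b⟩ hab hne
          rw [Finset.HasAntidiagonal.mem_antidiagonal] at hab
          by_cases ha : a.degree < 2
          · rw [hgj a ha, zero_mul]
          · exfalso
            have h5 : a.degree + b.degree = 2 := by
              rw [← hd, ← hab, map_add]
            have hb : b = 0 := (Finsupp.degree_eq_zero_iff b).mp (by omega)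
            subst hb
            apply hne
            have hab2 : a = d := by simpa using hab
            rw [hab2]
        · intro hcon
          exfalso
          apply hcon
          rw [Finset.HasAntidiagonal.mem_antidiagonal, add_zero]
      · rw [if_neg hd, if_neg hd, mul_zero]
    rw [h1, hw, map_sum]
    exact Submodule.sum_mem _ (fun j _ => by
      rw [h3]
      exact Submodule.smul_mem _ _ (Submodule.subset_span ⟨j, rfl⟩))
  have hfin : FiniteDimensional K
      (Submodule.span K (Set.range (fun j => homogeneousComponent 2 (g j)))) :=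
    FiniteDimensional.span_of_finite K (Set.finite_range _)
  refine (Submodule.finrank_mono hle).trans ?_
  exact (finrank_range_le_card _).trans (by rw [Fintype.card_fin])

/-- **The binomial bound.** -/
theorem main (h : IsColonFamily I FF) (hI : Hg I) (h2 : I ≤ idealOfVars (Fin n) K ^ 2)
    (r : ℕ → ℕ) (F : ∀ k, Matrix (Fin (r k)) (Fin (r (k + 1))) (MvPolynomial (Fin n) K))
    (hF : IsRes (MvPolynomial (Fin n) K) I (idealOfVars (Fin n) K : Set (MvPolynomial (Fin n) K))
      r F) (i : ℕ) : r i ≤ (r 1).choose i := by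
  have hpos : 0 < r 0 := by rw [hF.rank_zero]; exact Nat.one_pos
  let j0 : Fin (r 0) := ⟨0, hpos⟩
  have hj0 : ∀ j : Fin (r 0), j = j0 := by
    intro j
    have h1 := j.2
    have h3 := hF.rank_zero
    apply Fin.ext
    show (j : ℕ) = 0
    omega
  have hq : Module.finrank K (quad I) ≤ r 1 := by
    refine finrank_quad_le h2 (r 1) (fun j => F 0 j0 j) ?_ ?_
    · intro j
      have h1 := (hF.range_zero ((F 0).mulVec (Pi.single j 1))).mp ⟨_, rfl⟩ j0
      simpa [Matrix.mulVec, dotProduct, Pi.single_apply] using h1
    · intro f hf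
      obtain ⟨w, hw⟩ := (hF.range_zero (fun _ => f)).mpr (fun _ => hf)
      refine ⟨w, ?_⟩
      have := congrFun hw j0
      rw [← this]
      rfl
  rw [← hdim_min I r F hF i]
  exact (hdim_le h hI h2 i).trans (Nat.choose_le_choose i hq)

end Pool.Agent.H98.KF
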