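import Pool.Agent.H98.KfMain

/-!
# The bound for all members of the family
-/

open Finset BigOperators MvPolynomial
open scoped Cardinal

namespace Pool.Agent.H98.KF

open Pool.Agent.H17.Kz

universe u

variable {K : Type u} [Field K] {n : ℕ}

theorem hockey (g r j : ℕ) : (g.choose (j + 1)) + ∑ k ∈ Finset.range r, (g + k).choose j =
    (g + r).choose (j + 1) := by
  induction r with
  | zero => simp
  | succ r ih =>
    rw [Finset.sum_range_succ, ← add_assoc, ih, ← add_assoc, Nat.choose_succ_succ, add_comm]

theorem hs_one_le_vars (f : MvPolynomial (Fin n) K) (hf : f ∈ homogeneousSubmodule (Fin n) K 1) :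
    f ∈ idealOfVars (Fin n) K := by
  rw [homogeneousSubmodule_one_eq_span_X] at hf
  induction hf using Submodule.span_induction with
  | mem x hx =>
    obtain ⟨l, rfl⟩ := hx
    exact X_mem l
  | zero => exact Ideal.zero_mem _
  | add x y _ _ hx hy => exact Ideal.add_mem _ hx hy
  | smul a x _ hx =>
    rw [MvPolynomial.smul_eq_C_mul]
    exact Ideal.mul_mem_left _ _ hx

/-- base of the induction -/
theorem Bd_vars : Bd (idealOfVars (Fin n) K) := by
  intro m ξ _ _ hm i
  have hd : dl (idealOfVars (Fin n) K) = n := by
    have h1 : lin (idealOfVars (Fin n) K) = homogeneousSubmodule (Fin n) K 1 := by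
      apply le_antisymm (lin_le_hs _)
      intro f hf
      exact ⟨hs_one_le_vars f hf, hf⟩
    unfold dl
    rw [h1, finrank_hs_one]
  have hm0 : m = 0 := by omega
  subst hm0
  cases i with
  | zero =>
    rw [Nat.choose_zero_right, Nat.cast_one]
    have h1 : rk (⊤ : Submodule K K) (⊥ : Submodule K K) ≤ 1 :=
      (rank_quotient_le _).trans (by rw [rank_top]; exact (CommSemiring.rank_self K).le)
    let e : K →ₗ[K] KC K 0 (MvPolynomial (Fin n) K ⧸ idealOfVars (Fin n) K) 0 :=
      LinearMap.toSpanSingleton K _
        (AlternatingMap.constOfIsEmpty K (Fin 0 → K) (Fin 0)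
          (Submodule.Quotient.mk (1 : MvPolynomial (Fin n) K)))
    refine le_trans (rk_le_surj e ⊤ ⊥ _ _ (fun _ _ => trivial) ?_ ?_) h1
    · intro z _ hz
      rw [(Submodule.mem_bot K).mp hz, map_zero]
      exact Submodule.zero_mem _
    · intro z _
      obtain ⟨f, hf⟩ := Submodule.mkQ_surjective _ (z ![])
      refine ⟨coeff 0 f, trivial, ?_⟩
      have h2 : z - e (coeff 0 f) = 0 := by
        ext v
        have hv : v = ![] := Subsingleton.elim _ _
        subst hv
        rw [AlternatingMap.sub_apply, AlternatingMap.zero_apply, ← hf, sub_eq_zero]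
        have h3 : e (coeff 0 f) ![] =
            coeff 0 f • (Submodule.Quotient.mk (1 : MvPolynomial (Fin n) K) :
              MvPolynomial (Fin n) K ⧸ idealOfVars (Fin n) K) := rfl
        rw [h3, ← Submodule.Quotient.mk_smul, Submodule.mkQ_apply, Submodule.Quotient.eq]
        have h4 : f - coeff 0 f • 1 ∈ idealOfVars (Fin n) K ^ 1 := by
          rw [mem_pow_idealOfVars_iff']
          intro d hd
          have hd0 : d = 0 := by
            exact (Finsupp.degree_eq_zero_iff d).mp (by omega)
          subst hd0
          rw [coeff_sub, coeff_smul, coeff_zero_one, smul_eq_mul, mul_one, sub_self]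
        rw [pow_one] at h4
        exact h4
      rw [h2]
      exact Submodule.zero_mem _
  | succ i =>
    have : Subsingleton (KC K 0 (MvPolynomial (Fin n) K ⧸ idealOfVars (Fin n) K) (i + 1)) := by
      refine ⟨fun a b => ?_⟩
      ext v
      have hv : v 0 = 0 := Subsingleton.elim _ _
      rw [a.map_coord_zero 0 hv, b.map_coord_zero 0 hv]
    have h0 : hrk K ξ (MvPolynomial (Fin n) K ⧸ idealOfVars (Fin n) K) (i + 1) = 0 :=
      rk_subsingleton _ _
    rw [h0]
    exact zero_le

variable {I : Ideal (MvPolynomial (Fin n) K)} {FF : Set (Ideal (MvPolynomial (Fin n) K))}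

theorem dl_le (F : Ideal (MvPolynomial (Fin n) K)) : dl F ≤ n := by
  have h := Submodule.finrank_mono (lin_le_hs F)
  rw [finrank_hs_one] at h
  exact h

theorem bd_all (hFF : Fam I FF) : ∀ D : ℕ, ∀ F ∈ FF, n ≤ dl F + D → Bd F := by
  classical
  intro D
  induction D with
  | zero =>
    intro F hF hn
    by_cases hFm : F = idealOfVars (Fin n) K
    · rw [hFm]; exact Bd_vars
    · obtain ⟨x, hx, hxF, _, _⟩ := hFF.step F hF hFm
      exfalso
      apply hxF
      have h1 : lin F = homogeneousSubmodule (Fin n) K 1 := by
        apply Submodule.eq_of_le_of_finrank_le (lin_le_hs F)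
        rw [finrank_hs_one]
        exact hn
      exact mem_of_lin F x (by rw [h1]; exact hx)
  | succ D ih =>
    intro F hF hn
    by_cases hFm : F = idealOfVars (Fin n) K
    · rw [hFm]; exact Bd_vars
    · obtain ⟨x, hx, hxF, hG, C, hC, hR⟩ := hFF.step F hF hFm
      have hgF : Hg F := hFF.hg hF
      have hdG := dl_succ hgF x hx hxF
      have hBd : ∀ F' ∈ FF, F ⊔ Ideal.span {x} ≤ F' → Bd F' := by
        intro F' hF' hle
        have := Submodule.finrank_mono (lin_mono hle)
        apply ih F' hF'
        unfold dl at *
        omega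
      intro m ξ hξ hs hm i
      obtain ⟨m', η, rfl, hη, hsη, hle⟩ := exists_list ξ hξ F hs x hx hxF
      refine (hle i).trans ?_
      cases i with
      | zero =>
        refine (hrk_step_zero η x).trans ?_
        refine (hBd _ hG le_rfl m' η hη hsη (by omega) 0).trans ?_
        simp
      | succ j =>
        refine (hrk_step_succ η x hC j).trans ?_
        have h1 := chain hFF hF x hx hG hC hBd m' η hη hsη (by omega) j C hR le_rfl
        have h2 := hBd _ hG le_rfl m' η hη hsη (by omega) (j + 1)
        refine (add_le_add h1 h2).trans ?_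
        have hca := count_a hgF x hx hxF hC
        have hFC : F ≤ C := by
          intro f hf
          rw [hC]
          exact Ideal.mul_mem_right _ _ hf
        have hdFC : dl F ≤ dl C := Submodule.finrank_mono (lin_mono hFC)
        have hgC : Hg C := by
          obtain ⟨Y, hY, hCY⟩ := hR.exists_span
          rw [hCY]; exact Hg_sup hgF hY
        have hsum : (∑ k ∈ Finset.range (dl (C ⊔ Ideal.span {x}) - dl (F ⊔ Ideal.span {x})),
            (gq (F ⊔ Ideal.span {x}) + k).choose j) +
            (if x ∈ C then
              (gq (F ⊔ Ideal.span {x}) + (dl C - dl (F ⊔ Ideal.span {x}))).choose j else 0) =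
            ∑ k ∈ Finset.range (dl C - dl F), (gq (F ⊔ Ideal.span {x}) + k).choose j := by
          by_cases hxC : x ∈ C
          · rw [if_pos hxC]
            have h3 : C ⊔ Ideal.span {x} = C := by
              apply sup_eq_left.mpr
              rw [Ideal.span_le]
              intro z hz
              rw [Set.mem_singleton_iff.mp hz]; exact hxC
            have h4 : F ⊔ Ideal.span {x} ≤ C := by
              rw [← h3]
              exact sup_le_sup_right hFC _
            have h5 : dl (F ⊔ Ideal.span {x}) ≤ dl C := Submodule.finrank_mono (lin_mono h4)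
            rw [h3]
            have h6 : dl C - dl F = (dl C - dl (F ⊔ Ideal.span {x})) + 1 := by omega
            rw [h6, Finset.sum_range_succ]
          · rw [if_neg hxC, add_zero]
            have h3 := dl_succ hgC x hx hxC
            rw [h3, hdG]
            congr 2
            omega
        have hfin : (∑ k ∈ Finset.range (dl C - dl F), (gq (F ⊔ Ideal.span {x}) + k).choose j) +
            (gq (F ⊔ Ideal.span {x})).choose (j + 1) ≤ (gq F).choose (j + 1) := by
          rw [add_comm, hockey]
          apply Nat.choose_le_choose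
          omega
        rw [← hsum] at hfin
        exact_mod_cast hfin

theorem bd_of_fam (hFF : Fam I FF) {F : Ideal (MvPolynomial (Fin n) K)} (hF : F ∈ FF) : Bd F :=
  bd_all hFF n F hF (Nat.le_add_left _ _)

end Pool.Agent.H98.KF
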