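import Pool.Agent.H98.KfQM
import Pool.Agent.H98.KfDeg

/-!
# Lists of linear forms
-/

open Finset BigOperators MvPolynomial
open scoped Cardinal

namespace Pool.Agent.H98.KF

open Pool.Agent.H17.Kz

universe u

variable {K : Type u} [Field K] {n : ℕ}

/-- the linear forms `ξ` together with `F` span all linear forms -/
def Spn {m : ℕ} (ξ : Fin m → MvPolynomial (Fin n) K) (F : Ideal (MvPolynomial (Fin n) K)) : Prop :=
  homogeneousSubmodule (Fin n) K 1 ≤ Submodule.span K (Set.range ξ) ⊔ lin F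

/-- the bound for the Betti numbers of `S/F` over `S/(F_1)` -/
def Bd (F : Ideal (MvPolynomial (Fin n) K)) : Prop :=
  ∀ (m : ℕ) (ξ : Fin m → MvPolynomial (Fin n) K),
    (∀ j, ξ j ∈ homogeneousSubmodule (Fin n) K 1) → Spn ξ F → m + dl F = n →
    ∀ i, hrk K ξ (MvPolynomial (Fin n) K ⧸ F) i ≤ ((gq F).choose i : Cardinal)

theorem finrank_hs_one : Module.finrank K (homogeneousSubmodule (Fin n) K 1) = n := by
  rw [homogeneousSubmodule_one_eq_span_X]
  have h := finrank_span_eq_card (R := K) (b := (X : Fin n → MvPolynomial (Fin n) K))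
    (linearIndependent_X (Fin n) K)
  rw [h, Fintype.card_fin]

theorem lin_le_hs (F : Ideal (MvPolynomial (Fin n) K)) : lin F ≤ homogeneousSubmodule (Fin n) K 1 :=
  inf_le_right

theorem mem_of_lin (F : Ideal (MvPolynomial (Fin n) K)) (x : MvPolynomial (Fin n) K)
    (hx : x ∈ lin F) : x ∈ F := hx.1

theorem Spn.mono {m : ℕ} {ξ : Fin m → MvPolynomial (Fin n) K}
    {F G : Ideal (MvPolynomial (Fin n) K)} (h : Spn ξ F) (hFG : F ≤ G) : Spn ξ G :=
  h.trans (sup_le_sup_left (lin_mono hFG) _)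

theorem spn_remove {m : ℕ} (ξ : Fin (m + 1) → MvPolynomial (Fin n) K)
    (W : Submodule K (MvPolynomial (Fin n) K)) (a : Fin (m + 1) → K) (j0 : Fin (m + 1))
    (ha : a j0 ≠ 0) (h : ∑ j, a j • ξ j ∈ W) :
    Submodule.span K (Set.range ξ) ⊔ W ≤
      Submodule.span K (Set.range (fun k => ξ (j0.succAbove k))) ⊔ W := by
  refine sup_le ?_ le_sup_right
  rw [Submodule.span_le]
  rintro _ ⟨j, rfl⟩
  show ξ j ∈ _
  rcases Fin.eq_self_or_eq_succAbove j0 j with h1 | ⟨k, h1⟩
  · rw [h1]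
    rw [Fin.sum_univ_succAbove _ j0] at h
    have h2 : ξ j0 = (a j0)⁻¹ • ((a j0 • ξ j0 + ∑ k, a (j0.succAbove k) • ξ (j0.succAbove k)) -
        ∑ k, a (j0.succAbove k) • ξ (j0.succAbove k)) := by
      rw [add_sub_cancel_right, smul_smul, inv_mul_cancel₀ ha, one_smul]
    rw [h2]
    apply Submodule.smul_mem
    apply Submodule.sub_mem
    · exact Submodule.mem_sup_right h
    · apply Submodule.mem_sup_left
      exact Submodule.sum_mem _ (fun k _ => Submodule.smul_mem _ _ (Submodule.subset_span ⟨k, rfl⟩))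
  · rw [h1]
    exact Submodule.mem_sup_left (Submodule.subset_span ⟨k, rfl⟩)

/-- a nontrivial relation exists if there are too many linear forms -/
theorem exists_rel {m : ℕ} (ξ : Fin m → MvPolynomial (Fin n) K)
    (hξ : ∀ j, ξ j ∈ homogeneousSubmodule (Fin n) K 1) (F : Ideal (MvPolynomial (Fin n) K))
    (h : n < m + dl F) : ∃ a : Fin m → K, (∃ j, a j ≠ 0) ∧ ∑ j, a j • ξ j ∈ lin F := by
  let φ : ((Fin m → K) × lin F) →ₗ[K] homogeneousSubmodule (Fin n) K 1 :=
    LinearMap.codRestrict _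
      (LinearMap.coprod (Fintype.linearCombination K ξ) (lin F).subtype) (by
        rintro ⟨a, l⟩
        rw [LinearMap.coprod_apply]
        apply Submodule.add_mem
        · rw [Fintype.linearCombination_apply]
          exact Submodule.sum_mem _ (fun j _ => Submodule.smul_mem _ _ (hξ j))
        · exact lin_le_hs F l.2)
  have hlt : Module.finrank K (homogeneousSubmodule (Fin n) K 1) <
      Module.finrank K ((Fin m → K) × lin F) := by
    rw [finrank_hs_one, Module.finrank_prod, Module.finrank_fin_fun]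
    exact h
  have hne : LinearMap.ker φ ≠ ⊥ := by
    intro hbot
    have := LinearMap.finrank_le_finrank_of_injective (LinearMap.ker_eq_bot.mp hbot)
    omega
  obtain ⟨⟨a, l⟩, hal, hne2⟩ := (Submodule.ne_bot_iff _).mp hne
  have h1 : ∑ j, a j • ξ j + (l : MvPolynomial (Fin n) K) = 0 := by
    have := congrArg Subtype.val (LinearMap.mem_ker.mp hal)
    simpa [φ, Fintype.linearCombination_apply] using this
  refine ⟨a, ?_, ?_⟩
  · by_contra hcon
    push Not at hcon
    apply hne2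
    have ha : a = 0 := funext hcon
    subst ha
    simp only [Pi.zero_apply, zero_smul, Finset.sum_const_zero, zero_add] at h1
    have : l = 0 := Subtype.ext h1
    subst this
    rfl
  · rw [eq_neg_of_add_eq_zero_left h1]
    exact (lin F).neg_mem l.2

theorem Bd.ext {F : Ideal (MvPolynomial (Fin n) K)} (hF : Bd F) :
    ∀ (e m : ℕ) (ξ : Fin m → MvPolynomial (Fin n) K),
    (∀ j, ξ j ∈ homogeneousSubmodule (Fin n) K 1) → Spn ξ F → m + dl F = n + e →
    ∀ i, hrk K ξ (MvPolynomial (Fin n) K ⧸ F) i ≤ ((gq F + e).choose i : Cardinal) := by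
  intro e
  induction e with
  | zero =>
    intro m ξ hξ hs hm i
    exact hF m ξ hξ hs hm i
  | succ e ih =>
    intro m ξ hξ hs hm i
    obtain ⟨a, ⟨j0, ha⟩, hrel⟩ := exists_rel ξ hξ F (by omega)
    obtain ⟨m, rfl⟩ : ∃ m', m = m' + 1 := ⟨m - 1, by have := j0.2; omega⟩
    set x := ∑ j, a j • ξ j with hx
    have hx0 : ∀ u : MvPolynomial (Fin n) K ⧸ F, x • u = 0 := by
      intro u
      obtain ⟨f, rfl⟩ := Submodule.mkQ_surjective _ u
      rw [Submodule.mkQ_apply, ← Submodule.Quotient.mk_smul, Submodule.Quotient.mk_eq_zero]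
      exact Ideal.mul_mem_right _ _ (mem_of_lin F x hrel)
    refine (hrk_comb ξ a j0 ha x ?_ i).trans ?_
    · intro u
      rw [hx, Finset.sum_smul]
      exact Finset.sum_congr rfl (fun j _ => smul_assoc _ _ _)
    · exact hrk_cons_zero_act x hx0 _ (gq F + e)
        (ih m _ (fun j => hξ _) (hs.trans (spn_remove ξ (lin F) a j0 ha hrel)) (by omega)) i

/-- replace a list for `F` by a list for `F + (x)` -/
theorem exists_list {m : ℕ} (ξ : Fin m → MvPolynomial (Fin n) K)
    (hξ : ∀ j, ξ j ∈ homogeneousSubmodule (Fin n) K 1) (F : Ideal (MvPolynomial (Fin n) K))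
    (hs : Spn ξ F) (x : MvPolynomial (Fin n) K) (hx : x ∈ homogeneousSubmodule (Fin n) K 1)
    (hxF : x ∉ F) : ∃ (m' : ℕ) (η : Fin m' → MvPolynomial (Fin n) K), m = m' + 1 ∧
      (∀ j, η j ∈ homogeneousSubmodule (Fin n) K 1) ∧ Spn η (F ⊔ Ideal.span {x}) ∧
      ∀ i, hrk K ξ (MvPolynomial (Fin n) K ⧸ F) i ≤
        hrk K (Fin.cons x η : Fin (m' + 1) → MvPolynomial (Fin n) K)
          (MvPolynomial (Fin n) K ⧸ F) i := by
  obtain ⟨s, hs1, f, hf, hsf⟩ := Submodule.mem_sup.mp (hs hx)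
  rw [Submodule.mem_span_range_iff_exists_fun] at hs1
  obtain ⟨a, rfl⟩ := hs1
  have hne : ∃ j, a j ≠ 0 := by
    by_contra hcon
    push Not at hcon
    apply hxF
    rw [← hsf]
    simp only [hcon, zero_smul, Finset.sum_const_zero, zero_add]
    exact mem_of_lin F f hf
  obtain ⟨j0, ha⟩ := hne
  obtain ⟨m, rfl⟩ : ∃ m', m = m' + 1 := ⟨m - 1, by have := j0.2; omega⟩
  have hxG : x ∈ lin (F ⊔ Ideal.span {x}) :=
    ⟨Ideal.mem_sup_right (Ideal.mem_span_singleton_self x), hx⟩
  have hrel : ∑ j, a j • ξ j ∈ lin (F ⊔ Ideal.span {x}) := by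
    have h1 : ∑ j, a j • ξ j = x - f := by rw [← hsf]; ring
    rw [h1]
    exact (lin _).sub_mem hxG (lin_mono le_sup_left hf)
  refine ⟨m, fun k => ξ (j0.succAbove k), rfl, fun j => hξ _, ?_, ?_⟩
  · exact (hs.trans (sup_le_sup_left (lin_mono le_sup_left) _)).trans
      (spn_remove ξ _ a j0 ha hrel)
  · intro i
    apply hrk_comb ξ a j0 ha x
    intro u
    obtain ⟨g, rfl⟩ := Submodule.mkQ_surjective _ u
    have h1 : ∑ j, a j • ξ j • (Submodule.mkQ F g) = (∑ j, a j • ξ j) • (Submodule.mkQ F g) := by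
      rw [Finset.sum_smul]
      exact Finset.sum_congr rfl (fun j _ => (smul_assoc _ _ _).symm)
    rw [h1, ← sub_eq_zero, ← sub_smul, Submodule.mkQ_apply, ← Submodule.Quotient.mk_smul,
      Submodule.Quotient.mk_eq_zero]
    have h2 : x - ∑ j, a j • ξ j = f := by rw [← hsf]; ring
    rw [h2]
    exact Ideal.mul_mem_right _ _ (mem_of_lin F f hf)

end Pool.Agent.H98.KF
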