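import Pool.Agent.H98.KfList

/-!
# The induction
-/

open Finset BigOperators MvPolynomial
open scoped Cardinal

namespace Pool.Agent.H98.KF

open Pool.Agent.H17.Kz

universe u

variable {K : Type u} [Field K] {n : ℕ}

/-- ideals obtained from `F` by adding linear forms one by one, with all colon ideals in the
family -/
inductive Reach (FF : Set (Ideal (MvPolynomial (Fin n) K))) (F : Ideal (MvPolynomial (Fin n) K)) :
    Ideal (MvPolynomial (Fin n) K) → Prop
  | refl : Reach FF F F
  | step (H F' : Ideal (MvPolynomial (Fin n) K)) (y : MvPolynomial (Fin n) K) : Reach FF F H →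
      y ∈ homogeneousSubmodule (Fin n) K 1 → F' ∈ FF → (∀ f, f ∈ F' ↔ f * y ∈ H) →
      Reach FF F (H ⊔ Ideal.span {y})

theorem Reach.exists_span {FF : Set (Ideal (MvPolynomial (Fin n) K))}
    {F H : Ideal (MvPolynomial (Fin n) K)} (h : Reach FF F H) :
    ∃ Y : Set (MvPolynomial (Fin n) K), (∀ y ∈ Y, y ∈ homogeneousSubmodule (Fin n) K 1) ∧
      H = F ⊔ Ideal.span Y := by
  induction h with
  | refl => exact ⟨∅, by simp, by simp⟩
  | step H F' y _ hy _ _ ih =>
    obtain ⟨Y, hY, hH⟩ := ih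
    refine ⟨Y ∪ {y}, ?_, ?_⟩
    · rintro z (hz | hz)
      · exact hY z hz
      · rw [Set.mem_singleton_iff.mp hz]; exact hy
    · rw [hH, Ideal.span_union, sup_assoc]

/-- the family is closed enough -/
structure Fam (I : Ideal (MvPolynomial (Fin n) K)) (FF : Set (Ideal (MvPolynomial (Fin n) K))) :
    Prop where
  hI : Hg I
  proper : ∀ F ∈ FF, (1 : MvPolynomial (Fin n) K) ∉ F
  lin : ∀ F ∈ FF, ∃ Y : Set (MvPolynomial (Fin n) K),
    (∀ y ∈ Y, y ∈ homogeneousSubmodule (Fin n) K 1) ∧ F = I ⊔ Ideal.span Y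
  step : ∀ F ∈ FF, F ≠ idealOfVars (Fin n) K → ∃ x ∈ homogeneousSubmodule (Fin n) K 1, x ∉ F ∧
    F ⊔ Ideal.span {x} ∈ FF ∧ ∃ C, (∀ f, f ∈ C ↔ f * x ∈ F) ∧ Reach FF F C

variable {I : Ideal (MvPolynomial (Fin n) K)} {FF : Set (Ideal (MvPolynomial (Fin n) K))}

theorem Fam.hg (h : Fam I FF) {F : Ideal (MvPolynomial (Fin n) K)} (hF : F ∈ FF) : Hg F := by
  obtain ⟨Y, hY, rfl⟩ := h.lin F hF
  exact Hg_sup h.hI hY

theorem Fam.rel (h : Fam I FF) {F G : Ideal (MvPolynomial (Fin n) K)} (hF : F ∈ FF) (hG : G ∈ FF)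
    (hFG : F ≤ G) : ∃ Y : Set (MvPolynomial (Fin n) K),
      (∀ y ∈ Y, y ∈ homogeneousSubmodule (Fin n) K 1) ∧ G = F ⊔ Ideal.span Y := by
  obtain ⟨Y, hY, hG2⟩ := h.lin G hG
  obtain ⟨Z, hZ, hF2⟩ := h.lin F hF
  refine ⟨Y, hY, le_antisymm ?_ ?_⟩
  · rw [hG2]
    apply sup_le_sup_right
    rw [hF2]
    exact le_sup_left
  · apply sup_le hFG
    rw [hG2]
    exact le_sup_right

open Classical in
theorem chain (hFF : Fam I FF) {F C : Ideal (MvPolynomial (Fin n) K)}
    (hF : F ∈ FF) (x : MvPolynomial (Fin n) K) (hx : x ∈ homogeneousSubmodule (Fin n) K 1)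
    (hG : F ⊔ Ideal.span {x} ∈ FF) (hC : ∀ f, f ∈ C ↔ f * x ∈ F)
    (hBd : ∀ F' ∈ FF, F ⊔ Ideal.span {x} ≤ F' → Bd F')
    (m : ℕ) (ξ : Fin m → MvPolynomial (Fin n) K)
    (hξ : ∀ j, ξ j ∈ homogeneousSubmodule (Fin n) K 1) (hs : Spn ξ (F ⊔ Ideal.span {x}))
    (hm : m + dl (F ⊔ Ideal.span {x}) = n) (j : ℕ) (H : Ideal (MvPolynomial (Fin n) K))
    (hR : Reach FF F H) : H ≤ C → hrk K ξ (QM F H) j ≤
      ((∑ k ∈ Finset.range (dl (H ⊔ Ideal.span {x}) - dl (F ⊔ Ideal.span {x})),
        (gq (F ⊔ Ideal.span {x}) + k).choose j : ℕ) : Cardinal) +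
      (if x ∈ H then
        ((gq (F ⊔ Ideal.span {x}) + (dl C - dl (F ⊔ Ideal.span {x}))).choose j : ℕ) else 0 : ℕ) := by
  have hgF : Hg F := hFF.hg hF
  have hx1 : ∀ y ∈ ({x} : Set (MvPolynomial (Fin n) K)), y ∈ homogeneousSubmodule (Fin n) K 1 := by
    intro y hy
    rw [Set.mem_singleton_iff.mp hy]; exact hx
  induction hR with
  | refl =>
    intro _
    have : Subsingleton (QM F F) := by
      refine ⟨fun a b => ?_⟩
      obtain ⟨a, rfl⟩ := Submodule.mkQ_surjective _ a
      obtain ⟨b, rfl⟩ := Submodule.mkQ_surjective _ b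
      rw [Submodule.mkQ_apply, Submodule.mkQ_apply, Submodule.Quotient.eq]
      exact (a - b).2
    rw [hrk_subsingleton]
    exact zero_le
  | step H F' y hRH hy hF' hF'y ih =>
    intro hHC
    have hHC0 : H ≤ C := le_sup_left.trans hHC
    have hyC : y ∈ C := hHC (Ideal.mem_sup_right (Ideal.mem_span_singleton_self y))
    have hyx : y * x ∈ F := (hC y).mp hyC
    have hFH : F ≤ H := by
      obtain ⟨Y, _, hY⟩ := hRH.exists_span
      rw [hY]; exact le_sup_left
    have hyH : y ∉ H := by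
      intro h
      apply hFF.proper F' hF'
      rw [hF'y, one_mul]
      exact h
    have hxF' : x ∈ F' := by
      rw [hF'y, mul_comm]
      exact hFH hyx
    have hGF' : F ⊔ Ideal.span {x} ≤ F' := by
      apply sup_le
      · intro f hf
        rw [hF'y]
        exact Ideal.mul_mem_right _ _ (hFH hf)
      · rw [Ideal.span_le]
        intro z hz
        rw [Set.mem_singleton_iff.mp hz]; exact hxF'
    have hdG : dl (F ⊔ Ideal.span {x}) ≤ dl F' :=
      Submodule.finrank_mono (lin_mono hGF')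
    obtain ⟨Y, hY, hHY⟩ := hRH.exists_span
    obtain ⟨Y', hY', hF'2⟩ := hFF.rel hG hF' hGF'
    have hgH : Hg H := by rw [hHY]; exact Hg_sup hgF hY
    have hgHx : Hg (H ⊔ Ideal.span {x}) := Hg_sup hgH hx1
    have hGHx : F ⊔ Ideal.span {x} ≤ H ⊔ Ideal.span {x} := sup_le_sup_right hFH _
    have hdGH : dl (F ⊔ Ideal.span {x}) ≤ dl (H ⊔ Ideal.span {x}) :=
      Submodule.finrank_mono (lin_mono hGHx)
    have hb1 : hrk K ξ (QM H (H ⊔ Ideal.span {y})) j ≤
        ((gq F' + (dl F' - dl (F ⊔ Ideal.span {x}))).choose j : Cardinal) := by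
      refine (hrk_QM_cyclic ξ y hF'y j).trans ?_
      exact (hBd F' hF' hGF').ext _ m ξ hξ (hs.mono hGF') (by omega) j
    have hb2 := hrk_QM_add (K := K) ξ hFH (le_sup_left : H ≤ H ⊔ Ideal.span {y}) j
    have hb3 := (hb2.trans (add_le_add (ih hHC0) hb1))
    by_cases hcase : y ∈ H ⊔ Ideal.span {x}
    · -- case (c)
      have hyl : y ∈ lin (H ⊔ Ideal.span {x}) := ⟨hcase, hy⟩
      rw [lin_sup hgH hx1] at hyl
      obtain ⟨h, hh, z, hz, hhz⟩ := Submodule.mem_sup.mp hyl
      obtain ⟨c, rfl⟩ := Submodule.mem_span_singleton.mp hz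
      have hc : c ≠ 0 := by
        rintro rfl
        apply hyH
        rw [← hhz, zero_smul, add_zero]
        exact mem_of_lin H h hh
      have hxy : x = c⁻¹ • (y - h) := by
        rw [← hhz, add_sub_cancel_left, smul_smul, inv_mul_cancel₀ hc, one_smul]
      have hxH : x ∉ H := by
        intro hx2
        apply hyH
        rw [← hhz]
        refine H.add_mem (mem_of_lin H h hh) ?_
        rw [MvPolynomial.smul_eq_C_mul]
        exact Ideal.mul_mem_left _ _ hx2
      have hF'x : ∀ f, f ∈ F' ↔ f * x ∈ H := by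
        intro f
        rw [hF'y]
        constructor
        · intro hf
          rw [hxy, mul_smul_comm, MvPolynomial.smul_eq_C_mul]
          apply Ideal.mul_mem_left
          rw [mul_sub]
          exact H.sub_mem hf (Ideal.mul_mem_left _ _ (mem_of_lin H h hh))
        · intro hf
          rw [← hhz, mul_add, mul_smul_comm, MvPolynomial.smul_eq_C_mul]
          exact H.add_mem (Ideal.mul_mem_left _ _ (mem_of_lin H h hh)) (Ideal.mul_mem_left _ _ hf)
      have hcount := count_c hgF x hx hY hHY hC hHC0 hF'x hxH Y' hY' hF'2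
      have hsup : H ⊔ Ideal.span {y} ⊔ Ideal.span {x} = H ⊔ Ideal.span {x} := by
        apply le_antisymm
        · apply sup_le _ le_sup_right
          apply sup_le le_sup_left
          rw [Ideal.span_le]
          intro z hz
          rw [Set.mem_singleton_iff.mp hz]; exact hcase
        · exact sup_le_sup_right le_sup_left _
      have hxH' : x ∈ H ⊔ Ideal.span {y} := by
        rw [hxy, MvPolynomial.smul_eq_C_mul]
        apply Ideal.mul_mem_left
        exact Ideal.sub_mem _ (Ideal.mem_sup_right (Ideal.mem_span_singleton_self y))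
          (Ideal.mem_sup_left (mem_of_lin H h hh))
      rw [hsup, if_pos hxH']
      rw [if_neg hxH] at hb3
      refine hb3.trans ?_
      have hle : gq F' + (dl F' - dl (F ⊔ Ideal.span {x})) ≤
          gq (F ⊔ Ideal.span {x}) + (dl C - dl (F ⊔ Ideal.span {x})) := by
        omega
      have hch := Nat.choose_le_choose j hle
      rw [Nat.cast_zero, add_zero]
      exact add_le_add le_rfl (Nat.cast_le.mpr hch)
    · -- case (b)
      have hcount := count_b hgF x y hx hy hY hHY (by rw [mul_comm]; exact hyx) hF'y Y' hY' hF'2 hcase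
      have hsup : H ⊔ Ideal.span {y} ⊔ Ideal.span {x} = H ⊔ Ideal.span {x} ⊔ Ideal.span {y} :=
        sup_right_comm _ _ _
      have hdl := dl_succ hgHx y hy hcase
      have hxiff : x ∈ H ⊔ Ideal.span {y} ↔ x ∈ H := by
        constructor
        · intro hx2
          by_contra hxH
          have hy1 : ∀ z ∈ ({y} : Set (MvPolynomial (Fin n) K)),
              z ∈ homogeneousSubmodule (Fin n) K 1 := by
            intro z hz
            rw [Set.mem_singleton_iff.mp hz]; exact hy
          have hxl : x ∈ lin (H ⊔ Ideal.span {y}) := ⟨hx2, hx⟩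
          rw [lin_sup hgH hy1] at hxl
          obtain ⟨h, hh, z, hz, hhz⟩ := Submodule.mem_sup.mp hxl
          obtain ⟨c, rfl⟩ := Submodule.mem_span_singleton.mp hz
          have hc : c ≠ 0 := by
            rintro rfl
            apply hxH
            rw [← hhz, zero_smul, add_zero]
            exact mem_of_lin H h hh
          apply hcase
          have hyx2 : y = c⁻¹ • (x - h) := by
            rw [← hhz, add_sub_cancel_left, smul_smul, inv_mul_cancel₀ hc, one_smul]
          rw [hyx2, MvPolynomial.smul_eq_C_mul]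
          apply Ideal.mul_mem_left
          exact Ideal.sub_mem _ (Ideal.mem_sup_right (Ideal.mem_span_singleton_self x))
            (Ideal.mem_sup_left (mem_of_lin H h hh))
        · intro hx2
          exact Ideal.mem_sup_left hx2
      have hle : gq F' + (dl F' - dl (F ⊔ Ideal.span {x})) ≤
          gq (F ⊔ Ideal.span {x}) + (dl (H ⊔ Ideal.span {x}) - dl (F ⊔ Ideal.span {x})) := by
        omega
      have hch := Nat.choose_le_choose j hle
      have hd2 : dl (H ⊔ Ideal.span {x} ⊔ Ideal.span {y}) - dl (F ⊔ Ideal.span {x}) =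
          (dl (H ⊔ Ideal.span {x}) - dl (F ⊔ Ideal.span {x})) + 1 := by omega
      rw [hsup, hd2, Finset.sum_range_succ]
      simp only [hxiff]
      refine hb3.trans ?_
      have hch' : ((gq F' + (dl F' - dl (F ⊔ Ideal.span {x}))).choose j : Cardinal) ≤
          ((gq (F ⊔ Ideal.span {x}) +
            (dl (H ⊔ Ideal.span {x}) - dl (F ⊔ Ideal.span {x}))).choose j : ℕ) :=
        Nat.cast_le.mpr hch
      refine (add_le_add le_rfl hch').trans ?_
      push_cast
      rw [add_right_comm]

end Pool.Agent.H98.KF
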