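import Pool.Agent.H98.KfBase

/-!
# Quotients of ideals
-/

open Finset BigOperators
open scoped Cardinal

namespace Pool.Agent.H98.KF

open Pool.Agent.H17.Kz

universe u w

variable {K : Type u} [Field K] {m : ℕ} {S : Type w} [CommRing S] [Algebra K S]

/-- the module `B/A` (for ideals `A ≤ B`) -/
abbrev QM (A B : Ideal S) := ↥B ⧸ (Submodule.submoduleOf A B)

/-- `B/A → C/A` -/
def qIncl (A : Ideal S) {B C : Ideal S} (h : B ≤ C) : QM A B →ₗ[S] QM A C :=
  Submodule.mapQ _ _ (Submodule.inclusion h) (fun _ hx => hx)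

/-- `C/A → C/B` -/
def qProj (C : Ideal S) {A B : Ideal S} (h : A ≤ B) : QM A C →ₗ[S] QM B C :=
  Submodule.mapQ _ _ LinearMap.id (fun _ hx => h hx)

theorem hrk_QM_add (ξ : Fin m → S) {A B C : Ideal S} (hAB : A ≤ B) (hBC : B ≤ C) (i : ℕ) :
    hrk K ξ (QM A C) i ≤ hrk K ξ (QM A B) i + hrk K ξ (QM B C) i := by
  refine hrk_exact ξ (qIncl A hBC) (qProj C hAB) ?_ ?_ ?_ i
  · rw [← LinearMap.ker_eq_bot, LinearMap.ker_eq_bot']
    intro q hq
    obtain ⟨b, rfl⟩ := Submodule.mkQ_surjective _ q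
    rw [Submodule.mkQ_apply, qIncl, Submodule.mapQ_apply, Submodule.Quotient.mk_eq_zero] at hq
    rw [Submodule.mkQ_apply, Submodule.Quotient.mk_eq_zero]
    exact hq
  · intro q
    obtain ⟨b, rfl⟩ := Submodule.mkQ_surjective _ q
    exact ⟨Submodule.Quotient.mk b, rfl⟩
  · intro q
    obtain ⟨b, rfl⟩ := Submodule.mkQ_surjective _ q
    rw [Submodule.mkQ_apply, qProj, Submodule.mapQ_apply, Submodule.Quotient.mk_eq_zero]
    constructor
    · intro h
      exact ⟨Submodule.Quotient.mk ⟨b, h⟩, rfl⟩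
    · rintro ⟨a, ha⟩
      obtain ⟨a, rfl⟩ := Submodule.mkQ_surjective _ a
      rw [Submodule.mkQ_apply, qIncl, Submodule.mapQ_apply, Submodule.Quotient.eq] at ha
      have h1 : (a : S) - (b : S) ∈ A := ha
      have h2 : (b : S) = (a : S) - ((a : S) - (b : S)) := by ring
      show (b : S) ∈ B
      rw [h2]
      exact B.sub_mem a.2 (hAB h1)

/-- `(H + (y))/H` is a quotient of `S` -/
theorem hrk_QM_cyclic (ξ : Fin m → S) {H F' : Ideal S} (y : S) (hF' : ∀ f, f ∈ F' ↔ f * y ∈ H)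
    (i : ℕ) : hrk K ξ (QM H (H ⊔ Ideal.span {y})) i ≤ hrk K ξ (S ⧸ F') i := by
  have hy : y ∈ H ⊔ Ideal.span {y} := Ideal.mem_sup_right (Ideal.mem_span_singleton_self y)
  let ρ : S →ₗ[S] QM H (H ⊔ Ideal.span {y}) :=
    LinearMap.toSpanSingleton S _ (Submodule.Quotient.mk ⟨y, hy⟩)
  have hρ : ∀ s, ρ s = Submodule.Quotient.mk ⟨s * y, Ideal.mul_mem_left _ s hy⟩ := fun s => rfl
  have hker : LinearMap.ker ρ = F' := by
    ext s
    rw [LinearMap.mem_ker, hρ, Submodule.Quotient.mk_eq_zero, hF']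
    rfl
  have hsurj : Function.Surjective ρ := by
    intro q
    obtain ⟨⟨b, hb⟩, rfl⟩ := Submodule.mkQ_surjective _ q
    obtain ⟨h, hh, c, hc, rfl⟩ := Submodule.mem_sup.mp hb
    obtain ⟨s, rfl⟩ := Ideal.mem_span_singleton'.mp hc
    refine ⟨s, ?_⟩
    rw [hρ, Submodule.mkQ_apply, Submodule.Quotient.eq]
    show s * y - (h + s * y) ∈ H
    have h2 : s * y - (h + s * y) = -h := by ring
    rw [h2]
    exact H.neg_mem hh
  subst hker
  exact hrk_equiv ξ (LinearMap.quotKerEquivOfSurjective ρ hsurj) i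

/-- the quotient map `S/F → S/G` -/
def qFac {F G : Ideal S} (h : F ≤ G) : (S ⧸ F) →ₗ[S] (S ⧸ G) :=
  Submodule.mapQ F G LinearMap.id h

/-- `C/F → S/F` -/
def qSub (F C : Ideal S) : QM F C →ₗ[S] (S ⧸ F) :=
  Submodule.mapQ _ F (Submodule.subtype C) (fun _ hx => hx)

theorem qFac_ker {F : Ideal S} (x : S) (u : S ⧸ F) :
    qFac (le_sup_left : F ≤ F ⊔ Ideal.span {x}) u = 0 ↔ ∃ v, u = x • v := by
  obtain ⟨f, rfl⟩ := Submodule.mkQ_surjective _ u
  rw [Submodule.mkQ_apply, qFac, Submodule.mapQ_apply, Submodule.Quotient.mk_eq_zero]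
  constructor
  · intro h
    obtain ⟨g, hg, c, hc, hgc⟩ := Submodule.mem_sup.mp h
    obtain ⟨s, rfl⟩ := Ideal.mem_span_singleton'.mp hc
    refine ⟨Submodule.Quotient.mk s, ?_⟩
    rw [← Submodule.Quotient.mk_smul, Submodule.Quotient.eq]
    have h1 : f - x • s = g := by
      have : f = g + s * x := hgc.symm
      rw [this, smul_eq_mul]
      ring
    rw [h1]
    exact hg
  · rintro ⟨v, hv⟩
    obtain ⟨s, rfl⟩ := Submodule.mkQ_surjective _ v
    rw [Submodule.mkQ_apply, ← Submodule.Quotient.mk_smul, Submodule.Quotient.eq] at hv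
    have h1 : (LinearMap.id : S →ₗ[S] S) f = (f - x • s) + s * x := by
      rw [LinearMap.id_apply, smul_eq_mul]
      ring
    rw [h1]
    exact Submodule.add_mem_sup hv (Ideal.mem_span_singleton'.mpr ⟨s, rfl⟩)

theorem qFac_surj {F G : Ideal S} (h : F ≤ G) : Function.Surjective (qFac h) := by
  intro q
  obtain ⟨b, rfl⟩ := Submodule.mkQ_surjective _ q
  exact ⟨Submodule.Quotient.mk b, rfl⟩

theorem qSub_inj (F C : Ideal S) : Function.Injective (qSub F C) := by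
  rw [← LinearMap.ker_eq_bot, LinearMap.ker_eq_bot']
  intro q hq
  obtain ⟨b, rfl⟩ := Submodule.mkQ_surjective _ q
  rw [Submodule.mkQ_apply, qSub, Submodule.mapQ_apply, Submodule.Quotient.mk_eq_zero] at hq
  rw [Submodule.mkQ_apply, Submodule.Quotient.mk_eq_zero]
  exact hq

theorem qSub_range {F C : Ideal S} (x : S) (hC : ∀ f, f ∈ C ↔ f * x ∈ F) (u : S ⧸ F) :
    x • u = 0 ↔ ∃ c, qSub F C c = u := by
  obtain ⟨f, rfl⟩ := Submodule.mkQ_surjective _ u
  rw [Submodule.mkQ_apply, ← Submodule.Quotient.mk_smul, Submodule.Quotient.mk_eq_zero,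
    smul_eq_mul, mul_comm]
  constructor
  · intro h
    exact ⟨Submodule.Quotient.mk ⟨f, (hC f).mpr h⟩, rfl⟩
  · rintro ⟨c, hc⟩
    obtain ⟨⟨c, hcC⟩, rfl⟩ := Submodule.mkQ_surjective _ c
    rw [Submodule.mkQ_apply, qSub, Submodule.mapQ_apply, Submodule.Quotient.eq] at hc
    have h1 : f * x = c * x - (c - f) * x := by ring
    rw [h1]
    exact F.sub_mem ((hC c).mp hcC) (Ideal.mul_mem_right _ _ hc)

/-- the step `S/F → S/(F + (x))`, positive degrees -/
theorem hrk_step_succ (ξ : Fin m → S) {F C : Ideal S} (x : S) (hC : ∀ f, f ∈ C ↔ f * x ∈ F)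
    (i : ℕ) : hrk K (Fin.cons x ξ : Fin (m + 1) → S) (S ⧸ F) (i + 1) ≤
      hrk K ξ (QM F C) i + hrk K ξ (S ⧸ (F ⊔ Ideal.span {x})) (i + 1) := by
  exact hrk_cons_succ x ξ (qSub F C) (qFac le_sup_left) (qSub_inj F C) (qFac_surj _) (qFac_ker x)
    (qSub_range x hC) i

theorem hrk_step_zero (ξ : Fin m → S) {F : Ideal S} (x : S) :
    hrk K (Fin.cons x ξ : Fin (m + 1) → S) (S ⧸ F) 0 ≤
      hrk K ξ (S ⧸ (F ⊔ Ideal.span {x})) 0 :=
  hrk_cons_zero x ξ (qFac le_sup_left) (qFac_surj _) (qFac_ker x)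

end Pool.Agent.H98.KF
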