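import Pool.Agent.H17.KzMin

/-!
# Ranks of Koszul homology as cardinals

`hrk ξ M i` is the dimension (as a cardinal) of the `i`-th Koszul homology of the module `M` with
respect to the list `ξ`. It is subadditive in short exact sequences.
-/

open Finset BigOperators
open scoped Cardinal

namespace Pool.Agent.H98.KF

open Pool.Agent.H17.Kz

universe u v w

section abs
variable {K : Type u} [Field K]

/-- the rank of `Z / (B ∩ Z)` -/
noncomputable def rk {V : Type v} [AddCommGroup V] [Module K V] (Z B : Submodule K V) : Cardinal.{v} :=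
  Module.rank K (Z ⧸ B.submoduleOf Z)

variable {X1 X X2 : Type v} [AddCommGroup X1] [Module K X1] [AddCommGroup X] [Module K X]
  [AddCommGroup X2] [Module K X2]

theorem rk_le_surj (f : X1 →ₗ[K] X) (Z1 B1 : Submodule K X1) (Z B : Submodule K X)
    (hf : ∀ z ∈ Z1, f z ∈ Z) (hfB : ∀ z ∈ Z1, z ∈ B1 → f z ∈ B)
    (hs : ∀ z ∈ Z, ∃ z1 ∈ Z1, z - f z1 ∈ B) : rk Z B ≤ rk Z1 B1 := by
  have hle : B1.submoduleOf Z1 ≤ (B.submoduleOf Z).comap (f.restrict hf) := by
    intro z hz
    exact hfB z z.2 hz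
  refine LinearMap.rank_le_of_surjective (Submodule.mapQ _ _ (f.restrict hf) hle) ?_
  intro q
  obtain ⟨z, rfl⟩ := Submodule.mkQ_surjective _ q
  obtain ⟨z1, hz1, h⟩ := hs z z.2
  refine ⟨Submodule.Quotient.mk ⟨z1, hz1⟩, ?_⟩
  rw [Submodule.mapQ_apply, Submodule.mkQ_apply, Submodule.Quotient.eq]
  have h2 : ((f.restrict hf ⟨z1, hz1⟩ - z : Z) : X) ∈ B := by
    have h3 : ((f.restrict hf ⟨z1, hz1⟩ - z : Z) : X) = -(z - f z1) := by
      rw [Submodule.coe_sub]
      simp
    rw [h3]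
    exact B.neg_mem h
  exact h2

theorem rk_le_inj (g : X →ₗ[K] X2) (Z B : Submodule K X) (Z2 B2 : Submodule K X2)
    (hg : ∀ z ∈ Z, g z ∈ Z2) (hgB : ∀ z ∈ Z, z ∈ B → g z ∈ B2)
    (hi : ∀ z ∈ Z, g z ∈ B2 → z ∈ B) : rk Z B ≤ rk Z2 B2 := by
  have hle : B.submoduleOf Z ≤ (B2.submoduleOf Z2).comap (g.restrict hg) := by
    intro z hz
    exact hgB z z.2 hz
  refine LinearMap.rank_le_of_injective (Submodule.mapQ _ _ (g.restrict hg) hle) ?_
  rw [← LinearMap.ker_eq_bot, LinearMap.ker_eq_bot']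
  intro q hq
  obtain ⟨z, rfl⟩ := Submodule.mkQ_surjective _ q
  rw [Submodule.mkQ_apply, Submodule.mapQ_apply, Submodule.Quotient.mk_eq_zero] at hq
  rw [Submodule.mkQ_apply, Submodule.Quotient.mk_eq_zero]
  exact hi z z.2 hq

theorem rk_exact (f : X1 →ₗ[K] X) (g : X →ₗ[K] X2) (Z1 B1 : Submodule K X1) (Z B : Submodule K X)
    (Z2 B2 : Submodule K X2)
    (hf : ∀ z ∈ Z1, f z ∈ Z) (hfB : ∀ z ∈ Z1, z ∈ B1 → f z ∈ B)
    (hg : ∀ z ∈ Z, g z ∈ Z2) (hgB : ∀ z ∈ Z, z ∈ B → g z ∈ B2)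
    (hex : ∀ z ∈ Z, g z ∈ B2 → ∃ z1 ∈ Z1, z - f z1 ∈ B) :
    rk Z B ≤ rk Z1 B1 + rk Z2 B2 := by
  have hle : B1.submoduleOf Z1 ≤ (B.submoduleOf Z).comap (f.restrict hf) := by
    intro z hz
    exact hfB z z.2 hz
  have hle2 : B.submoduleOf Z ≤ (B2.submoduleOf Z2).comap (g.restrict hg) := by
    intro z hz
    exact hgB z z.2 hz
  let ψ := Submodule.mapQ _ _ (f.restrict hf) hle
  let φ := Submodule.mapQ _ _ (g.restrict hg) hle2
  have hker : LinearMap.ker φ ≤ LinearMap.range ψ := by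
    intro q hq
    rw [LinearMap.mem_ker] at hq
    obtain ⟨z, rfl⟩ := Submodule.mkQ_surjective _ q
    rw [Submodule.mkQ_apply, Submodule.mapQ_apply, Submodule.Quotient.mk_eq_zero] at hq
    obtain ⟨z1, hz1, h⟩ := hex z z.2 hq
    refine ⟨Submodule.Quotient.mk ⟨z1, hz1⟩, ?_⟩
    rw [Submodule.mapQ_apply, Submodule.mkQ_apply, Submodule.Quotient.eq]
    have h2 : ((f.restrict hf ⟨z1, hz1⟩ - z : Z) : X) ∈ B := by
      have h3 : ((f.restrict hf ⟨z1, hz1⟩ - z : Z) : X) = -(z - f z1) := by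
        rw [Submodule.coe_sub]
        simp
      rw [h3]
      exact B.neg_mem h
    exact h2
  have h1 := LinearMap.rank_range_add_rank_ker φ
  have h2 : Module.rank K (LinearMap.ker φ) ≤ rk Z1 B1 :=
    (Submodule.rank_mono hker).trans (LinearMap.rank_le_domain ψ)
  have h3 : Module.rank K (LinearMap.range φ) ≤ rk Z2 B2 := Submodule.rank_le _
  show Module.rank K (Z ⧸ B.submoduleOf Z) ≤ _
  rw [← h1, add_comm]
  exact add_le_add h2 h3

theorem rk_subsingleton {V : Type v} [AddCommGroup V] [Module K V] [Subsingleton V]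
    (Z B : Submodule K V) : rk Z B = 0 := by
  have : Subsingleton Z := ⟨fun a b => Subtype.ext (Subsingleton.elim _ _)⟩
  have : Subsingleton (Z ⧸ B.submoduleOf Z) := Submodule.Quotient.instSubsingletonQuotient
  exact rank_subsingleton' _ _

end abs

section hrk
variable {K : Type u} [Field K] {n : ℕ} {S : Type w} [CommRing S] [Algebra K S]

/-- cycles -/
noncomputable def zc (K : Type u) [Field K] {n : ℕ} {S : Type w} [CommRing S] [Algebra K S]
    (ξ : Fin n → S) (M : Type v) [AddCommGroup M] [Module K M] [Module S M]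
    [IsScalarTower K S M] : (i : ℕ) → Submodule K (KC K n M i)
  | 0 => ⊤
  | i + 1 => LinearMap.ker (kdiff K ξ M i)

/-- dimension of the Koszul homology, as a cardinal -/
noncomputable def hrk (K : Type u) [Field K] {n : ℕ} {S : Type w} [CommRing S] [Algebra K S]
    (ξ : Fin n → S) (M : Type v) [AddCommGroup M] [Module K M] [Module S M]
    [IsScalarTower K S M] (i : ℕ) : Cardinal.{max u v} :=
  rk (zc K ξ M i) (LinearMap.range (kdiff K ξ M i))

variable {M N C : Type v} [AddCommGroup M] [Module K M] [Module S M] [IsScalarTower K S M]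
  [AddCommGroup N] [Module K N] [Module S N] [IsScalarTower K S N]
  [AddCommGroup C] [Module K C] [Module S C] [IsScalarTower K S C]

theorem hdim_le_of_hrk_le (ξ : Fin n → S) (i N : ℕ) (h : hrk K ξ M i ≤ (N : Cardinal)) :
    hdim K ξ M i ≤ N := by
  have h1 : hdim K ξ M i =
      Module.finrank K (zc K ξ M i ⧸ (LinearMap.range (kdiff K ξ M i)).submoduleOf (zc K ξ M i)) := by
    cases i with
    | zero => exact finrank_top_quot _
    | succ i => rfl
  rw [h1]
  exact Module.finrank_le_of_rank_le h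

theorem mem_zc_succ (ξ : Fin n → S) (i : ℕ) (c : KC K n M (i + 1)) :
    c ∈ zc K ξ M (i + 1) ↔ kdiff K ξ M i c = 0 := Iff.rfl

theorem hrk_congr {T : Type*} [CommRing T] [Algebra K T] [Module T M] [IsScalarTower K T M]
    (ξ : Fin n → S) (ζ : Fin n → T)
    (h : ∀ k (m : M), ξ k • m = ζ k • m) (i : ℕ) : hrk K ξ M i = hrk K ζ M i := by
  have hk : ∀ i, kdiff K ξ M i = kdiff K ζ M i := by
    intro i
    apply LinearMap.ext
    intro c
    ext v
    rw [kdiff_apply, kdiff_apply]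
    exact Finset.sum_congr rfl (fun k _ => h k _)
  cases i with
  | zero =>
    exact congrArg (fun (d : KC K n M 1 →ₗ[K] KC K n M 0) =>
      rk (⊤ : Submodule K (KC K n M 0)) (LinearMap.range d)) (hk 0)
  | succ i =>
    exact congrArg₂ (fun (d : KC K n M (i + 1) →ₗ[K] KC K n M i)
      (e : KC K n M (i + 2) →ₗ[K] KC K n M (i + 1)) => rk (LinearMap.ker d) (LinearMap.range e))
      (hk i) (hk (i + 1))

theorem hrk_subsingleton [Subsingleton M] (ξ : Fin n → S) (i : ℕ) : hrk K ξ M i = 0 := by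
  have : Subsingleton (KC K n M i) := ⟨fun a b => by ext v; exact Subsingleton.elim _ _⟩
  exact rk_subsingleton _ _

theorem cmp_zc (ξ : Fin n → S) (i : ℕ) (g : M →ₗ[S] N) (z : KC K n M i) (hz : z ∈ zc K ξ M i) :
    cmp i (g.restrictScalars K) z ∈ zc K ξ N i := by
  cases i with
  | zero => trivial
  | succ i =>
    rw [mem_zc_succ] at hz ⊢
    rw [← cmp_kdiff, hz, map_zero]

theorem cmp_range (ξ : Fin n → S) (i : ℕ) (g : M →ₗ[S] N) (z : KC K n M i)
    (hz : z ∈ LinearMap.range (kdiff K ξ M i)) :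
    cmp i (g.restrictScalars K) z ∈ LinearMap.range (kdiff K ξ N i) := by
  obtain ⟨c, rfl⟩ := hz
  exact ⟨cmp (i + 1) (g.restrictScalars K) c, (cmp_kdiff ξ i g c).symm⟩

/-- Koszul homology is invariant under isomorphisms. -/
theorem hrk_equiv (ξ : Fin n → S) (e : M ≃ₗ[S] N) (i : ℕ) : hrk K ξ N i ≤ hrk K ξ M i := by
  refine rk_le_surj (cmp i (e.toLinearMap.restrictScalars K)) _ _ _ _
    (fun z hz => cmp_zc ξ i _ z hz) (fun z _ hz => cmp_range ξ i _ z hz) ?_
  intro z hz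
  refine ⟨cmp i (e.symm.toLinearMap.restrictScalars K) z, cmp_zc ξ i _ z hz, ?_⟩
  have h1 : cmp i (e.toLinearMap.restrictScalars K)
      (cmp i (e.symm.toLinearMap.restrictScalars K) z) = z := by
    ext v
    rw [cmp_apply, cmp_apply]
    exact e.apply_symm_apply _
  rw [h1, sub_self]
  exact Submodule.zero_mem _

/-- Koszul homology is subadditive. -/
theorem hrk_exact (ξ : Fin n → S) (ι : C →ₗ[S] M) (π : M →ₗ[S] N) (hι : Function.Injective ι)
    (hπ : Function.Surjective π) (hex : ∀ f, π f = 0 ↔ ∃ a, ι a = f) (i : ℕ) :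
    hrk K ξ M i ≤ hrk K ξ C i + hrk K ξ N i := by
  have hιK : Function.Injective (ι.restrictScalars K) := hι
  have hπK : Function.Surjective (π.restrictScalars K) := hπ
  have hexK : ∀ f, (π.restrictScalars K) f = 0 → ∃ a, (ι.restrictScalars K) a = f :=
    fun f hf => (hex f).mp hf
  refine rk_exact (cmp i (ι.restrictScalars K)) (cmp i (π.restrictScalars K)) _ _ _ _ _ _
    (fun z hz => cmp_zc ξ i _ z hz) (fun z _ hz => cmp_range ξ i _ z hz)
    (fun z hz => cmp_zc ξ i _ z hz) (fun z _ hz => cmp_range ξ i _ z hz) ?_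
  rintro z hz ⟨b', hb'⟩
  obtain ⟨b, rfl⟩ := cmp_surj (i + 1) _ hπK b'
  have h1 : cmp i (π.restrictScalars K) (z - kdiff K ξ M i b) = 0 := by
    rw [map_sub, cmp_kdiff, hb', sub_self]
  obtain ⟨a, ha⟩ := cmp_exact i _ _ hιK hexK _ h1
  refine ⟨a, ?_, b, ?_⟩
  · cases i with
    | zero => trivial
    | succ i =>
      rw [mem_zc_succ] at hz ⊢
      apply cmp_inj i _ hιK
      rw [cmp_kdiff, ha, map_sub, hz, kdiff_kdiff, sub_self, map_zero]
  · rw [ha]
    abel

end hrk

end Pool.Agent.H98.KF
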