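import Mathlib

set_option autoImplicit false

open scoped ENNReal Topology

namespace Pool.Agent.H98.Sub

noncomputable section

/-- The Hilbert space of square summable complex sequences. -/
abbrev L2 (ι : Type) : Type := lp (fun _ : ι => ℂ) 2

/-- Basis vectors. -/
def e {ι : Type} [DecidableEq ι] (i : ι) : L2 ι := lp.single 2 i (1 : ℂ)

theorem e_apply {ι : Type} [DecidableEq ι] (i j : ι) : (e i : L2 ι) j = if j = i then 1 else 0 := by
  simp [e, lp.single_apply, Pi.single_apply]

theorem orth_e {ι : Type} [DecidableEq ι] : Orthonormal ℂ (fun i : ι => (e i : L2 ι)) := by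
  rw [orthonormal_iff_ite]
  intro i j
  rw [e, lp.inner_single_left]
  simp only [RCLike.inner_apply, map_one, e_apply]
  simp

theorem clm_ext {ι : Type} [DecidableEq ι] {F : Type} [AddCommMonoid F] [Module ℂ F]
    [TopologicalSpace F] [T2Space F] {f g : L2 ι →L[ℂ] F} (h : ∀ i, f (e i) = g (e i)) :
    f = g := by
  apply lp.ext_continuousLinearMap (ENNReal.ofNat_ne_top (n := nat_lit 2))
  intro i
  ext
  exact h i

/-- The isometry sending the basis vector `e i` to `e (s i)`, for `s` injective. -/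
def push {ι κ : Type} [DecidableEq ι] [DecidableEq κ] (s : ι → κ) (hs : Function.Injective s) :
    L2 ι →ₗᵢ[ℂ] L2 κ :=
  ((orth_e (ι := κ)).comp s hs).orthogonalFamily.linearIsometry

theorem push_e {ι κ : Type} [DecidableEq ι] [DecidableEq κ] (s : ι → κ)
    (hs : Function.Injective s) (i : ι) : push s hs (e i) = e (s i) := by
  unfold push
  rw [e, OrthogonalFamily.linearIsometry_apply_single]
  simp

/-! ### The evaluation functionals -/

theorem memlp_geom (y : ℂ) (hy : ‖y‖ < 1) : Memℓp (fun n : ℕ => (starRingEnd ℂ y) ^ n) 2 := by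
  apply memℓp_gen
  have : (fun n : ℕ => ‖(starRingEnd ℂ y) ^ n‖ ^ (2 : ℝ≥0∞).toReal) =
      fun n : ℕ => (‖y‖ ^ 2) ^ n := by
    funext n
    simp only [norm_pow, RCLike.norm_conj, ENNReal.toReal_ofNat, Real.rpow_ofNat]
    rw [← pow_mul, ← pow_mul, mul_comm]
  rw [this]
  apply summable_geometric_of_lt_one (by positivity)
  nlinarith [norm_nonneg y]

/-- Evaluation at the point `y` of the open disc. -/
def kf (y : ℂ) (hy : ‖y‖ < 1) : L2 ℕ →L[ℂ] ℂ :=
  innerSL ℂ (⟨fun n : ℕ => (starRingEnd ℂ y) ^ n, memlp_geom y hy⟩ : L2 ℕ)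

theorem kf_apply (y : ℂ) (hy : ‖y‖ < 1) (f : L2 ℕ) : kf y hy f = ∑' n, f n * y ^ n := by
  unfold kf
  rw [innerSL_apply_apply, lp.inner_eq_tsum]
  congr 1
  funext n
  simp

theorem kf_e (y : ℂ) (hy : ‖y‖ < 1) (n : ℕ) : kf y hy (e n) = y ^ n := by
  unfold kf
  rw [innerSL_apply_apply, e, lp.inner_single_right]
  simp

/-- Identity principle. -/
theorem eq_zero_of_kf (f : L2 ℕ) (W : Set ℂ) (hW : IsOpen W) (z₀ : ℂ) (hz₀ : z₀ ∈ W)
    (hz₁ : ‖z₀‖ < 1) (h : ∀ y ∈ W, ∀ hy : ‖y‖ < 1, kf y hy f = 0) : f = 0 := by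
  set p : FormalMultilinearSeries ℂ ℂ ℂ := FormalMultilinearSeries.ofScalars ℂ (fun n => f n)
    with hp
  have hrad : (1 : ℝ≥0∞) ≤ p.radius := by
    have := p.le_radius_of_bound (‖f‖) (r := 1) (by
      intro n
      simp only [NNReal.coe_one, one_pow, mul_one]
      rw [hp, FormalMultilinearSeries.ofScalars_norm]
      exact lp.norm_apply_le_norm (by norm_num) f n)
    simpa using this
  have hF : HasFPowerSeriesOnBall p.sum p 0 p.radius :=
    p.hasFPowerSeriesOnBall (lt_of_lt_of_le (by norm_num) hrad)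
  have hF1 : HasFPowerSeriesOnBall p.sum p 0 1 := hF.mono (by norm_num) hrad
  have hsum : ∀ y : ℂ, p.sum y = ∑' n, f n * y ^ n := by
    intro y
    have := FormalMultilinearSeries.ofScalars_sum_eq (E := ℂ) (fun n => f n) y
    simpa [FormalMultilinearSeries.ofScalarsSum, hp, smul_eq_mul] using this
  have hball : Metric.eball (0 : ℂ) 1 = {y : ℂ | ‖y‖ < 1} := by
    ext y
    simp [Metric.mem_eball, edist_zero_right, enorm_eq_nnnorm]
    norm_cast
  have han : AnalyticOnNhd ℂ p.sum (Metric.eball (0 : ℂ) 1) := hF1.analyticOnNhd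
  have hpre : IsPreconnected (Metric.eball (0 : ℂ) 1) := by
    rw [hball]
    have : {y : ℂ | ‖y‖ < 1} = Metric.ball (0 : ℂ) 1 := by ext y; simp
    rw [this]
    exact (convex_ball (0 : ℂ) 1).isPreconnected
  have hev : p.sum =ᶠ[𝓝 z₀] 0 := by
    have h1 : ∀ᶠ y in 𝓝 z₀, y ∈ W := hW.mem_nhds hz₀
    have h2 : ∀ᶠ y in 𝓝 z₀, ‖y‖ < 1 := by
      have : IsOpen {y : ℂ | ‖y‖ < 1} := isOpen_lt continuous_norm continuous_const
      exact this.mem_nhds hz₁
    filter_upwards [h1, h2] with y hy1 hy2
    have := h y hy1 hy2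
    rw [kf_apply] at this
    rw [hsum, this]
    rfl
  have hz : z₀ ∈ Metric.eball (0 : ℂ) 1 := by rw [hball]; exact hz₁
  have hEq := han.eqOn_zero_of_preconnected_of_eventuallyEq_zero hpre hz hev
  have hev0 : p.sum =ᶠ[𝓝 0] 0 := by
    have : Metric.eball (0 : ℂ) 1 ∈ 𝓝 (0 : ℂ) := Metric.eball_mem_nhds _ (by norm_num)
    filter_upwards [this] with y hy using hEq hy
  have hp0 : p = 0 := hF1.hasFPowerSeriesAt.eq_zero_of_eventually hev0
  rw [hp, FormalMultilinearSeries.ofScalars_series_eq_zero] at hp0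
  ext n
  exact congrFun hp0 n

/-! ### The shift and the commutant of `U ^ 3 + 3 U ^ 2` -/

/-- The unilateral shift. -/
def U : L2 ℕ →L[ℂ] L2 ℕ := (push (fun n : ℕ => n + 1) (add_left_injective 1)).toContinuousLinearMap

theorem U_e (n : ℕ) : U (e n) = e (n + 1) := push_e _ (add_left_injective 1) n

theorem U_norm (f : L2 ℕ) : ‖U f‖ = ‖f‖ := (push _ (add_left_injective 1)).norm_map f

theorem U_inj : Function.Injective U := (push _ (add_left_injective 1)).injective

theorem norm_U_le : ‖U‖ ≤ 1 := by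
  apply ContinuousLinearMap.opNorm_le_bound _ zero_le_one
  intro f
  rw [U_norm, one_mul]

theorem kf_U (y : ℂ) (hy : ‖y‖ < 1) (f : L2 ℕ) : kf y hy (U f) = y * kf y hy f := by
  have : (kf y hy).comp U = y • kf y hy := by
    apply clm_ext
    intro n
    simp [U_e, kf_e, pow_succ, mul_comm]
  have h2 := congrArg (fun g : L2 ℕ →L[ℂ] ℂ => g f) this
  simpa using h2

/-- The operator `U ^ 3 + 3 U ^ 2`. -/
def P : L2 ℕ →L[ℂ] L2 ℕ := U ^ 3 + (3 : ℂ) • U ^ 2

/-- The cofactor of `U - y` in `P - p (y)`. -/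
def Qy (y : ℂ) : L2 ℕ →L[ℂ] L2 ℕ := U ^ 2 + (y + 3) • U + (y * (y + 3)) • 1

theorem fac (y : ℂ) : P - (y ^ 3 + 3 * y ^ 2) • 1 = Qy y * (U - y • 1) := by
  unfold P Qy
  simp only [mul_sub, add_mul, smul_mul_assoc, mul_smul_comm, one_mul, mul_one, smul_add, smul_smul]
  rw [← pow_succ, ← pow_two]
  module

theorem isUnit_U_add (c : ℂ) (hc : 1 < ‖c‖) : IsUnit (U + c • 1) := by
  have hc0 : c ≠ 0 := by
    rintro rfl
    norm_num at hc
  have h1 : ‖-(c⁻¹ • U)‖ < 1 := by
    rw [norm_neg, norm_smul, norm_inv]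
    have h2 : ‖c‖⁻¹ < 1 := inv_lt_one_of_one_lt₀ hc
    calc ‖c‖⁻¹ * ‖U‖ ≤ ‖c‖⁻¹ * 1 := by
          apply mul_le_mul_of_nonneg_left norm_U_le (by positivity)
      _ < 1 := by rw [mul_one]; exact h2
  have h3 := isUnit_one_sub_of_norm_lt_one h1
  have h4 : U + c • 1 = (Units.mk0 c hc0) • (1 - -(c⁻¹ • U)) := by
    rw [Units.smul_def, Units.val_mk0, sub_neg_eq_add, smul_add, smul_smul, mul_inv_cancel₀ hc0,
      one_smul, add_comm]
  rw [h4]
  exact h3.smul _

theorem Qy_one : Qy 1 = (U + (2 : ℂ) • 1) * (U + (2 : ℂ) • 1) := by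
  unfold Qy
  simp only [mul_add, add_mul, smul_mul_assoc, mul_smul_comm, one_mul, mul_one, smul_add, smul_smul]
  rw [← pow_two]
  module

theorem isUnit_Qy_one : IsUnit (Qy 1) := by
  rw [Qy_one]
  have := isUnit_U_add 2 (by norm_num)
  exact this.mul this

/-- The set of parameters for which the cofactor is invertible. -/
def W : Set ℂ := {y | IsUnit (Qy y)}

theorem W_open : IsOpen W := by
  have h1 : IsOpen {x : L2 ℕ →L[ℂ] L2 ℕ | IsUnit x} := Units.isOpen
  have h2 : Continuous Qy := by
    unfold Qy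
    fun_prop
  exact h1.preimage h2

theorem exists_W : ∃ z₀ ∈ W, ‖z₀‖ < 1 := by
  have h1 : (1 : ℂ) ∈ W := isUnit_Qy_one
  obtain ⟨ε, hε, hb⟩ := Metric.isOpen_iff.1 W_open 1 h1
  refine ⟨((1 - min (ε / 2) (1 / 2) : ℝ) : ℂ), hb ?_, ?_⟩
  · rw [Metric.mem_ball, Complex.dist_eq]
    have : ((1 - min (ε / 2) (1 / 2) : ℝ) : ℂ) - 1 = ((-(min (ε / 2) (1 / 2)) : ℝ) : ℂ) := by
      push_cast
      ring
    rw [this, Complex.norm_real, norm_neg, Real.norm_eq_abs, abs_of_nonneg (by positivity)]
    have := min_le_left (ε / 2) (1 / 2)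
    linarith
  · rw [Complex.norm_real, Real.norm_eq_abs, abs_lt]
    have h2 := min_le_right (ε / 2) (1 / 2)
    have h3 : 0 < min (ε / 2) (1 / 2) := by positivity
    constructor <;> linarith

/-- A functional killing the range of `P - p (y)` is a multiple of the evaluation at `y`. -/
theorem functional_eq (y : ℂ) (hy : ‖y‖ < 1) (hW : y ∈ W) (l : L2 ℕ →L[ℂ] ℂ)
    (hl : l.comp (P - (y ^ 3 + 3 * y ^ 2) • 1) = 0) : ∃ c : ℂ, l = c • kf y hy := by
  obtain ⟨R, hR⟩ := hW
  set l1 : L2 ℕ →L[ℂ] ℂ := l.comp (Qy y) with hl1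
  have h1 : ∀ f, l1 (U f) = y * l1 f := by
    intro f
    rw [fac] at hl
    have := congrArg (fun g : L2 ℕ →L[ℂ] ℂ => g f) hl
    simp only [ContinuousLinearMap.comp_apply, mul_apply_eq_comp,
      sub_apply, smul_apply,
      one_apply_eq_self, map_sub, map_smul, zero_apply,
      smul_eq_mul] at this
    rw [hl1]
    simp only [ContinuousLinearMap.comp_apply]
    exact sub_eq_zero.1 this
  have h2 : l1 = (l1 (e 0)) • kf y hy := by
    apply clm_ext
    intro n
    induction n with
    | zero => simp [kf_e]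
    | succ n ih =>
      rw [← U_e, h1, ih]
      simp only [smul_apply, smul_eq_mul]
      rw [kf_U]
      ring
  -- evaluation composed with the cofactor
  have h3 : (kf y hy).comp (Qy y) = (y ^ 2 + (y + 3) * y + y * (y + 3)) • kf y hy := by
    ext f
    simp only [Qy, ContinuousLinearMap.comp_apply, add_apply,
      smul_apply, one_apply_eq_self, map_add, map_smul, pow_two,
      mul_apply_eq_comp, kf_U, smul_eq_mul]
    ring
  set q : ℂ := (y ^ 2 + (y + 3) * y + y * (y + 3)) with hq
  have hRinv : (Qy y).comp ((R⁻¹ : (L2 ℕ →L[ℂ] L2 ℕ)ˣ) : L2 ℕ →L[ℂ] L2 ℕ) = 1 := by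
    rw [← hR]
    exact R.mul_inv
  have h4 : kf y hy = q • (kf y hy).comp ((R⁻¹ : (L2 ℕ →L[ℂ] L2 ℕ)ˣ) : L2 ℕ →L[ℂ] L2 ℕ) := by
    have := congrArg (fun g : L2 ℕ →L[ℂ] ℂ =>
      g.comp ((R⁻¹ : (L2 ℕ →L[ℂ] L2 ℕ)ˣ) : L2 ℕ →L[ℂ] L2 ℕ)) h3
    simp only [ContinuousLinearMap.comp_assoc, hRinv] at this
    rw [ContinuousLinearMap.smul_comp] at this
    rw [← this]
    rfl
  have hq0 : q ≠ 0 := by
    intro hq0
    have := congrArg (fun g : L2 ℕ →L[ℂ] ℂ => g (e 0)) h4
    simp [kf_e, hq0] at this
  refine ⟨(l1 (e 0)) * q⁻¹, ?_⟩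
  have h5 : l = l1.comp ((R⁻¹ : (L2 ℕ →L[ℂ] L2 ℕ)ˣ) : L2 ℕ →L[ℂ] L2 ℕ) := by
    rw [hl1, ContinuousLinearMap.comp_assoc, hRinv]
    rfl
  rw [h5]
  conv_lhs => rw [h2, ContinuousLinearMap.smul_comp]
  rw [mul_smul]
  congr 1
  rw [eq_inv_smul_iff₀ hq0]
  exact h4.symm

/-- An operator commuting with `P` commutes with the shift. -/
theorem commutant (Z : L2 ℕ →L[ℂ] L2 ℕ) (hZ : ∀ f, Z (P f) = P (Z f)) :
    ∀ f, Z (U f) = U (Z f) := by
  intro f
  rw [← sub_eq_zero]
  obtain ⟨z₀, hz₀, hz₁⟩ := exists_W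
  apply eq_zero_of_kf _ W W_open z₀ hz₀ hz₁
  intro y hyW hy
  have hkP : ∀ g, kf y hy (P g) = (y ^ 3 + 3 * y ^ 2) * kf y hy g := by
    intro g
    simp only [P, add_apply, smul_apply, pow_succ, pow_zero,
      one_mul, mul_apply_eq_comp, map_add, map_smul, kf_U, smul_eq_mul]
    ring
  obtain ⟨c, hc⟩ := functional_eq y hy hyW ((kf y hy).comp Z) (by
    ext g
    simp only [ContinuousLinearMap.comp_apply, sub_apply,
      smul_apply, one_apply_eq_self, map_sub, map_smul, hZ, hkP,
      zero_apply, smul_eq_mul, sub_self])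
  have hc' : ∀ g, kf y hy (Z g) = c * kf y hy g := by
    intro g
    have := congrArg (fun l : L2 ℕ →L[ℂ] ℂ => l g) hc
    simpa using this
  rw [map_sub, hc', kf_U, kf_U, hc']
  ring

/-! ### The subnormal operator -/

/-- The index map skipping the index `1`. -/
def sk (n : ℕ) : ℕ := if n = 0 then 0 else n + 1

theorem sk_inj : Function.Injective sk := by
  intro a b h
  unfold sk at h
  split_ifs at h <;> omega

/-- The isometry of `ℓ²(ℕ)` onto the sequences vanishing at the index `1`. -/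
def J : L2 ℕ →L[ℂ] L2 ℕ := (push sk sk_inj).toContinuousLinearMap

theorem J_e (n : ℕ) : J (e n) = e (sk n) := push_e _ sk_inj n

theorem J_inj : Function.Injective J := (push _ sk_inj).injective

theorem J_U (f : L2 ℕ) : J (U f) = U (U f) := by
  have : J.comp U = U.comp U := by
    apply clm_ext
    intro n
    simp [U_e, J_e, sk]
  have h2 := congrArg (fun g : L2 ℕ →L[ℂ] L2 ℕ => g f) this
  simpa using h2

/-- The operator `S`: it is `U ^ 3 + 3 U ^ 2` restricted to the sequences vanishing at `1`. -/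
def S : L2 ℕ →L[ℂ] L2 ℕ := U.comp ((U + (3 : ℂ) • 1).comp J)

theorem P_apply (f : L2 ℕ) : P f = U (U (U f)) + (3 : ℂ) • U (U f) := by
  simp only [P, add_apply, smul_apply, pow_succ, pow_zero, one_mul, mul_apply_eq_comp]

theorem S_apply (f : L2 ℕ) : S f = U (U (J f)) + (3 : ℂ) • U (J f) := by
  simp [S]

theorem J_S (f : L2 ℕ) : J (S f) = P (J f) := by
  rw [S_apply, map_add, map_smul, J_U, J_U, P_apply]

theorem S_U (f : L2 ℕ) : S (U f) = U (P f) := by
  rw [S_apply, J_U, P_apply, map_add, map_smul]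

/-- Coordinates. -/
def C (j : ℕ) : L2 ℕ →L[ℂ] ℂ := innerSL ℂ (e j)

theorem C_e (j n : ℕ) : C j (e n) = if j = n then 1 else 0 := by
  unfold C
  rw [innerSL_apply_apply]
  have := (orthonormal_iff_ite.1 (orth_e (ι := ℕ))) j n
  simpa using this

theorem C_succ_U (j : ℕ) (f : L2 ℕ) : C (j + 1) (U f) = C j f := by
  have : (C (j + 1)).comp U = C j := by
    apply clm_ext
    intro n
    simp [U_e, C_e]
  have h2 := congrArg (fun g : L2 ℕ →L[ℂ] ℂ => g f) this
  simpa using h2

theorem C_zero_U (f : L2 ℕ) : C 0 (U f) = 0 := by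
  have : (C 0).comp U = 0 := by
    apply clm_ext
    intro n
    simp [U_e, C_e]
  have h2 := congrArg (fun g : L2 ℕ →L[ℂ] ℂ => g f) this
  simpa using h2

theorem C_zero_J (f : L2 ℕ) : C 0 (J f) = C 0 f := by
  have : (C 0).comp J = C 0 := by
    apply clm_ext
    intro n
    simp only [ContinuousLinearMap.comp_apply, J_e, C_e, sk]
    by_cases hn : n = 0
    · simp [hn]
    · simp [hn]
      omega
  have h2 := congrArg (fun g : L2 ℕ →L[ℂ] ℂ => g f) this
  simpa using h2

theorem C_one_J (f : L2 ℕ) : C 1 (J f) = 0 := by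
  have : (C 1).comp J = 0 := by
    apply clm_ext
    intro n
    simp only [ContinuousLinearMap.comp_apply, J_e, C_e, sk]
    by_cases hn : n = 0
    · simp [hn]
    · simp [hn]
  have h2 := congrArg (fun g : L2 ℕ →L[ℂ] ℂ => g f) this
  simpa using h2

theorem C_two_J (j : ℕ) (f : L2 ℕ) : C (j + 2) (J f) = C (j + 1) f := by
  have : (C (j + 2)).comp J = C (j + 1) := by
    apply clm_ext
    intro n
    simp only [ContinuousLinearMap.comp_apply, J_e, C_e, sk]
    by_cases hn : n = 0
    · simp [hn]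
    · simp [hn]
  have h2 := congrArg (fun g : L2 ℕ →L[ℂ] ℂ => g f) this
  simpa using h2

theorem add_three_inj : Function.Injective (U + (3 : ℂ) • (1 : L2 ℕ →L[ℂ] L2 ℕ)) := by
  obtain ⟨R, hR⟩ := isUnit_U_add 3 (by norm_num)
  have h1 : ((R⁻¹ : (L2 ℕ →L[ℂ] L2 ℕ)ˣ) : L2 ℕ →L[ℂ] L2 ℕ) * (U + (3 : ℂ) • 1) = 1 := by
    rw [← hR]
    exact R.inv_mul
  apply Function.LeftInverse.injective
    (g := ((R⁻¹ : (L2 ℕ →L[ℂ] L2 ℕ)ˣ) : L2 ℕ →L[ℂ] L2 ℕ))
  intro f
  rw [← mul_apply_eq_comp, h1, one_apply_eq_self]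

/-- **Key step.** No operator commuting with `S` has the functional property which the
multiplication by `z` on `R²(K, μ)` has with respect to the constant function `1`. -/
theorem key (T : L2 ℕ →L[ℂ] L2 ℕ) (hT : ∀ f, T (S f) = S (T f)) (x₀ : L2 ℕ)
    (hx : ∀ (c : ℂ) (l : L2 ℕ →L[ℂ] ℂ), (∀ f, l (T f) = c * l f) → l x₀ = 0 → l = 0) :
    False := by
  set Z : L2 ℕ →L[ℂ] L2 ℕ := J.comp (T.comp U) with hZdef
  have hZa : ∀ f, Z f = J (T (U f)) := fun f => rfl
  have hZP : ∀ f, Z (P f) = P (Z f) := by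
    intro f
    rw [hZa, hZa, ← S_U, hT, J_S]
  have hZU : ∀ f, Z (U f) = U (Z f) := commutant Z hZP
  set h : L2 ℕ := J (T (e 0)) with hh
  have hJe0 : J (e 0) = e 0 := by rw [J_e]; rfl
  have hZe0 : Z (e 0) = U (U h) := by
    apply add_three_inj
    have h1 : J (T (S (e 0))) = P h := by rw [hT, J_S]
    rw [P_apply] at h1
    have h2 : J (T (S (e 0))) = Z (U (e 0)) + (3 : ℂ) • Z (e 0) := by
      rw [S_apply, hJe0, hZa, hZa, map_add, map_add, map_smul, map_smul]
    rw [h2, hZU] at h1
    simpa using h1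
  have hZe : ∀ n : ℕ, J (T (e (n + 1))) = U^[n] (U (U h)) := by
    intro n
    rw [← U_e, ← hZa]
    induction n with
    | zero => rw [hZe0]; rfl
    | succ n ih =>
      rw [← U_e, hZU, ih, Function.iterate_succ_apply']
  -- the three functionals
  have hC0 : ∀ f, C 0 (T f) = C 0 h * C 0 f := by
    intro f
    have : (C 0).comp T = (C 0 h) • C 0 := by
      apply clm_ext
      intro n
      simp only [ContinuousLinearMap.comp_apply, smul_apply, smul_eq_mul]
      rw [← C_zero_J (T (e n))]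
      cases n with
      | zero => rw [← hh, C_e]; simp
      | succ n =>
        rw [hZe, C_e]
        have : C 0 (U^[n] (U (U h))) = 0 := by
          cases n with
          | zero => exact C_zero_U _
          | succ n => rw [Function.iterate_succ_apply']; exact C_zero_U _
        simp [this]
    have h2 := congrArg (fun g : L2 ℕ →L[ℂ] ℂ => g f) this
    simpa using h2
  have hC1 : ∀ f, C 1 (T f) = C 0 h * C 1 f + C 2 h * C 0 f := by
    intro f
    have : (C 1).comp T = (C 0 h) • C 1 + (C 2 h) • C 0 := by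
      apply clm_ext
      intro n
      simp only [ContinuousLinearMap.comp_apply, add_apply, smul_apply, smul_eq_mul]
      rw [← C_two_J 0 (T (e n))]
      cases n with
      | zero => rw [← hh, C_e, C_e]; simp
      | succ n =>
        rw [hZe, C_e, C_e]
        cases n with
        | zero =>
          have : C (0 + 2) (U^[0] (U (U h))) = C 0 h := by
            rw [Function.iterate_zero_apply, C_succ_U, C_succ_U]
          rw [this]
          simp
        | succ n =>
          have : C (0 + 2) (U^[n + 1] (U (U h))) = 0 := by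
            rw [Function.iterate_succ_apply', C_succ_U]
            cases n with
            | zero => rw [Function.iterate_zero_apply, C_succ_U, C_zero_U]
            | succ n => rw [Function.iterate_succ_apply', C_succ_U]
                        cases n with
                        | zero => exact C_zero_U _
                        | succ n => rw [Function.iterate_succ_apply']; exact C_zero_U _
          rw [this]
          simp
    have h2 := congrArg (fun g : L2 ℕ →L[ℂ] ℂ => g f) this
    simpa using h2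
  have hC2 : ∀ f, C 2 (T f) = C 0 h * C 2 f + C 3 h * C 0 f := by
    intro f
    have : (C 2).comp T = (C 0 h) • C 2 + (C 3 h) • C 0 := by
      apply clm_ext
      intro n
      simp only [ContinuousLinearMap.comp_apply, add_apply, smul_apply, smul_eq_mul]
      rw [← C_two_J 1 (T (e n))]
      cases n with
      | zero => rw [← hh, C_e, C_e]; simp
      | succ n =>
        rw [hZe, C_e, C_e]
        cases n with
        | zero =>
          have : C (1 + 2) (U^[0] (U (U h))) = 0 := by
            rw [Function.iterate_zero_apply, C_succ_U, C_succ_U, hh, C_one_J]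
          rw [this]
          simp
        | succ n =>
          cases n with
          | zero =>
            have : C (1 + 2) (U^[0 + 1] (U (U h))) = C 0 h := by
              rw [Function.iterate_succ_apply', C_succ_U, Function.iterate_zero_apply, C_succ_U,
                C_succ_U]
            rw [this]
            simp
          | succ n =>
            have : C (1 + 2) (U^[n + 1 + 1] (U (U h))) = 0 := by
              rw [Function.iterate_succ_apply', C_succ_U, Function.iterate_succ_apply', C_succ_U]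
              cases n with
              | zero => rw [Function.iterate_zero_apply, C_succ_U, C_zero_U]
              | succ n =>
                rw [Function.iterate_succ_apply', C_succ_U]
                cases n with
                | zero => exact C_zero_U _
                | succ n => rw [Function.iterate_succ_apply']; exact C_zero_U _
            rw [this]
            simp
    have h2 := congrArg (fun g : L2 ℕ →L[ℂ] ℂ => g f) this
    simpa using h2
  -- conclusion
  have hmain : ∀ l : L2 ℕ →L[ℂ] ℂ, (∀ f, l (T f) = C 0 h * l f) → l (e 0) = 0 → l = 0 := by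
    intro l hl hl0
    have h1 : (l x₀) • C 0 - (C 0 x₀) • l = 0 := by
      apply hx (C 0 h)
      · intro f
        simp only [sub_apply, smul_apply, smul_eq_mul, hl, hC0]
        ring
      · simp only [sub_apply, smul_apply, smul_eq_mul]
        ring
    have h2 := congrArg (fun g : L2 ℕ →L[ℂ] ℂ => g (e 0)) h1
    simp only [sub_apply, smul_apply, smul_eq_mul, hl0, C_e, zero_apply] at h2
    simp only [if_true, mul_one, mul_zero, sub_zero] at h2
    exact hx (C 0 h) l hl h2
  by_cases h23 : C 2 h = 0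
  · have : C 1 = 0 := by
      apply hmain
      · intro f
        rw [hC1, h23]
        ring
      · simp [C_e]
    have h2 := congrArg (fun g : L2 ℕ →L[ℂ] ℂ => g (e 1)) this
    simp [C_e] at h2
  · have : (C 3 h) • C 1 - (C 2 h) • C 2 = 0 := by
      apply hmain
      · intro f
        simp only [sub_apply, smul_apply, smul_eq_mul, hC1, hC2]
        ring
      · simp [C_e]
    have h2 := congrArg (fun g : L2 ℕ →L[ℂ] ℂ => g (e 2)) this
    simp [C_e] at h2
    exact h23 h2

end

end Pool.Agent.H98.Sub
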