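import Pool.Agent.H98.SubA

set_option autoImplicit false

open scoped ENNReal Topology

namespace Pool.Agent.H98.Sub

noncomputable section

theorem sub_one_inj : Function.Injective (fun n : ℤ => n - 1) := fun a b h => by
  simpa using h

/-- The bilateral shift. -/
def B : L2 ℤ →L[ℂ] L2 ℤ := (push (fun n : ℤ => n + 1) (add_left_injective 1)).toContinuousLinearMap

/-- The inverse of the bilateral shift. -/
def B' : L2 ℤ →L[ℂ] L2 ℤ := (push (fun n : ℤ => n - 1) sub_one_inj).toContinuousLinearMap

theorem B_e (n : ℤ) : B (e n) = e (n + 1) := push_e _ (add_left_injective 1) n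

theorem B'_e (n : ℤ) : B' (e n) = e (n - 1) := push_e _ sub_one_inj n

theorem B_B' : B * B' = 1 := by
  apply clm_ext
  intro n
  simp [mul_apply_eq_comp, B_e, B'_e]

theorem star_B_B : star B * B = 1 := by
  rw [ContinuousLinearMap.star_eq_adjoint]
  ext1 f
  rw [mul_apply_eq_comp, one_apply_eq_self]
  apply ext_inner_left ℂ
  intro v
  rw [ContinuousLinearMap.adjoint_inner_right]
  exact (push (fun n : ℤ => n + 1) (add_left_injective 1)).inner_map_map v f

theorem star_B : star B = B' := by
  calc star B = star B * (B * B') := by rw [B_B', mul_one]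
    _ = B' := by rw [← mul_assoc, star_B_B, one_mul]

theorem comm_B : Commute (star B) B := by
  show star B * B = B * star B
  rw [star_B_B, star_B, B_B']

/-- The normal extension. -/
def N : L2 ℤ →L[ℂ] L2 ℤ := B ^ 3 + (3 : ℂ) • B ^ 2

theorem normal_N : IsStarNormal N := by
  constructor
  have h := comm_B
  unfold N
  rw [star_add, star_smul, star_pow, star_pow]
  have h33 := h.pow_pow 3 3
  have h32 := h.pow_pow 3 2
  have h23 := h.pow_pow 2 3
  have h22 := h.pow_pow 2 2
  apply Commute.add_left
  · apply Commute.add_right h33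
    exact h32.smul_right _
  · apply Commute.add_right
    · exact h23.smul_left _
    · exact (h22.smul_right _).smul_left _

theorem cast_sk_inj : Function.Injective (fun n : ℕ => ((sk n : ℕ) : ℤ)) := by
  intro a b h
  apply sk_inj
  simpa using h

/-- The embedding into `ℓ²(ℤ)`. -/
def V : L2 ℕ →ₗᵢ[ℂ] L2 ℤ := push (fun n : ℕ => ((sk n : ℕ) : ℤ)) cast_sk_inj

theorem V_e (n : ℕ) : V (e n) = e ((sk n : ℕ) : ℤ) := push_e _ cast_sk_inj n

theorem N_V : N.comp V.toContinuousLinearMap = V.toContinuousLinearMap.comp S := by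
  apply clm_ext
  intro n
  simp only [ContinuousLinearMap.comp_apply, LinearIsometry.coe_toContinuousLinearMap]
  rw [S_apply, J_e, U_e, U_e, V_e, map_add, map_smul, V_e, V_e]
  simp only [N, add_apply, smul_apply, pow_succ, pow_zero, one_mul, mul_apply_eq_comp, B_e]
  have h1 : sk (sk n + 1 + 1) = sk n + 3 := by simp [sk]
  have h2 : sk (sk n + 1) = sk n + 2 := by simp [sk]
  rw [h1, h2]
  push_cast
  congr 2

instance separable_L2 : TopologicalSpace.SeparableSpace (L2 ℕ) := by
  have b : HilbertBasis ℕ ℂ (L2 ℕ) := ⟨LinearIsometryEquiv.refl ℂ _⟩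
  have h1 : TopologicalSpace.IsSeparable (Set.range b) := (Set.countable_range b).isSeparable
  have h2 : TopologicalSpace.IsSeparable (Submodule.span ℂ (Set.range b) : Set (L2 ℕ)) := h1.span
  have h3 : closure (Submodule.span ℂ (Set.range b) : Set (L2 ℕ)) = Set.univ := by
    have h4 := congrArg (fun s : Submodule ℂ (L2 ℕ) => (s : Set (L2 ℕ))) b.dense_span
    exact h4
  rw [← TopologicalSpace.isSeparable_univ_iff, ← h3]
  exact h2.closure

end

end Pool.Agent.H98.Sub
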