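import Pool.Agent.H98.SubB

set_option autoImplicit false

open MeasureTheory
open scoped ENNReal Topology

namespace Pool.Agent.H98.Sub

noncomputable section

/-- The set of (classes of) rational functions with poles off `K`. -/
def ratSet (μ : Measure ℂ) (K : Set ℂ) : Set (Lp ℂ 2 μ) :=
  {f : Lp ℂ 2 μ | ∃ p q : Polynomial ℂ, (∀ z ∈ K, q.eval z ≠ 0) ∧
    (f : ℂ → ℂ) =ᵐ[μ] fun z => p.eval z / q.eval z}

variable {μ : Measure ℂ} {K : Set ℂ}

theorem ae_mem (hK0 : μ Kᶜ = 0) : ∀ᵐ z ∂μ, z ∈ K := by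
  rw [ae_iff]
  exact hK0

theorem memLp_id (hK : IsCompact K) (hK0 : μ Kᶜ = 0) : MemLp (fun z : ℂ => z) ⊤ μ := by
  obtain ⟨M, hM⟩ := hK.isBounded.exists_norm_le
  apply memLp_top_of_bound (C := M) aestronglyMeasurable_id
  filter_upwards [ae_mem hK0] with z hz using hM z hz

theorem memLp_rat [IsFiniteMeasure μ] (hK : IsCompact K) (hK0 : μ Kᶜ = 0) (p q : Polynomial ℂ)
    (hq : ∀ z ∈ K, q.eval z ≠ 0) : MemLp (fun z => p.eval z / q.eval z) 2 μ := by
  have hc : ContinuousOn (fun z => p.eval z / q.eval z) K :=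
    (p.continuous.continuousOn).div (q.continuous.continuousOn) hq
  obtain ⟨M, hM⟩ := hK.exists_bound_of_continuousOn hc
  have hm : Measurable (fun z => p.eval z / q.eval z) :=
    p.continuous.measurable.div q.continuous.measurable
  have h1 : MemLp (fun z => p.eval z / q.eval z) ⊤ μ := by
    apply memLp_top_of_bound (C := M) hm.aestronglyMeasurable
    filter_upwards [ae_mem hK0] with z hz using hM z hz
  exact h1.mono_exponent le_top

/-- Multiplication by `z` on `L²(μ)`. -/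
def Mz (hz : MemLp (fun z : ℂ => z) ⊤ μ) : Lp ℂ 2 μ →L[ℂ] Lp ℂ 2 μ :=
  (ContinuousLinearMap.mul ℂ ℂ).holderL μ ⊤ 2 2 hz.toLp

theorem Mz_ae (hz : MemLp (fun z : ℂ => z) ⊤ μ) (f : Lp ℂ 2 μ) :
    (Mz hz f : ℂ → ℂ) =ᵐ[μ] fun z => z * f z := by
  unfold Mz
  rw [ContinuousLinearMap.holderL_apply_apply]
  filter_upwards [ContinuousLinearMap.coeFn_holder (r := 2) (ContinuousLinearMap.mul ℂ ℂ)
    hz.toLp f, hz.coeFn_toLp] with z h1 h2
  rw [h1, ContinuousLinearMap.mul_apply', h2]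

theorem Mz_rat (hz : MemLp (fun z : ℂ => z) ⊤ μ) (f : Lp ℂ 2 μ) (hf : f ∈ ratSet μ K) :
    Mz hz f ∈ ratSet μ K := by
  obtain ⟨p, q, hq, hpq⟩ := hf
  refine ⟨Polynomial.X * p, q, hq, ?_⟩
  filter_upwards [Mz_ae hz f, hpq] with z h1 h2
  rw [h1, h2, Polynomial.eval_mul, Polynomial.eval_X]
  ring

/-- `R²(K, μ)`. -/
def R2 (μ : Measure ℂ) (K : Set ℂ) : Submodule ℂ (Lp ℂ 2 μ) :=
  (Submodule.span ℂ (ratSet μ K)).topologicalClosure

theorem Mz_R2 (hz : MemLp (fun z : ℂ => z) ⊤ μ) (f : Lp ℂ 2 μ) (hf : f ∈ R2 μ K) :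
    Mz hz f ∈ R2 μ K := by
  have hspan : ∀ g ∈ Submodule.span ℂ (ratSet μ K), Mz hz g ∈ Submodule.span ℂ (ratSet μ K) := by
    intro g hg
    induction hg using Submodule.span_induction with
    | mem x hx => exact Submodule.subset_span (Mz_rat hz x hx)
    | zero => rw [map_zero]; exact Submodule.zero_mem _
    | add x y _ _ hx hy => rw [map_add]; exact Submodule.add_mem _ hx hy
    | smul a x _ hx => rw [map_smul]; exact Submodule.smul_mem _ _ hx
  have hmap : Set.MapsTo (Mz hz) (Submodule.span ℂ (ratSet μ K) : Set (Lp ℂ 2 μ))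
      (Submodule.span ℂ (ratSet μ K)) := fun g hg => hspan g hg
  have := hmap.closure (Mz hz).continuous
  exact this hf

/-- A functional on `R²(K, μ)` which kills the constants and the range of `z - c` is zero. -/
theorem functional_zero [IsFiniteMeasure μ] (hK : IsCompact K) (hK0 : μ Kᶜ = 0)
    (hz : MemLp (fun z : ℂ => z) ⊤ μ) (l : R2 μ K →L[ℂ] ℂ) (c : ℂ)
    (hl : ∀ f : R2 μ K, l ⟨Mz hz f, Mz_R2 hz f f.2⟩ = c * l f)
    (one : R2 μ K) (hone : ((one : Lp ℂ 2 μ) : ℂ → ℂ) =ᵐ[μ] fun _ => 1) (h1 : l one = 0) :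
    l = 0 := by
  have hsub : ∀ g ∈ ratSet μ K, g ∈ R2 μ K := fun g hg =>
    Submodule.le_topologicalClosure _ (Submodule.subset_span hg)
  have hrat : ∀ g (hg : g ∈ ratSet μ K) (hR : g ∈ R2 μ K), l ⟨g, hR⟩ = 0 := by
    intro g hg hR
    obtain ⟨p, q, hq, hpq⟩ := hg
    by_cases hcK : c ∈ K
    · -- `p / q - p(c) / q(c)` is a multiple of `z - c`
      have hqc := hq c hcK
      obtain ⟨s, hs⟩ : (Polynomial.X - Polynomial.C c) ∣
          (Polynomial.C (q.eval c) * p - Polynomial.C (p.eval c) * q) := by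
        rw [Polynomial.dvd_iff_isRoot, Polynomial.IsRoot.def]
        simp
        ring
      have hs' : ∀ z, q.eval c * p.eval z - p.eval c * q.eval z = (z - c) * s.eval z := by
        intro z
        have := congrArg (Polynomial.eval z) hs
        simpa using this
      have hq' : ∀ z ∈ K, (Polynomial.C (q.eval c) * q).eval z ≠ 0 := by
        intro z hzK
        simp [hqc, hq z hzK]
      have hmem := memLp_rat hK hK0 s (Polynomial.C (q.eval c) * q) hq'
      set a : Lp ℂ 2 μ := hmem.toLp with ha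
      have haS : a ∈ ratSet μ K := ⟨s, _, hq', hmem.coeFn_toLp⟩
      have haR := hsub a haS
      have hdec : (⟨g, hR⟩ : R2 μ K) = (p.eval c / q.eval c) • one +
          ((⟨Mz hz a, Mz_R2 hz a haR⟩ : R2 μ K) - c • (⟨a, haR⟩ : R2 μ K)) := by
        apply Subtype.ext
        apply Lp.ext
        simp only [Submodule.coe_add, Submodule.coe_sub, Submodule.coe_smul]
        filter_upwards [hpq, hone, Mz_ae hz a, hmem.coeFn_toLp, ae_mem hK0,
          Lp.coeFn_add ((p.eval c / q.eval c) • (one : Lp ℂ 2 μ)) (Mz hz a - c • a),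
          Lp.coeFn_sub (Mz hz a) (c • a), Lp.coeFn_smul c a,
          Lp.coeFn_smul (p.eval c / q.eval c) (one : Lp ℂ 2 μ)] with z h1 h2 h3 h4 h5 h6 h7 h8 h9
        rw [h6, Pi.add_apply, h7, Pi.sub_apply, h8, h9, Pi.smul_apply, Pi.smul_apply, h1, h2, h3]
        rw [← ha] at h4
        rw [h4]
        simp only [Polynomial.eval_mul, Polynomial.eval_C, smul_eq_mul]
        have hqz := hq z h5
        field_simp
        linear_combination (hs' z)
      rw [hdec, map_add, map_smul, h1, map_sub, map_smul]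
      have := hl ⟨a, haR⟩
      rw [this]
      simp
    · have hq' : ∀ z ∈ K, ((Polynomial.X - Polynomial.C c) * q).eval z ≠ 0 := by
        intro z hzK
        simp only [Polynomial.eval_mul, Polynomial.eval_sub, Polynomial.eval_X, Polynomial.eval_C]
        apply mul_ne_zero _ (hq z hzK)
        intro h
        rw [sub_eq_zero] at h
        exact hcK (h ▸ hzK)
      have hmem := memLp_rat hK hK0 p ((Polynomial.X - Polynomial.C c) * q) hq'
      set a : Lp ℂ 2 μ := hmem.toLp with ha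
      have haS : a ∈ ratSet μ K := ⟨p, _, hq', hmem.coeFn_toLp⟩
      have haR := hsub a haS
      have hdec : (⟨g, hR⟩ : R2 μ K) =
          ((⟨Mz hz a, Mz_R2 hz a haR⟩ : R2 μ K) - c • (⟨a, haR⟩ : R2 μ K)) := by
        apply Subtype.ext
        apply Lp.ext
        simp only [Submodule.coe_sub, Submodule.coe_smul]
        filter_upwards [hpq, Mz_ae hz a, hmem.coeFn_toLp, ae_mem hK0,
          Lp.coeFn_sub (Mz hz a) (c • a), Lp.coeFn_smul c a] with z h1 h3 h4 h5 h7 h8
        rw [h7, Pi.sub_apply, h8, Pi.smul_apply, h1, h3]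
        rw [← ha] at h4
        rw [h4]
        simp only [Polynomial.eval_mul, Polynomial.eval_C, Polynomial.eval_sub, Polynomial.eval_X,
          smul_eq_mul]
        have hqz := hq z h5
        have hzc : z - c ≠ 0 := by
          intro h
          rw [sub_eq_zero] at h
          exact hcK (h ▸ h5)
        field_simp
      rw [hdec, map_sub, map_smul]
      have := hl ⟨a, haR⟩
      rw [this]
      simp
  have hspan : ∀ g (hg : g ∈ Submodule.span ℂ (ratSet μ K)) (hR : g ∈ R2 μ K),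
      l ⟨g, hR⟩ = 0 := by
    intro g hg
    induction hg using Submodule.span_induction with
    | mem x hx => intro hR; exact hrat x hx hR
    | zero =>
      intro hR
      have : (⟨0, hR⟩ : R2 μ K) = 0 := rfl
      rw [this, map_zero]
    | add x y hx' hy' hx hy =>
      intro hR
      have hxR : x ∈ R2 μ K := Submodule.le_topologicalClosure _ hx'
      have hyR : y ∈ R2 μ K := Submodule.le_topologicalClosure _ hy'
      have : (⟨x + y, hR⟩ : R2 μ K) = ⟨x, hxR⟩ + ⟨y, hyR⟩ := rfl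
      rw [this, map_add, hx hxR, hy hyR, add_zero]
    | smul a x hx' hx =>
      intro hR
      have hxR : x ∈ R2 μ K := Submodule.le_topologicalClosure _ hx'
      have : (⟨a • x, hR⟩ : R2 μ K) = a • ⟨x, hxR⟩ := rfl
      rw [this, map_smul, hx hxR, smul_zero]
  ext f
  obtain ⟨g, hg⟩ := f
  obtain ⟨u, hu, hlim⟩ := mem_closure_iff_seq_limit.1 hg
  have huR : ∀ n, u n ∈ R2 μ K := fun n => Submodule.le_topologicalClosure _ (hu n)
  have hlim' : Filter.Tendsto (fun n => (⟨u n, huR n⟩ : R2 μ K)) Filter.atTop (𝓝 ⟨g, hg⟩) :=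
    tendsto_subtype_rng.2 hlim
  have h2 := (l.continuous.tendsto ⟨g, hg⟩).comp hlim'
  have h3 : (l ∘ fun n => (⟨u n, huR n⟩ : R2 μ K)) = fun _ => (0 : ℂ) := by
    funext n
    exact hspan (u n) (hu n) (huR n)
  rw [h3] at h2
  exact tendsto_nhds_unique h2 tendsto_const_nhds

/-- The contradiction. -/
theorem no_model (μ : Measure ℂ) (K : Set ℂ) (φ : ℂ → ℂ) (Um : L2 ℕ ≃ₗᵢ[ℂ] R2 μ K)
    [IsFiniteMeasure μ] (hK : IsCompact K) (hK0 : μ Kᶜ = 0)
    (hU : ∀ x : L2 ℕ, ((Um (S x) : Lp ℂ 2 μ) : ℂ → ℂ) =ᵐ[μ]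
          fun z => φ z * ((Um x : Lp ℂ 2 μ) : ℂ → ℂ) z) : False := by
  have hz := memLp_id hK hK0
  have hMR : ∀ f : R2 μ K, Mz hz f ∈ R2 μ K := fun f => Mz_R2 hz f f.2
  set MR : R2 μ K →L[ℂ] R2 μ K := ((Mz hz).comp (R2 μ K).subtypeL).codRestrict (R2 μ K) hMR
    with hMRdef
  have hMRa : ∀ f : R2 μ K, MR f = ⟨Mz hz f, Mz_R2 hz f f.2⟩ := fun f => rfl
  set T : L2 ℕ →L[ℂ] L2 ℕ :=
    (Um.symm.toContinuousLinearEquiv : R2 μ K →L[ℂ] L2 ℕ).comp
      (MR.comp (Um.toContinuousLinearEquiv : L2 ℕ →L[ℂ] R2 μ K)) with hTdef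
  have hTa : ∀ x, Um (T x) = MR (Um x) := by
    intro x
    show Um (Um.symm (MR (Um x))) = MR (Um x)
    rw [LinearIsometryEquiv.apply_symm_apply]
  have hTS : ∀ x, T (S x) = S (T x) := by
    intro x
    apply Um.injective
    apply Subtype.ext
    apply Lp.ext
    have e1 : ((Um (T (S x)) : R2 μ K) : Lp ℂ 2 μ) = Mz hz (Um (S x) : R2 μ K) := by
      rw [hTa, hMRa]
    have e2 : ((Um (T x) : R2 μ K) : Lp ℂ 2 μ) = Mz hz (Um x : R2 μ K) := by
      rw [hTa, hMRa]
    have h1 := Mz_ae hz (Um (S x) : R2 μ K)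
    have h2 := Mz_ae hz (Um x : R2 μ K)
    have h3 := hU x
    have h4 := hU (T x)
    rw [e1]
    rw [e2] at h4
    filter_upwards [h1, h2, h3, h4] with z a1 a2 a3 a4
    rw [a1, a3, a4, a2]
    ring
  have hone1 : MemLp (fun _ : ℂ => (1 : ℂ)) 2 μ := memLp_const 1
  have honeR : hone1.toLp ∈ R2 μ K := by
    apply Submodule.le_topologicalClosure _ (Submodule.subset_span _)
    refine ⟨1, 1, by simp, ?_⟩
    filter_upwards [hone1.coeFn_toLp] with z h
    rw [h]
    simp
  apply key T hTS (Um.symm ⟨hone1.toLp, honeR⟩)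
  intro c l hl hl0
  set l' : R2 μ K →L[ℂ] ℂ := l.comp (Um.symm.toContinuousLinearEquiv : R2 μ K →L[ℂ] L2 ℕ) with hl'
  have hl'a : ∀ f, l' f = l (Um.symm f) := fun f => rfl
  have h0 : l' = 0 := by
    apply functional_zero hK hK0 hz l' c _ ⟨hone1.toLp, honeR⟩ hone1.coeFn_toLp
    · rw [hl'a]
      exact hl0
    · intro f
      rw [hl'a, hl'a, ← hMRa]
      have := hl (Um.symm f)
      rw [← this]
      congr 1
      apply Um.injective
      rw [LinearIsometryEquiv.apply_symm_apply, hTa, LinearIsometryEquiv.apply_symm_apply]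
  ext1 x
  have := congrArg (fun g : R2 μ K →L[ℂ] ℂ => g (Um x)) h0
  simp only [hl'a, LinearIsometryEquiv.symm_apply_apply] at this
  rw [this]
  rfl

end

end Pool.Agent.H98.Sub
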