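import Pool.Agent.H98.SubC

/-!
# No rationally cyclic operator commutes with `S`

`S` is the operator of `SubA`: multiplication by `z ^ 3 + 3 z ^ 2` on the functions `f` of the Hardy
space with `f' (0) = 0`.
-/

set_option autoImplicit false

open MeasureTheory
open scoped ENNReal Topology

namespace Pool.Agent.H98.Sub

noncomputable section

theorem aeval_functional (T : L2 ℕ →L[ℂ] L2 ℕ) (l : L2 ℕ →L[ℂ] ℂ) (c : ℂ)
    (hl : ∀ f, l (T f) = c * l f) (p : Polynomial ℂ) (f : L2 ℕ) :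
    l (Polynomial.aeval T p f) = p.eval c * l f := by
  induction p using Polynomial.induction_on' with
  | add p q hp hq =>
    rw [map_add, add_apply, map_add, hp, hq, Polynomial.eval_add, add_mul]
  | monomial n a =>
    have h1 : ∀ (m : ℕ) (g : L2 ℕ), l ((T ^ m) g) = c ^ m * l g := by
      intro m
      induction m with
      | zero => intro g; simp
      | succ m ih =>
        intro g
        rw [pow_succ, mul_apply_eq_comp, ih, hl]
        ring
    rw [Polynomial.aeval_monomial, Polynomial.eval_monomial, mul_apply_eq_comp, ContinuousLinearMap.algebraMap_apply,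
      map_smul, smul_eq_mul, h1]
    ring

/-- no rationally cyclic vector for an operator commuting with `S` -/
theorem no_cyclic (T : L2 ℕ →L[ℂ] L2 ℕ) (hT : ∀ f, T (S f) = S (T f)) (x₀ : L2 ℕ) :
    ¬ Dense {v : L2 ℕ | ∃ p q : Polynomial ℂ, IsUnit (Polynomial.aeval T q) ∧
      Polynomial.aeval T q v = Polynomial.aeval T p x₀} := by
  intro hd
  apply key T hT x₀
  intro c l hl hl0
  by_contra hne
  apply hne
  have hz : ∀ v ∈ {v : L2 ℕ | ∃ p q : Polynomial ℂ, IsUnit (Polynomial.aeval T q) ∧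
      Polynomial.aeval T q v = Polynomial.aeval T p x₀}, l v = 0 := by
    rintro v ⟨p, q, hq, hv⟩
    have h1 := aeval_functional T l c hl q v
    rw [hv, aeval_functional T l c hl p x₀, hl0, mul_zero] at h1
    rcases mul_eq_zero.1 h1.symm with h2 | h2
    · exfalso
      apply hne
      obtain ⟨u, hu⟩ := hq
      ext1 x
      have h3 := aeval_functional T l c hl q ((↑u⁻¹ : L2 ℕ →L[ℂ] L2 ℕ) x)
      rw [h2, zero_mul] at h3
      have h4 : Polynomial.aeval T q ((↑u⁻¹ : L2 ℕ →L[ℂ] L2 ℕ) x) = x := by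
        have h5 : Polynomial.aeval T q * (↑u⁻¹ : L2 ℕ →L[ℂ] L2 ℕ) = 1 := by
          rw [← hu]; exact u.mul_inv
        have h6 := congrArg (fun g : L2 ℕ →L[ℂ] L2 ℕ => g x) h5
        simpa using h6
      rw [h4] at h3
      simpa using h3
    · exact h2
  have hcl : IsClosed {v : L2 ℕ | l v = 0} := isClosed_eq l.continuous continuous_const
  have h1 : closure {v : L2 ℕ | ∃ p q : Polynomial ℂ, IsUnit (Polynomial.aeval T q) ∧
      Polynomial.aeval T q v = Polynomial.aeval T p x₀} ⊆ {v : L2 ℕ | l v = 0} :=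
    closure_minimal hz hcl
  ext1 x
  have h2 : x ∈ {v : L2 ℕ | l v = 0} := h1 (hd x)
  simpa using h2

/-- no model, up to similarity -/
theorem no_model_sim (μ : Measure ℂ) (K : Set ℂ) (φ : ℂ → ℂ) (Um : L2 ℕ ≃L[ℂ] R2 μ K)
    [IsFiniteMeasure μ] (hK : IsCompact K) (hK0 : μ Kᶜ = 0)
    (hU : ∀ x : L2 ℕ, ((Um (S x) : Lp ℂ 2 μ) : ℂ → ℂ) =ᵐ[μ]
          fun z => φ z * ((Um x : Lp ℂ 2 μ) : ℂ → ℂ) z) : False := by
  have hz := memLp_id hK hK0
  have hMR : ∀ f : R2 μ K, Mz hz f ∈ R2 μ K := fun f => Mz_R2 hz f f.2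
  set MR : R2 μ K →L[ℂ] R2 μ K := ((Mz hz).comp (R2 μ K).subtypeL).codRestrict (R2 μ K) hMR
    with hMRdef
  have hMRa : ∀ f : R2 μ K, MR f = ⟨Mz hz f, Mz_R2 hz f f.2⟩ := fun f => rfl
  set T : L2 ℕ →L[ℂ] L2 ℕ :=
    (Um.symm : R2 μ K →L[ℂ] L2 ℕ).comp
      (MR.comp (Um : L2 ℕ →L[ℂ] R2 μ K)) with hTdef
  have hTa : ∀ x, Um (T x) = MR (Um x) := by
    intro x
    show Um (Um.symm (MR (Um x))) = MR (Um x)
    rw [ContinuousLinearEquiv.apply_symm_apply]
  have hTS : ∀ x, T (S x) = S (T x) := by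
    intro x
    apply Um.injective
    apply Subtype.ext
    apply Lp.ext
    have e1 : ((Um (T (S x)) : R2 μ K) : Lp ℂ 2 μ) = Mz hz (Um (S x) : R2 μ K) := by
      rw [hTa, hMRa]
    have e2 : ((Um (T x) : R2 μ K) : Lp ℂ 2 μ) = Mz hz (Um x : R2 μ K) := by
      rw [hTa, hMRa]
    have h1 := Mz_ae hz (Um (S x) : R2 μ K)
    have h2 := Mz_ae hz (Um x : R2 μ K)
    have h3 := hU x
    have h4 := hU (T x)
    rw [e1]
    rw [e2] at h4
    filter_upwards [h1, h2, h3, h4] with z a1 a2 a3 a4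
    rw [a1, a3, a4, a2]
    ring
  have hone1 : MemLp (fun _ : ℂ => (1 : ℂ)) 2 μ := memLp_const 1
  have honeR : hone1.toLp ∈ R2 μ K := by
    apply Submodule.le_topologicalClosure _ (Submodule.subset_span _)
    refine ⟨1, 1, by simp, ?_⟩
    filter_upwards [hone1.coeFn_toLp] with z h
    rw [h]
    simp
  apply key T hTS (Um.symm ⟨hone1.toLp, honeR⟩)
  intro c l hl hl0
  set l' : R2 μ K →L[ℂ] ℂ := l.comp (Um.symm : R2 μ K →L[ℂ] L2 ℕ) with hl'
  have hl'a : ∀ f, l' f = l (Um.symm f) := fun f => rfl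
  have h0 : l' = 0 := by
    apply functional_zero hK hK0 hz l' c _ ⟨hone1.toLp, honeR⟩ hone1.coeFn_toLp
    · rw [hl'a]
      exact hl0
    · intro f
      rw [hl'a, hl'a, ← hMRa]
      have := hl (Um.symm f)
      rw [← this]
      congr 1
      apply Um.injective
      rw [ContinuousLinearEquiv.apply_symm_apply, hTa, ContinuousLinearEquiv.apply_symm_apply]
  ext1 x
  have := congrArg (fun g : R2 μ K →L[ℂ] ℂ => g (Um x)) h0
  simp only [hl'a, ContinuousLinearEquiv.symm_apply_apply] at this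
  rw [this]
  rfl

end

end Pool.Agent.H98.Sub
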